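import Pool.Agent.H32.Cone.Basic

/-!
# The cone conjecture: Fourier-Motzkin elimination

PROOFS. fm_one: let `P = {s ∈ S | 0 ≤ f s}`, `Q = {s ∈ S | f s < 0}`. Take
`S' = P ∪ {f p • q' ...}` precisely: `S' = P ∪ {(f p) • q - (f q) • p | p ∈ P, q ∈ Q}`; these vectors are in `L`
(`f p`, `f q` are integers: `Int`), in `pcone S` (`f p ≥ 0`, `-f q > 0`) and `f` of them is `0` resp. `≥ 0`. Conversely let
`x = ∑ a s • s`, `0 ≤ f x`. Put `α = ∑ p ∈ P, a p f p ≥ 0`, `β = -∑ q ∈ Q, a q f q ≥ 0`, `β ≤ α`. If `β = 0` all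
`a q = 0` for `q ∈ Q` (each term `a q (-f q) ≥ 0`, `-f q > 0`), so `x ∈ pcone P`. If `β > 0` then `α > 0` and
`x = ∑_p a p p + ∑_q a q q = (1 - β / α) ∑_p a p p + (1 / α) ∑_(p,q) a p a q ((f p) q - (f q) p)`
(check: the double sum is `α ∑_q a q q + β ∑_p a p p`). So `x ∈ pcone S'`.
fm_many: induction on the finite set of functionals.
-/

set_option autoImplicit false
set_option linter.unusedSectionVars false

open Set

namespace Pool.Agent.H32.Cone

variable {V : Type} [NormedAddCommGroup V] [NormedSpace ℝ V] [FiniteDimensional ℝ V]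

theorem Datum.fm_one (D : Datum V) {S : Finset V} (hS : ∀ s ∈ S, s ∈ D.L) {f : V →ₗ[ℝ] ℝ}
    (hf : D.Int f) : ∃ T : Finset V, (∀ s ∈ T, s ∈ D.L) ∧ pcone T = pcone S ∩ {x | 0 ≤ f x} := by
  classical
  have hint : ∀ p ∈ S, ∀ q ∈ S, f p • q ∈ D.L := by
    intro p hp q hq
    obtain ⟨n, hn⟩ := hf p (hS p hp)
    rw [hn, Int.cast_smul_eq_zsmul]
    exact D.L.smul_mem n (hS q hq)
  set P := S.filter (fun s => 0 ≤ f s) with hP
  set Q := S.filter (fun s => ¬ 0 ≤ f s) with hQ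
  have hPm : ∀ p ∈ P, p ∈ S ∧ 0 ≤ f p := fun p hp => Finset.mem_filter.1 hp
  have hQm : ∀ q ∈ Q, q ∈ S ∧ f q < 0 := fun q hq =>
    ⟨(Finset.mem_filter.1 hq).1, not_le.1 (Finset.mem_filter.1 hq).2⟩
  set T := P ∪ (P ×ˢ Q).image (fun z => f z.1 • z.2 - f z.2 • z.1) with hT
  have hTm : ∀ t ∈ T, t ∈ D.L ∧ t ∈ pcone S ∧ 0 ≤ f t := by
    intro t ht
    rcases Finset.mem_union.1 ht with h | h
    · obtain ⟨h1, h2⟩ := hPm t h
      exact ⟨hS t h1, pcone_mem h1, h2⟩
    · obtain ⟨⟨p, q⟩, hz, rfl⟩ := Finset.mem_image.1 h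
      obtain ⟨hp, hq⟩ := Finset.mem_product.1 hz
      obtain ⟨hp1, hp2⟩ := hPm p hp
      obtain ⟨hq1, hq2⟩ := hQm q hq
      refine ⟨D.L.sub_mem (hint p hp1 q hq1) (hint q hq1 p hp1), ?_, ?_⟩
      · show f p • q - f q • p ∈ pcone S
        rw [sub_eq_add_neg, ← neg_smul]
        exact pcone_add (pcone_smul hp2 (pcone_mem hq1)) (pcone_smul (by linarith) (pcone_mem hp1))
      · show 0 ≤ f (f p • q - f q • p)
        rw [map_sub, map_smul, map_smul, smul_eq_mul, smul_eq_mul, mul_comm, sub_self]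
  refine ⟨T, fun t ht => (hTm t ht).1, ?_⟩
  apply Subset.antisymm
  · intro x hx
    refine ⟨pcone_sub (fun t ht => (hTm t ht).2.1) hx, ?_⟩
    obtain ⟨c, hc, rfl⟩ := hx
    show 0 ≤ f (∑ s ∈ T, c s • s)
    rw [map_sum]
    refine Finset.sum_nonneg fun t ht => ?_
    rw [map_smul, smul_eq_mul]
    exact mul_nonneg (hc t ht) (hTm t ht).2.2
  · rintro x ⟨⟨a, ha, rfl⟩, hx⟩
    have hx' : 0 ≤ ∑ s ∈ S, a s * f s := by
      have h1 : 0 ≤ f (∑ s ∈ S, a s • s) := hx
      rw [map_sum] at h1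
      simpa only [map_smul, smul_eq_mul] using h1
    have hsplit : ∑ s ∈ S, a s • s = ∑ p ∈ P, a p • p + ∑ q ∈ Q, a q • q :=
      (Finset.sum_filter_add_sum_filter_not S (fun s => 0 ≤ f s) _).symm
    have hsplit2 : ∑ s ∈ S, a s * f s = ∑ p ∈ P, a p * f p + ∑ q ∈ Q, a q * f q :=
      (Finset.sum_filter_add_sum_filter_not S (fun s => 0 ≤ f s) _).symm
    have hPT : ∑ p ∈ P, a p • p ∈ pcone T := by
      refine pcone_sum P _ fun p hp => pcone_smul (ha p (hPm p hp).1) (pcone_mem ?_)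
      exact Finset.mem_union_left _ hp
    set α := ∑ p ∈ P, a p * f p with hα
    set β := -∑ q ∈ Q, a q * f q with hβ
    have hβ0 : 0 ≤ β := by
      rw [hβ, ← Finset.sum_neg_distrib]
      refine Finset.sum_nonneg fun q hq => ?_
      obtain ⟨hq1, hq2⟩ := hQm q hq
      have := mul_nonneg (ha q hq1) (neg_nonneg.2 hq2.le)
      linarith
    have hαβ : β ≤ α := by
      rw [hsplit2] at hx'
      linarith
    rcases hβ0.eq_or_lt with h0 | h0
    · -- all coefficients on `Q` vanish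
      have hz : ∀ q ∈ Q, a q = 0 := by
        have h1 : ∑ q ∈ Q, -(a q * f q) = 0 := by
          rw [Finset.sum_neg_distrib, ← hβ, ← h0]
        have h2 := (Finset.sum_eq_zero_iff_of_nonneg (fun q hq => by
          obtain ⟨hq1, hq2⟩ := hQm q hq
          have := mul_nonneg (ha q hq1) (neg_nonneg.2 hq2.le)
          linarith)).1 h1
        intro q hq
        obtain ⟨hq1, hq2⟩ := hQm q hq
        rcases mul_eq_zero.1 (neg_eq_zero.1 (h2 q hq)) with h | h
        · exact h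
        · exact absurd h hq2.ne
      have h3 : ∑ q ∈ Q, a q • q = 0 := Finset.sum_eq_zero fun q hq => by rw [hz q hq, zero_smul]
      rw [hsplit, h3, add_zero]
      exact hPT
    · have hα0 : 0 < α := lt_of_lt_of_le h0 hαβ
      have hdouble : ∑ p ∈ P, ∑ q ∈ Q, (a p * a q) • (f p • q - f q • p) =
          α • ∑ q ∈ Q, a q • q + β • ∑ p ∈ P, a p • p := by
        have h1 : ∀ p ∈ P, ∑ q ∈ Q, (a p * a q) • (f p • q - f q • p) =
            (a p * f p) • ∑ q ∈ Q, a q • q + β • (a p • p) := by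
          intro p _
          have h2 : β • (a p • p) = ∑ q ∈ Q, -((a q * f q) • (a p • p)) := by
            rw [hβ, neg_smul, Finset.sum_smul, Finset.sum_neg_distrib]
          rw [h2, Finset.smul_sum, ← Finset.sum_add_distrib]
          refine Finset.sum_congr rfl fun q _ => ?_
          module
        rw [Finset.sum_congr rfl h1, Finset.sum_add_distrib, ← Finset.sum_smul, ← Finset.smul_sum]
      have hcomb : ∑ s ∈ S, a s • s = (1 - β / α) • ∑ p ∈ P, a p • p +
          (1 / α) • ∑ p ∈ P, ∑ q ∈ Q, (a p * a q) • (f p • q - f q • p) := by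
        rw [hdouble, hsplit, smul_add, smul_smul, smul_smul, sub_smul, one_smul]
        have h1 : 1 / α * α = 1 := by field_simp
        have h2 : 1 / α * β = β / α := by ring
        rw [h1, h2, one_smul]
        abel
      rw [hcomb]
      refine pcone_add (pcone_smul ?_ hPT) (pcone_smul (by positivity) ?_)
      · have := (div_le_one hα0).2 hαβ
        linarith
      · refine pcone_sum P _ fun p hp => pcone_sum Q _ fun q hq => ?_
        refine pcone_smul (mul_nonneg (ha p (hPm p hp).1) (ha q (hQm q hq).1)) (pcone_mem ?_)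
        exact Finset.mem_union_right _ (Finset.mem_image.2 ⟨(p, q), Finset.mem_product.2 ⟨hp, hq⟩, rfl⟩)

theorem Datum.fm_many (D : Datum V) {S : Finset V} (hS : ∀ s ∈ S, s ∈ D.L)
    {F : Set (V →ₗ[ℝ] ℝ)} (hF : F.Finite) (hf : ∀ f ∈ F, D.Int f) :
    ∃ T : Finset V, (∀ s ∈ T, s ∈ D.L) ∧ pcone T = pcone S ∩ {x | ∀ f ∈ F, 0 ≤ f x} := by
  classical
  induction F, hF using Set.Finite.induction_on with
  | empty => exact ⟨S, hS, by simp⟩
  | @insert f F _ _ ih =>
    obtain ⟨T, hT, hT2⟩ := ih (fun g hg => hf g (mem_insert_of_mem _ hg))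
    obtain ⟨U, hU, hU2⟩ := D.fm_one hT (hf f (mem_insert _ _))
    refine ⟨U, hU, ?_⟩
    rw [hU2, hT2]
    ext x
    constructor
    · rintro ⟨⟨h1, h2⟩, h3⟩
      refine ⟨h1, ?_⟩
      rintro g (rfl | hg)
      · exact h3
      · exact h2 g hg
    · rintro ⟨h1, h2⟩
      exact ⟨⟨h1, fun g hg => h2 g (mem_insert_of_mem _ hg)⟩, h2 f (mem_insert _ _)⟩

end Pool.Agent.H32.Cone
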