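import Pool.Agent.H32.Cone.Cosets

/-!
# The cone conjecture: finitely many lifts when the kernel is an abelian variety up to finite index
-/

set_option autoImplicit false
set_option linter.unusedSectionVars false

open Set

namespace Pool.Agent.H32.Cone

theorem finite_reps {A : Type} [Group A] {T K : Subgroup A} (hTn : T.Normal)
    (hTi : T.relIndex K ≠ 0) :
    ∃ Q : Set A, Q.Finite ∧ ∀ k ∈ K, ∃ q ∈ Q, k * q⁻¹ ∈ T := by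
  have hfin : (T.subgroupOf K).FiniteIndex := ⟨hTi⟩
  have h2 : Finite (K ⧸ T.subgroupOf K) := Subgroup.finite_quotient_of_finiteIndex
  refine ⟨range fun q : K ⧸ T.subgroupOf K => (q.out : A), Set.finite_range _, ?_⟩
  intro k hk
  refine ⟨_, ⟨QuotientGroup.mk ⟨k, hk⟩, rfl⟩, ?_⟩
  set q : K := (QuotientGroup.mk ⟨k, hk⟩ : K ⧸ T.subgroupOf K).out with hq
  have h1 : (QuotientGroup.mk q : K ⧸ T.subgroupOf K) = QuotientGroup.mk ⟨k, hk⟩ :=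
    Quotient.out_eq' _
  rw [QuotientGroup.eq] at h1
  have h3 : (q : A)⁻¹ * k ∈ T := h1
  have h4 := hTn.conj_mem _ h3 (q : A)
  have h5 : (q : A) * ((q : A)⁻¹ * k) * (q : A)⁻¹ = k * (q : A)⁻¹ := by group
  rw [h5] at h4
  exact h4

/-- the cocycle computation: a lift which differs from `φ₀` by elements of `T` is conjugate to one which differs
by elements of order dividing `n` -/
theorem conj_tors {A : Type} [Group A] {Γ : Type} [Group Γ] [Fintype Γ] {T : Subgroup A}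
    (hTn : T.Normal) (hTc : ∀ s ∈ T, ∀ t ∈ T, s * t = t * s)
    (hdiv : ∀ t ∈ T, ∃ s ∈ T, s ^ (Fintype.card Γ) = t) (φ φ0 : Γ →* A)
    (h : ∀ γ, φ γ * (φ0 γ)⁻¹ ∈ T) :
    ∃ s ∈ T, ∀ γ, s⁻¹ * φ γ * s * (φ0 γ)⁻¹ ∈ T ∧
      (s⁻¹ * φ γ * s * (φ0 γ)⁻¹) ^ (Fintype.card Γ) = 1 := by
  classical
  let _ : CommGroup T :=
    { (inferInstance : Group T) with
      mul_comm := fun a b => Subtype.ext (hTc a a.2 b b.2) }
  let c : Γ → T := fun γ => ⟨φ γ * (φ0 γ)⁻¹, h γ⟩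
  let σ : Γ → (T →* T) := fun γ => (MulAut.conjNormal (φ0 γ) : MulAut T).toMonoidHom
  have hσ : ∀ γ (t : T), ((σ γ t : T) : A) = φ0 γ * t * (φ0 γ)⁻¹ := fun γ t =>
    MulAut.conjNormal_apply _ _
  have hc : ∀ γ δ, c (γ * δ) = c γ * σ γ (c δ) := by
    intro γ δ
    apply Subtype.ext
    show φ (γ * δ) * (φ0 (γ * δ))⁻¹ = (φ γ * (φ0 γ)⁻¹) * ((σ γ (c δ) : T) : A)
    rw [hσ, map_mul, map_mul]
    show _ = (φ γ * (φ0 γ)⁻¹) * (φ0 γ * (φ δ * (φ0 δ)⁻¹) * (φ0 γ)⁻¹)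
    group
  have hprod : ∀ γ, ∏ δ, c δ = c γ ^ (Fintype.card Γ) * σ γ (∏ δ, c δ) := by
    intro γ
    calc ∏ δ, c δ = ∏ δ, c (γ * δ) := (Equiv.prod_comp (Equiv.mulLeft γ) c).symm
      _ = ∏ δ, (c γ * σ γ (c δ)) := Finset.prod_congr rfl fun δ _ => hc γ δ
      _ = c γ ^ (Fintype.card Γ) * σ γ (∏ δ, c δ) := by
        rw [Finset.prod_mul_distrib, Finset.prod_const, map_prod, Finset.card_univ]
  obtain ⟨s, hs, hs2⟩ := hdiv _ (∏ δ, c δ : T).2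
  let s' : T := ⟨s, hs⟩
  have hs3 : s' ^ (Fintype.card Γ) = ∏ δ, c δ := Subtype.ext hs2
  refine ⟨s, hs, fun γ => ?_⟩
  have h1 : s⁻¹ * φ γ * s * (φ0 γ)⁻¹ = ((s'⁻¹ * c γ * σ γ s' : T) : A) := by
    show _ = (s⁻¹ * (φ γ * (φ0 γ)⁻¹)) * ((σ γ s' : T) : A)
    rw [hσ]
    show _ = (s⁻¹ * (φ γ * (φ0 γ)⁻¹)) * (φ0 γ * s * (φ0 γ)⁻¹)
    group
  rw [h1]
  refine ⟨Subtype.property _, ?_⟩
  have h2 : (s'⁻¹ * c γ * σ γ s') ^ (Fintype.card Γ) = 1 := by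
    rw [mul_pow, mul_pow, inv_pow, ← map_pow, hs3, mul_assoc, ← hprod γ, inv_mul_cancel]
  have h3 := congrArg Subtype.val h2
  exact h3

theorem lift_fin_of_abfin {A B : Type} [Group A] [Group B] (ρ : A →* B) (Γ : Subgroup A)
    [Finite Γ] (h : AbFin ρ.ker) : LiftFin ρ Γ := by
  classical
  obtain ⟨T, hTn, hTK, hTi, hTc, hT⟩ := h
  have := Fintype.ofFinite Γ
  obtain ⟨hdiv, hNfin⟩ := hT (Fintype.card Γ) Fintype.card_pos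
  obtain ⟨Q, hQf, hQ⟩ := finite_reps hTn hTi
  intro ψ
  by_cases hex : ∃ φ1 : Γ →* A, ρ.comp φ1 = ψ
  swap
  · exact ⟨∅, Set.finite_empty, fun φ hφ => absurd ⟨φ, hφ⟩ hex⟩
  obtain ⟨φ1, hφ1⟩ := hex
  set N : Set A := {t : A | t ∈ T ∧ t ^ (Fintype.card Γ) = 1} with hN
  -- types of lifts
  have hQ' : Finite Q := hQf
  let P : (Γ → Q) → (Γ →* A) → Prop := fun q φ => ρ.comp φ = ψ ∧
    ∀ γ, φ γ * (φ1 γ)⁻¹ * ((q γ : Q) : A)⁻¹ ∈ T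
  let QQ : Set (Γ → Q) := {q | ∃ φ, P q φ}
  choose f hf using fun q : QQ => q.2
  let U : QQ → Set (Γ →* A) := fun q => {τ | ∀ γ, τ γ * (f q γ)⁻¹ ∈ N}
  have hUfin : ∀ q, (U q).Finite := by
    intro q
    have hfin : {g : Γ → A | ∀ γ : Γ, g γ ∈ (fun t => t * f q γ) '' N}.Finite :=
      Set.Finite.pi' fun γ => hNfin.image _
    refine Set.Finite.of_injOn (f := fun (φ : Γ →* A) (γ : Γ) => φ γ)
      (t := {g : Γ → A | ∀ γ : Γ, g γ ∈ (fun t => t * f q γ) '' N}) ?_ ?_ hfin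
    · intro τ hτ γ
      exact ⟨_, hτ γ, by group⟩
    · intro φ _ φ' _ h
      exact MonoidHom.ext fun γ => congrFun h γ
  refine ⟨⋃ q : QQ, U q, Set.finite_iUnion hUfin, ?_⟩
  intro φ hφ
  have hker : ∀ γ, φ γ * (φ1 γ)⁻¹ ∈ ρ.ker := by
    intro γ
    rw [MonoidHom.mem_ker, map_mul, map_inv]
    have h1 : ρ (φ γ) = ψ γ := DFunLike.congr_fun hφ γ
    have h2 : ρ (φ1 γ) = ψ γ := DFunLike.congr_fun hφ1 γ
    rw [h1, h2, mul_inv_cancel]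
  choose q hqQ hq using fun γ => hQ _ (hker γ)
  let q' : Γ → Q := fun γ => ⟨q γ, hqQ γ⟩
  have hq' : q' ∈ QQ := ⟨φ, hφ, hq⟩
  obtain ⟨h0, h00⟩ := hf ⟨q', hq'⟩
  set φ0 := f ⟨q', hq'⟩ with hφ0
  have hTT : ∀ γ, φ γ * (φ0 γ)⁻¹ ∈ T := by
    intro γ
    have h1 : φ γ * (φ1 γ)⁻¹ * (q γ)⁻¹ ∈ T := hq γ
    have h2 : φ0 γ * (φ1 γ)⁻¹ * (q γ)⁻¹ ∈ T := h00 γ
    have h3 := T.mul_mem h1 (T.inv_mem h2)
    have h4 : φ γ * (φ1 γ)⁻¹ * (q γ)⁻¹ * (φ0 γ * (φ1 γ)⁻¹ * (q γ)⁻¹)⁻¹ = φ γ * (φ0 γ)⁻¹ := by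
      group
    rw [h4] at h3
    exact h3
  obtain ⟨s, hs, hs2⟩ := conj_tors hTn hTc hdiv φ φ0 hTT
  refine ⟨(MulAut.conj s⁻¹).toMonoidHom.comp φ, ?_, s⁻¹, ρ.ker.inv_mem (hTK hs), ?_⟩
  · rw [Set.mem_iUnion]
    refine ⟨⟨q', hq'⟩, ?_⟩
    intro γ
    have h1 : (MulAut.conj s⁻¹).toMonoidHom.comp φ γ = s⁻¹ * φ γ * s := by
      show MulAut.conj s⁻¹ (φ γ) = _
      rw [MulAut.conj_apply, inv_inv]
    rw [h1]
    exact hs2 γ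
  · intro γ
    have h1 : (MulAut.conj s⁻¹).toMonoidHom.comp φ γ = s⁻¹ * φ γ * s := by
      show MulAut.conj s⁻¹ (φ γ) = _
      rw [MulAut.conj_apply, inv_inv]
    rw [h1]
    group

end Pool.Agent.H32.Cone
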