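import Pool.Agent.H32.Cone.Defs

/-!
# The cone conjecture: elementary facts on cones
-/

set_option autoImplicit false
set_option linter.unusedSectionVars false

open Set Filter Topology

namespace Pool.Agent.H32.Cone

section Alg

variable {V : Type} [AddCommGroup V] [Module ℝ V]

theorem pcone_zero (S : Finset V) : (0 : V) ∈ pcone S := by
  refine ⟨0, fun s _ => le_rfl, ?_⟩
  simp

theorem pcone_add {S : Finset V} {x y : V} (hx : x ∈ pcone S) (hy : y ∈ pcone S) :
    x + y ∈ pcone S := by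
  obtain ⟨a, ha, rfl⟩ := hx
  obtain ⟨b, hb, rfl⟩ := hy
  refine ⟨a + b, fun s hs => add_nonneg (ha s hs) (hb s hs), ?_⟩
  rw [← Finset.sum_add_distrib]
  refine Finset.sum_congr rfl fun s _ => ?_
  rw [Pi.add_apply, add_smul]

theorem pcone_smul {S : Finset V} {x : V} {t : ℝ} (ht : 0 ≤ t) (hx : x ∈ pcone S) :
    t • x ∈ pcone S := by
  obtain ⟨a, ha, rfl⟩ := hx
  refine ⟨fun s => t * a s, fun s hs => mul_nonneg ht (ha s hs), ?_⟩
  rw [Finset.smul_sum]
  refine Finset.sum_congr rfl fun s _ => ?_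
  rw [mul_smul]

theorem pcone_mem {S : Finset V} {s : V} (hs : s ∈ S) : s ∈ pcone S := by
  classical
  refine ⟨fun u => if u = s then 1 else 0, fun u _ => by
    simp only
    split_ifs <;> norm_num, ?_⟩
  rw [Finset.sum_eq_single s]
  · simp
  · intro u _ hu
    simp [hu]
  · intro h
    exact absurd hs h

theorem pcone_sum {S : Finset V} {ι : Type*} (T : Finset ι) (f : ι → V)
    (h : ∀ i ∈ T, f i ∈ pcone S) : ∑ i ∈ T, f i ∈ pcone S := by
  classical
  induction T using Finset.induction_on with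
  | empty => simpa using pcone_zero S
  | insert a T ha ih =>
    rw [Finset.sum_insert ha]
    exact pcone_add (h a (Finset.mem_insert_self _ _))
      (ih fun i hi => h i (Finset.mem_insert_of_mem hi))

theorem pcone_sub {S T : Finset V} (h : ∀ s ∈ S, s ∈ pcone T) : pcone S ⊆ pcone T := by
  rintro _ ⟨c, hc, rfl⟩
  exact pcone_sum S _ fun s hs => pcone_smul (hc s hs) (h s hs)

theorem pcone_mono {S T : Finset V} (h : S ⊆ T) : pcone S ⊆ pcone T :=
  pcone_sub fun _ hs => pcone_mem (h hs)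

theorem pcone_convex (S : Finset V) : Convex ℝ (pcone S) := by
  intro x hx y hy a b ha hb _
  exact pcone_add (pcone_smul ha hx) (pcone_smul hb hy)

theorem pcone_image [DecidableEq V] {W : Type} [AddCommGroup W] [Module ℝ W] [DecidableEq W]
    (f : V →ₗ[ℝ] W) (S : Finset V) : (fun x => f x) '' pcone S = pcone (S.image f) := by
  apply Subset.antisymm
  · rintro _ ⟨x, ⟨c, hc, rfl⟩, rfl⟩
    simp only [map_sum, map_smul]
    exact pcone_sum S _ fun s hs => pcone_smul (hc s hs) (pcone_mem (Finset.mem_image_of_mem _ hs))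
  · have key : ∀ y ∈ pcone (S.image f), ∃ x ∈ pcone S, f x = y := by
      rintro _ ⟨c, hc, rfl⟩
      have h1 : ∀ T : Finset W, T ⊆ S.image f → ∃ x ∈ pcone S, f x = ∑ t ∈ T, c t • t := by
        intro T
        induction T using Finset.induction_on with
        | empty => intro _; exact ⟨0, pcone_zero S, by simp⟩
        | insert a T ha ih =>
          intro hT
          obtain ⟨x, hx, hx2⟩ := ih (fun t ht => hT (Finset.mem_insert_of_mem ht))
          have ha2 := hT (Finset.mem_insert_self a T)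
          obtain ⟨s, hs, hs2⟩ := Finset.mem_image.1 ha2
          refine ⟨c a • s + x, pcone_add (pcone_smul (hc a ha2) (pcone_mem hs)) hx, ?_⟩
          rw [map_add, map_smul, hs2, hx2, Finset.sum_insert ha]
      exact h1 _ (Finset.Subset.refl _)
    intro y hy
    obtain ⟨x, hx, hx2⟩ := key y hy
    exact ⟨x, hx, hx2⟩

end Alg

section Top

variable {V : Type} [NormedAddCommGroup V] [NormedSpace ℝ V]

namespace Datum

variable (D : Datum V)

theorem zero_mem_closure : (0 : V) ∈ closure D.C := by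
  obtain ⟨c, hc⟩ := D.nonempty_C
  have h1 : Tendsto (fun n : ℕ => (1 / ((n : ℝ) + 1)) • c) atTop (𝓝 ((0 : ℝ) • c)) :=
    tendsto_one_div_add_atTop_nhds_zero_nat.smul_const c
  rw [zero_smul] at h1
  exact mem_closure_of_tendsto h1 (Eventually.of_forall fun n => D.smul_C _ (by positivity) c hc)

theorem closure_add {x y : V} (hx : x ∈ closure D.C) (hy : y ∈ closure D.C) :
    x + y ∈ closure D.C := by
  have h := map_mem_closure₂ (f := fun a b : V => a + b) continuous_add hx hy
    (fun a ha b hb => D.add_C a ha b hb)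
  exact h

theorem closure_smul {x : V} {t : ℝ} (ht : 0 ≤ t) (hx : x ∈ closure D.C) :
    t • x ∈ closure D.C := by
  rcases ht.eq_or_lt with h | h
  · rw [← h, zero_smul]
    exact D.zero_mem_closure
  · exact map_mem_closure (f := fun a : V => t • a) (continuous_const_smul t) hx
      (fun a ha => D.smul_C t h a ha)

theorem add_closure {x y : V} (hx : x ∈ D.C) (hy : y ∈ closure D.C) : x + y ∈ D.C := by
  obtain ⟨ε, hε, hb⟩ := Metric.isOpen_iff.1 D.open_C x hx
  obtain ⟨z, hz, hz2⟩ := Metric.mem_closure_iff.1 hy ε hε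
  have h1 : x + (y - z) ∈ D.C := by
    apply hb
    rw [Metric.mem_ball, dist_eq_norm, add_sub_cancel_left, ← dist_eq_norm]
    exact hz2
  have h2 := D.add_C _ h1 _ hz
  have h3 : x + (y - z) + z = x + y := by abel
  rwa [h3] at h2

theorem closure_sum {ι : Type*} (T : Finset ι) (f : ι → V) (h : ∀ i ∈ T, f i ∈ closure D.C) :
    ∑ i ∈ T, f i ∈ closure D.C := by
  classical
  induction T using Finset.induction_on with
  | empty => simpa using D.zero_mem_closure
  | insert a T ha ih =>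
    rw [Finset.sum_insert ha]
    exact D.closure_add (h a (Finset.mem_insert_self _ _))
      (ih fun i hi => h i (Finset.mem_insert_of_mem hi))

theorem pcone_closure {S : Finset V} (hS : ∀ s ∈ S, s ∈ closure D.C) :
    pcone S ⊆ closure D.C := by
  rintro _ ⟨c, hc, rfl⟩
  exact D.closure_sum S _ fun s hs => D.closure_smul (hc s hs) (hS s hs)

/-- if a combination with nonnegative coefficients is in `C`, so is the sum of the vectors with
positive coefficients -/
theorem support_mem {S : Finset V} (hS : ∀ s ∈ S, s ∈ closure D.C) {a : V → ℝ}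
    (ha : ∀ s ∈ S, 0 ≤ a s) (hx : ∑ s ∈ S, a s • s ∈ D.C) :
    ∑ s ∈ S with 0 < a s, s ∈ D.C := by
  classical
  obtain ⟨M, hM, hM1⟩ : ∃ M : ℝ, (∀ s ∈ S, a s ≤ M) ∧ 1 ≤ M := by
    refine ⟨1 + ∑ s ∈ S, a s, fun s hs => ?_, ?_⟩
    · have := Finset.single_le_sum ha hs
      linarith
    · have := Finset.sum_nonneg ha
      linarith
  have hMpos : 0 < M := by linarith
  have h1 : ∑ s ∈ S, a s • s = ∑ s ∈ S with 0 < a s, a s • s := by
    rw [Finset.sum_filter]
    refine Finset.sum_congr rfl fun s hs => ?_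
    split_ifs with h
    · rfl
    · have : a s = 0 := le_antisymm (not_lt.1 h) (ha s hs)
      rw [this, zero_smul]
  have h2 : (∑ s ∈ S with 0 < a s, a s • s) + ∑ s ∈ S with 0 < a s, (M - a s) • s =
      M • ∑ s ∈ S with 0 < a s, s := by
    rw [← Finset.sum_add_distrib, Finset.smul_sum]
    refine Finset.sum_congr rfl fun s _ => ?_
    rw [← add_smul]
    congr 1
    ring
  have h3 : ∑ s ∈ S with 0 < a s, (M - a s) • s ∈ closure D.C := by
    apply D.closure_sum
    intro s hs
    rw [Finset.mem_filter] at hs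
    exact D.closure_smul (by linarith [hM s hs.1]) (hS s hs.1)
  rw [h1] at hx
  have h4 := D.add_closure hx h3
  rw [h2] at h4
  have h5 := D.smul_C M⁻¹ (inv_pos.2 hMpos) _ h4
  rwa [smul_smul, inv_mul_cancel₀ hMpos.ne', one_smul] at h5

theorem closure_C_convex : Convex ℝ (closure D.C) := by
  intro x hx y hy a b ha hb _
  exact D.closure_add (D.closure_smul ha hx) (D.closure_smul hb hy)

theorem pres_one : D.Pres 1 := ⟨fun _ => Iff.rfl, fun _ => Iff.rfl⟩

theorem Pres.mul {D : Datum V} {g h : V ≃ₗ[ℝ] V} (hg : D.Pres g) (hh : D.Pres h) :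
    D.Pres (g * h) :=
  ⟨fun x => (hg.1 (h x)).trans (hh.1 x), fun x => (hg.2 (h x)).trans (hh.2 x)⟩

theorem Pres.inv {D : Datum V} {g : V ≃ₗ[ℝ] V} (hg : D.Pres g) : D.Pres g⁻¹ := by
  constructor
  · intro x
    rw [← hg.1]
    show g (g.symm x) ∈ D.L ↔ _
    rw [LinearEquiv.apply_symm_apply]
  · intro x
    rw [← hg.2]
    show g (g.symm x) ∈ D.C ↔ _
    rw [LinearEquiv.apply_symm_apply]

end Datum

end Top

section Fin

variable {V : Type} [NormedAddCommGroup V] [NormedSpace ℝ V] [FiniteDimensional ℝ V]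

theorem lin_cont {W : Type} [NormedAddCommGroup W] [NormedSpace ℝ W] (f : V →ₗ[ℝ] W) :
    Continuous (fun x => f x) := f.continuous_of_finiteDimensional

namespace Datum

theorem Pres.cl {D : Datum V} {g : V ≃ₗ[ℝ] V} (hg : D.Pres g) (x : V) :
    g x ∈ closure D.C ↔ x ∈ closure D.C := by
  have key : ∀ g : V ≃ₗ[ℝ] V, D.Pres g → ∀ x, x ∈ closure D.C → g x ∈ closure D.C := by
    intro g hg x hx
    exact map_mem_closure (f := fun y => g y) (lin_cont (g : V →ₗ[ℝ] V)) hx
      (fun a ha => (hg.2 a).2 ha)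
  constructor
  · intro h
    have h1 := key _ hg.inv _ h
    have h2 : (g⁻¹ : V ≃ₗ[ℝ] V) (g x) = x := g.symm_apply_apply x
    rwa [h2] at h1
  · exact key g hg x

theorem NN.cl {D : Datum V} {η : V →ₗ[ℝ] ℝ} (h : D.NN η) {x : V}
    (hx : x ∈ closure D.C) : 0 ≤ η x := by
  have h1 : closure D.C ⊆ {y | 0 ≤ η y} :=
    closure_minimal h (isClosed_le continuous_const (lin_cont η))
  exact h1 hx

theorem Pos.nn {D : Datum V} {η : V →ₗ[ℝ] ℝ} (h : D.Pos η) : D.NN η := by
  intro x hx
  by_cases h0 : x = 0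
  · rw [h0, map_zero]
  · exact (h x (subset_closure hx) h0).le

theorem Int.comp {D : Datum V} {η : V →ₗ[ℝ] ℝ} (h : D.Int η) {g : V ≃ₗ[ℝ] V}
    (hg : D.Pres g) : D.Int (η ∘ₗ (g : V →ₗ[ℝ] V)) := fun l hl => h _ ((hg.1 l).2 hl)

theorem NN.comp {D : Datum V} {η : V →ₗ[ℝ] ℝ} (h : D.NN η) {g : V ≃ₗ[ℝ] V}
    (hg : D.Pres g) : D.NN (η ∘ₗ (g : V →ₗ[ℝ] V)) := fun l hl => h _ ((hg.2 l).2 hl)

/-- the hull of the rational points is preserved -/
theorem Pres.plus {D : Datum V} {g : V ≃ₗ[ℝ] V} (hg : D.Pres g) {x : V} (hx : x ∈ D.Plus) :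
    g x ∈ D.Plus := by
  classical
  obtain ⟨T, hT, hx⟩ := hx
  refine ⟨T.image (g : V →ₗ[ℝ] V), ?_, ?_⟩
  · intro t ht
    obtain ⟨s, hs, rfl⟩ := Finset.mem_image.1 ht
    exact ⟨(hg.1 s).2 (hT s hs).1, (hg.cl s).2 (hT s hs).2⟩
  · rw [← pcone_image]
    exact ⟨x, hx, rfl⟩

theorem plus_add {D : Datum V} {x y : V} (hx : x ∈ D.Plus) (hy : y ∈ D.Plus) :
    x + y ∈ D.Plus := by
  classical
  obtain ⟨S, hS, hx⟩ := hx
  obtain ⟨T, hT, hy⟩ := hy
  refine ⟨S ∪ T, ?_, pcone_add (pcone_mono Finset.subset_union_left hx)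
    (pcone_mono Finset.subset_union_right hy)⟩
  intro t ht
  rcases Finset.mem_union.1 ht with h | h
  · exact hS t h
  · exact hT t h

theorem plus_smul {D : Datum V} {x : V} {t : ℝ} (ht : 0 ≤ t) (hx : x ∈ D.Plus) :
    t • x ∈ D.Plus := by
  obtain ⟨S, hS, hx⟩ := hx
  exact ⟨S, hS, pcone_smul ht hx⟩

theorem plus_sub {D : Datum V} : D.Plus ⊆ closure D.C := by
  rintro x ⟨T, hT, hx⟩
  exact D.pcone_closure (fun t ht => (hT t ht).2) hx

end Datum

end Fin

end Pool.Agent.H32.Cone
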