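import Pool.Agent.H32.Cone.Basic

/-!
# The cone conjecture: finitely many cosets of the centraliser
-/

set_option autoImplicit false
set_option linter.unusedSectionVars false

open Set

namespace Pool.Agent.H32.Cone

theorem lift_fin_of_finite {A B : Type} [Group A] [Group B] (ρ : A →* B) (Γ : Subgroup A)
    [Finite Γ] [Finite ρ.ker] : LiftFin ρ Γ := by
  intro ψ
  refine ⟨{φ | ρ.comp φ = ψ}, ?_, fun φ hφ => ⟨φ, hφ, 1, ρ.ker.one_mem, fun γ => by simp⟩⟩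
  -- the fibres of ρ are finite
  have hfib : ∀ b : B, {a : A | ρ a = b}.Finite := by
    intro b
    rcases {a : A | ρ a = b}.eq_empty_or_nonempty with h | ⟨a0, ha0⟩
    · rw [h]
      exact Set.finite_empty
    · have h1 : (range fun k : ρ.ker => a0 * (k : A)).Finite := Set.finite_range _
      refine h1.subset ?_
      intro a ha
      refine ⟨⟨a0⁻¹ * a, ?_⟩, ?_⟩
      · rw [MonoidHom.mem_ker, map_mul, map_inv, show ρ a0 = b from ha0, show ρ a = b from ha,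
          inv_mul_cancel]
      · exact mul_inv_cancel_left a0 a
  have hfin : {f : Γ → A | ∀ γ : Γ, f γ ∈ {a : A | ρ a = ψ γ}}.Finite :=
    Set.Finite.pi' fun γ => hfib (ψ γ)
  refine Set.Finite.of_injOn (f := fun (φ : Γ →* A) (γ : Γ) => φ γ)
    (t := {f : Γ → A | ∀ γ : Γ, f γ ∈ {a : A | ρ a = ψ γ}}) ?_ ?_ hfin
  · intro φ hφ γ
    exact DFunLike.congr_fun hφ γ
  · intro φ _ φ' _ h
    exact MonoidHom.ext fun γ => congrFun h γ

/-- conjugation -/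
def cj {A : Type} [Group A] (Γ : Subgroup A) (a : A) : Γ →* A :=
  (MulAut.conj a⁻¹).toMonoidHom.comp Γ.subtype

theorem cj_apply {A : Type} [Group A] (Γ : Subgroup A) (a : A) (γ : Γ) :
    cj Γ a γ = a⁻¹ * γ * a := by
  show MulAut.conj a⁻¹ (γ : A) = _
  rw [MulAut.conj_apply, inv_inv]

theorem coset_fin {A B : Type} [Group A] [Group B] {ρ : A →* B} {Γ : Subgroup A} [Finite Γ]
    (hl : LiftFin ρ Γ) {F : Set B} (hF : F.Finite) {X : Set A}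
    (hX : ∀ a ∈ X, ∀ γ ∈ Γ, ρ (a⁻¹ * γ * a) ∈ F) :
    ∃ R : Set A, R.Finite ∧ R ⊆ X ∧ ∀ a ∈ X, ∃ z ∈ Subgroup.centralizer (Γ : Set A),
      ∃ r ∈ R, ρ a = ρ z * ρ r := by
  classical
  -- the finite set of homomorphisms
  set Ψ : Set (Γ →* B) := (fun a => ρ.comp (cj Γ a)) '' X with hΨ
  have hΨf : Ψ.Finite := by
    have hfin : {f : Γ → B | ∀ γ : Γ, f γ ∈ F}.Finite := Set.Finite.pi' fun _ => hF
    refine Set.Finite.of_injOn (f := fun (φ : Γ →* B) (γ : Γ) => φ γ)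
      (t := {f : Γ → B | ∀ γ : Γ, f γ ∈ F}) ?_ ?_ hfin
    · rintro _ ⟨a, ha, rfl⟩ γ
      show ρ (cj Γ a γ) ∈ F
      rw [cj_apply]
      exact hX a ha γ γ.2
    · intro φ _ φ' _ h
      exact MonoidHom.ext fun γ => congrFun h γ
  choose T hTf hT using hl
  set TT : Set (Γ →* A) := ⋃ ψ ∈ Ψ, T ψ with hTT
  have hTTf : TT.Finite := hΨf.biUnion fun ψ _ => hTf ψ
  -- the good ones
  set P : (Γ →* A) → A → Prop := fun τ a => a ∈ X ∧ ∃ k ∈ ρ.ker, ∀ γ, cj Γ a γ = k⁻¹ * τ γ * k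
    with hP
  set T0 : Set (Γ →* A) := {τ | τ ∈ TT ∧ ∃ a, P τ a} with hT0
  have hT0f : T0.Finite := hTTf.subset fun τ h => h.1
  have : Finite T0 := hT0f
  choose f hf using fun τ : T0 => τ.2.2
  refine ⟨range f, Set.finite_range f, ?_, ?_⟩
  · rintro _ ⟨τ, rfl⟩
    exact (hf τ).1
  · intro a ha
    obtain ⟨τ, hτ, k, hk, hk2⟩ := hT (ρ.comp (cj Γ a)) (cj Γ a) rfl
    have hτT : τ ∈ TT := by
      rw [hTT, Set.mem_iUnion₂]
      exact ⟨_, ⟨a, ha, rfl⟩, hτ⟩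
    have hτ0 : τ ∈ T0 := ⟨hτT, a, ha, k, hk, hk2⟩
    set r : A := f ⟨τ, hτ0⟩ with hr
    obtain ⟨-, k', hk', hk'2⟩ := hf ⟨τ, hτ0⟩
    rw [← hr] at hk'2
    simp only [cj_apply] at hk2 hk'2
    refine ⟨a * k⁻¹ * k' * r⁻¹, ?_, r, ⟨⟨τ, hτ0⟩, rfl⟩, ?_⟩
    · rw [Subgroup.mem_centralizer_iff]
      intro γ hγ
      have h1 := hk2 ⟨γ, hγ⟩
      have h2 := hk'2 ⟨γ, hγ⟩
      simp only at h1 h2
      -- τ γ in two ways
      have h3 : τ ⟨γ, hγ⟩ = k * (a⁻¹ * γ * a) * k⁻¹ := by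
        rw [h1]
        group
      have h4 : τ ⟨γ, hγ⟩ = k' * (r⁻¹ * γ * r) * k'⁻¹ := by
        rw [h2]
        group
      have h5 : k * (a⁻¹ * γ * a) * k⁻¹ = k' * (r⁻¹ * γ * r) * k'⁻¹ := h3.symm.trans h4
      calc γ * (a * k⁻¹ * k' * r⁻¹) = a * k⁻¹ * (k * (a⁻¹ * γ * a) * k⁻¹) * k' * r⁻¹ := by group
        _ = a * k⁻¹ * (k' * (r⁻¹ * γ * r) * k'⁻¹) * k' * r⁻¹ := by rw [h5]
        _ = a * k⁻¹ * k' * r⁻¹ * γ := by group
    · rw [MonoidHom.mem_ker] at hk hk'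
      rw [map_mul, map_mul, map_mul, map_inv, map_inv, hk, hk']
      group

end Pool.Agent.H32.Cone
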