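import Pool.Agent.H32.Cone.Lat

/-!
# The cone conjecture: an integral positive functional with trivial stabiliser

PROOFS.
exists_pos: `K = closure C ∩ sphere 0 1` is compact. For every `x ∈ K` there is a functional which is nonnegative on
`closure C` and positive at `x`: `-x ∉ closure C` (pointed), so by Hahn-Banach
(`geometric_hahn_banach_closed_point` or `..._point_closed` for the closed convex set `closure C` and the point `-x`;
as `closure C` is a cone, the separating functional is `≥ 0` on it and `< 0` at `-x`). Finitely many of the open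
sets `{η_x > 0}` cover `K`; the sum of the functionals is positive on `K`, hence `Pos`. (If `K` is empty, 0 works.)
pos_open: with `δ` of exists_delta for `ξ0` every `ξ` with `|ξ y - ξ0 y| ≤ (δ / 2) ‖y‖` for all `y` satisfies
`(δ / 2) ‖y‖ ≤ ξ y` on `closure C`; in particular it is positive.
exists_int: take `ξ0` of exists_pos and the basis `b` of lat_basis with dual basis `b.coord i`; for a large natural
number `N` let `ξ = ∑ i, round (N * ξ0 (b i)) • b.coord i`; `|ξ y - N ξ0 y| ≤ ∑ |b.coord i y| ≤ M ‖y‖` (`M` from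
continuity of the coordinates), and this is `≤ N δ ‖y‖ / 2` for `N` large. So `ξ` is `Pos`; it is `Int` as it takes
integer values on the `b i`, hence on their integral span.
exists_gen: let `ξ0` be `Pos` and `Int`, `δ` as in exists_delta, `B` as in exists_span. CLAIM: the set `F` of the `g`
with `Pres g` for which some `ξ` with `|ξ y - ξ0 y| ≤ (δ / 2) ‖y‖` for all `y` satisfies `ξ ∘ g = ξ` is finite:
for `s ∈ B`: `g s ∈ L ∩ closure C`, `(δ / 2) ‖g s‖ ≤ ξ (g s) = ξ s ≤ ξ0 s + (δ / 2) ‖s‖`, so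
`ξ0 (g s)` is bounded by a number independent of `g` (`ξ0 (g s) ≤ ξ (g s) + (δ/2) ‖g s‖ ≤ 2 ξ (g s)`), `g s` lies in
a finite set (fin_lat) and `g` is determined by its values on `B`. For `g ∈ F`, `g ≠ 1`, the set
`{ζ : Fin n → ℤ | (∑ ζ i • b.coord i) ∘ g = ∑ ζ i • b.coord i}` is not everything. MOMENT CURVE: for a natural number
`t` let `ζ_t = ∑ i, t ^ i • b.coord i`; for `g ≠ 1` the set of `t` with `ζ_t ∘ g = ζ_t` is finite (for some `j` the
polynomial `∑ i, X ^ i * (b.coord i (g (b j)) - b.coord i (b j))` is not zero, as `g (b j) ≠ b j` for some `j`).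
So there is `t` with `ζ_t ∘ g ≠ ζ_t` for all `g ∈ F`, `g ≠ 1`. For a given such `g` there is at most one `N : ℕ` with
`(N • ξ0 + ζ_t) ∘ g = N • ξ0 + ζ_t` ... if two numbers `N ≠ N'` satisfy it, subtract: `ξ0 ∘ g = ξ0`, hence
`ζ_t ∘ g = ζ_t`, a contradiction. So all large `N` are good for all `g ∈ F`, `g ≠ 1`, and for `N` large
`ξ = N • ξ0 + ζ_t` satisfies `|ξ y / N - ξ0 y| ≤ (δ/2) ‖y‖`: it is `Pos`, `Int`, and every `g` with `Pres g` and
`ξ ∘ g = ξ` lies in `F` (use `ξ / N`), so `g = 1`.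
-/

set_option autoImplicit false
set_option linter.unusedSectionVars false

open Set Filter Topology Module

namespace Pool.Agent.H32.Cone

variable {V : Type} [NormedAddCommGroup V] [NormedSpace ℝ V] [FiniteDimensional ℝ V]

namespace Datum

theorem gn_bound (ξ : V →ₗ[ℝ] ℝ) : ∃ M : ℝ, 0 ≤ M ∧ ∀ y, |ξ y| ≤ M * ‖y‖ :=
  ⟨‖LinearMap.toContinuousLinearMap ξ‖, norm_nonneg _,
    fun y => (LinearMap.toContinuousLinearMap ξ).le_opNorm y⟩

theorem gn_int {D : Datum V} {n : ℕ} {b : Basis (Fin n) ℝ V}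
    (hb : D.L = Submodule.span ℤ (range b)) {ξ : V →ₗ[ℝ] ℝ}
    (h : ∀ i, ∃ k : ℤ, ξ (b i) = k) : D.Int ξ := by
  intro l hl
  rw [hb] at hl
  induction hl using Submodule.span_induction with
  | mem x hx =>
    obtain ⟨i, rfl⟩ := hx
    exact h i
  | zero => exact ⟨0, by simp⟩
  | add x y _ _ hx hy =>
    obtain ⟨k, hk⟩ := hx
    obtain ⟨k', hk'⟩ := hy
    exact ⟨k + k', by rw [map_add, hk, hk']; push_cast; ring⟩
  | smul a x _ hx =>
    obtain ⟨k, hk⟩ := hx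
    exact ⟨a * k, by rw [map_zsmul, hk]; simp⟩

theorem gn_sep (D : Datum V) {x : V} (hx : x ∈ closure D.C) (hx0 : x ≠ 0) :
    ∃ η : V →ₗ[ℝ] ℝ, (∀ y ∈ closure D.C, 0 ≤ η y) ∧ 0 < η x := by
  have hnx : -x ∉ closure D.C := fun h => hx0 (D.pointed x hx h)
  obtain ⟨f, u, h1, h2⟩ := geometric_hahn_banach_closed_point D.closure_C_convex
    isClosed_closure hnx
  have hu : 0 < u := by
    have := h1 0 D.zero_mem_closure
    rwa [map_zero] at this
  refine ⟨-(f : V →ₗ[ℝ] ℝ), ?_, ?_⟩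
  · intro y hy
    rw [LinearMap.neg_apply, neg_nonneg]
    by_contra hcon
    push Not at hcon
    have h3 : 0 < f y := hcon
    have h4 := h1 _ (D.closure_smul (t := u / f y) (by positivity) hy)
    rw [map_smul, smul_eq_mul, div_mul_cancel₀ _ h3.ne'] at h4
    exact lt_irrefl _ h4
  · rw [LinearMap.neg_apply]
    have h5 : u < -(f x) := by rwa [map_neg] at h2
    exact hu.trans h5

theorem exists_pos (D : Datum V) : ∃ ξ : V →ₗ[ℝ] ℝ, D.Pos ξ := by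
  have hK : IsCompact (closure D.C ∩ Metric.sphere (0 : V) 1) :=
    (isCompact_sphere (0 : V) 1).inter_left isClosed_closure
  have key : ∃ η : V →ₗ[ℝ] ℝ, (∀ y ∈ closure D.C, 0 ≤ η y) ∧
      ∀ y ∈ closure D.C ∩ Metric.sphere (0 : V) 1, y ∈ closure D.C → 0 < η y := by
    refine hK.induction_on (p := fun S => ∃ η : V →ₗ[ℝ] ℝ, (∀ y ∈ closure D.C, 0 ≤ η y) ∧
      ∀ y ∈ S, y ∈ closure D.C → 0 < η y) ?_ ?_ ?_ ?_
    · exact ⟨0, by simp, by simp⟩
    · rintro s t hst ⟨η, h1, h2⟩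
      exact ⟨η, h1, fun y hy => h2 y (hst hy)⟩
    · rintro s t ⟨η, h1, h2⟩ ⟨η', h1', h2'⟩
      refine ⟨η + η', fun y hy => add_nonneg (h1 y hy) (h1' y hy), ?_⟩
      rintro y (hy | hy) hyc
      · exact add_pos_of_pos_of_nonneg (h2 y hy hyc) (h1' y hyc)
      · exact add_pos_of_nonneg_of_pos (h1 y hyc) (h2' y hy hyc)
    · rintro x ⟨hx, hx1⟩
      have hx0 : x ≠ 0 := by
        intro h
        rw [h, mem_sphere_iff_norm, sub_zero, norm_zero] at hx1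
        exact zero_ne_one hx1
      obtain ⟨η, h1, h2⟩ := D.gn_sep hx hx0
      refine ⟨{y | 0 < η y}, ?_, η, h1, fun y hy _ => hy⟩
      apply mem_nhdsWithin_of_mem_nhds
      exact (isOpen_lt continuous_const (lin_cont η)).mem_nhds h2
  obtain ⟨η, h1, h2⟩ := key
  refine ⟨η, fun x hx hx0 => ?_⟩
  have hn : 0 < ‖x‖ := norm_pos_iff.2 hx0
  have h3 : ‖x‖⁻¹ • x ∈ closure D.C := D.closure_smul (by positivity) hx
  have h4 := h2 (‖x‖⁻¹ • x) ⟨h3, by
    rw [mem_sphere_iff_norm, sub_zero, norm_smul, norm_inv, norm_norm,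
      inv_mul_cancel₀ hn.ne']⟩ h3
  rw [map_smul, smul_eq_mul] at h4
  exact (pos_iff_pos_of_mul_pos h4).1 (by positivity)

theorem gn_near {D : Datum V} {ξ0 ξ : V →ₗ[ℝ] ℝ} {δ : ℝ}
    (h : ∀ y ∈ closure D.C, δ * ‖y‖ ≤ ξ0 y) (hn : ∀ y, |ξ y - ξ0 y| ≤ (δ / 2) * ‖y‖) :
    ∀ y ∈ closure D.C, (δ / 2) * ‖y‖ ≤ ξ y := by
  intro y hy
  have h1 := h y hy
  have h2 := abs_le.1 (hn y)
  linarith [h2.1]

theorem gn_pos {D : Datum V} {ξ : V →ₗ[ℝ] ℝ} {δ : ℝ} (hδ : 0 < δ)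
    (h : ∀ y ∈ closure D.C, δ * ‖y‖ ≤ ξ y) : D.Pos ξ := by
  intro y hy hy0
  have h1 := h y hy
  have h2 : 0 < ‖y‖ := norm_pos_iff.2 hy0
  have : 0 < δ * ‖y‖ := by positivity
  linarith

theorem exists_int (D : Datum V) : ∃ ξ : V →ₗ[ℝ] ℝ, D.Pos ξ ∧ D.Int ξ := by
  obtain ⟨ξ0, hξ0⟩ := D.exists_pos
  obtain ⟨δ, hδ, hδ2⟩ := exists_delta hξ0
  obtain ⟨n, b, hb⟩ := D.lat_basis
  have hM : ∀ i, ∃ M : ℝ, 0 ≤ M ∧ ∀ y, |b.coord i y| ≤ M * ‖y‖ := fun i => gn_bound (b.coord i)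
  choose M hM0 hM using hM
  obtain ⟨N, hN⟩ := exists_nat_gt ((∑ i, M i) / (δ / 2))
  have hMs : 0 ≤ ∑ i, M i := Finset.sum_nonneg fun i _ => hM0 i
  have hN0 : (0 : ℝ) < N := lt_of_le_of_lt (by positivity) hN
  rw [div_lt_iff₀ (by positivity)] at hN
  set ξ : V →ₗ[ℝ] ℝ := ∑ i, ((round ((N : ℝ) * ξ0 (b i)) : ℤ) : ℝ) • b.coord i with hξ
  have hdiff : ∀ y, |ξ y - N * ξ0 y| ≤ (∑ i, M i) * ‖y‖ := by
    intro y
    have h1 : ξ0 y = ∑ i, b.coord i y * ξ0 (b i) := by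
      conv_lhs => rw [← b.sum_repr y]
      rw [map_sum]
      refine Finset.sum_congr rfl fun i _ => ?_
      rw [map_smul, smul_eq_mul, Basis.coord_apply]
    have h2 : ξ y - N * ξ0 y = ∑ i, (((round ((N : ℝ) * ξ0 (b i)) : ℤ) : ℝ) - N * ξ0 (b i)) *
        b.coord i y := by
      rw [h1, hξ, LinearMap.sum_apply, Finset.mul_sum, ← Finset.sum_sub_distrib]
      refine Finset.sum_congr rfl fun i _ => ?_
      rw [LinearMap.smul_apply, smul_eq_mul]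
      ring
    rw [h2, Finset.sum_mul]
    refine (Finset.abs_sum_le_sum_abs _ _).trans (Finset.sum_le_sum fun i _ => ?_)
    rw [abs_mul]
    have h3 : |((round ((N : ℝ) * ξ0 (b i)) : ℤ) : ℝ) - N * ξ0 (b i)| ≤ 1 := by
      rw [abs_sub_comm]
      exact (abs_sub_round _).trans (by norm_num)
    calc _ ≤ 1 * |b.coord i y| := mul_le_mul_of_nonneg_right h3 (abs_nonneg _)
      _ = |b.coord i y| := one_mul _
      _ ≤ M i * ‖y‖ := hM i y
  refine ⟨ξ, ?_, ?_⟩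
  · apply gn_pos (δ := N * (δ / 2)) (by positivity)
    intro y hy
    have h1 := hδ2 y hy
    have h2 := (abs_le.1 (hdiff y)).1
    have h3 : (∑ i, M i) * ‖y‖ ≤ N * (δ / 2) * ‖y‖ :=
      mul_le_mul_of_nonneg_right hN.le (norm_nonneg _)
    have h4 : N * (δ * ‖y‖) ≤ N * ξ0 y := mul_le_mul_of_nonneg_left h1 hN0.le
    linarith
  · apply gn_int hb
    intro j
    refine ⟨round ((N : ℝ) * ξ0 (b j)), ?_⟩
    rw [hξ, LinearMap.sum_apply, Finset.sum_eq_single j]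
    · rw [LinearMap.smul_apply, Basis.coord_apply, b.repr_self, Finsupp.single_eq_same, smul_eq_mul,
        mul_one]
    · intro i _ hij
      rw [LinearMap.smul_apply, Basis.coord_apply, b.repr_self,
        Finsupp.single_eq_of_ne hij, smul_zero]
    · intro h
      exact absurd (Finset.mem_univ j) h

/-- automorphisms preserving a functional near `ξ0` -/
def gnF (D : Datum V) (ξ0 : V →ₗ[ℝ] ℝ) (δ : ℝ) : Set (V ≃ₗ[ℝ] V) :=
  {g | D.Pres g ∧ ∃ ξ : V →ₗ[ℝ] ℝ, (∀ y, |ξ y - ξ0 y| ≤ (δ / 2) * ‖y‖) ∧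
    ξ ∘ₗ (g : V →ₗ[ℝ] V) = ξ}

theorem gn_finite {D : Datum V} {ξ0 : V →ₗ[ℝ] ℝ} (hξ0 : D.Pos ξ0) {δ : ℝ}
    (hδ2 : ∀ y ∈ closure D.C, δ * ‖y‖ ≤ ξ0 y) : (D.gnF ξ0 δ).Finite := by
  obtain ⟨B, hB, _, hBs⟩ := D.exists_span
  have hfin : (Set.pi Set.univ (fun s : B => {y | y ∈ closure D.C ∧ y ∈ D.L ∧
      ξ0 y ≤ 2 * ξ0 s.1 + δ * ‖s.1‖})).Finite := by
    apply Set.Finite.pi
    intro s
    exact fin_lat hξ0 _
  refine Set.Finite.of_finite_image (f := fun g : V ≃ₗ[ℝ] V => fun s : B => g s.1)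
    (hfin.subset ?_) ?_
  · rintro _ ⟨g, ⟨hg, ξ, hξ, hξg⟩, rfl⟩
    rw [Set.mem_univ_pi]
    intro s
    obtain ⟨hsL, hsC⟩ := hB s.1 s.2
    have h1 : g s.1 ∈ closure D.C := (hg.cl _).2 (subset_closure hsC)
    have h2 : ξ (g s.1) = ξ s.1 := by
      have := congrArg (fun f : V →ₗ[ℝ] ℝ => f s.1) hξg
      exact this
    refine ⟨h1, (hg.1 _).2 hsL, ?_⟩
    have h3 := gn_near hδ2 hξ _ h1
    have h4 := (abs_le.1 (hξ s.1)).2
    have h5 := (abs_le.1 (hξ (g s.1))).1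
    linarith
  · intro g _ g' _ h
    apply LinearEquiv.toLinearMap_injective
    apply LinearMap.ext_on (s := (B : Set V)) hBs
    intro s hs
    exact congrFun h ⟨s, hs⟩

/-- the moment curve -/
noncomputable def gnZ {n : ℕ} (b : Basis (Fin n) ℝ V) (t : ℕ) : V →ₗ[ℝ] ℝ :=
  ∑ i : Fin n, ((t : ℝ) ^ (i : ℕ)) • b.coord i

theorem gnZ_apply {n : ℕ} (b : Basis (Fin n) ℝ V) (t : ℕ) (y : V) :
    gnZ b t y = ∑ i : Fin n, (t : ℝ) ^ (i : ℕ) * b.coord i y := by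
  unfold gnZ
  rw [LinearMap.sum_apply]
  refine Finset.sum_congr rfl fun i _ => ?_
  rw [LinearMap.smul_apply, smul_eq_mul]

theorem gnZ_int {D : Datum V} {n : ℕ} {b : Basis (Fin n) ℝ V}
    (hb : D.L = Submodule.span ℤ (range b)) (t : ℕ) : D.Int (gnZ b t) := by
  apply gn_int hb
  intro j
  refine ⟨(t : ℤ) ^ (j : ℕ), ?_⟩
  rw [gnZ_apply, Finset.sum_eq_single j]
  · rw [Basis.coord_apply, b.repr_self, Finsupp.single_eq_same, mul_one]
    push_cast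
    rfl
  · intro i _ hij
    rw [Basis.coord_apply, b.repr_self, Finsupp.single_eq_of_ne hij, mul_zero]
  · intro h
    exact absurd (Finset.mem_univ j) h

theorem gnZ_finite {n : ℕ} (b : Basis (Fin n) ℝ V) {g : V ≃ₗ[ℝ] V} (hg : g ≠ 1) :
    {t : ℕ | gnZ b t ∘ₗ (g : V →ₗ[ℝ] V) = gnZ b t}.Finite := by
  obtain ⟨j, hj⟩ : ∃ j, g (b j) ≠ b j := by
    by_contra hcon
    push Not at hcon
    apply hg
    apply LinearEquiv.toLinearMap_injective
    apply b.ext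
    intro j
    exact hcon j
  obtain ⟨i, hi⟩ : ∃ i, b.coord i (g (b j)) ≠ b.coord i (b j) := by
    by_contra hcon
    push Not at hcon
    apply hj
    apply b.ext_elem
    intro i
    exact hcon i
  set p : Polynomial ℝ := ∑ i : Fin n, Polynomial.monomial (i : ℕ)
    (b.coord i (g (b j)) - b.coord i (b j)) with hp
  have hp0 : p ≠ 0 := by
    intro h
    have h1 : p.coeff (i : ℕ) = b.coord i (g (b j)) - b.coord i (b j) := by
      rw [hp, Polynomial.finsetSum_coeff, Finset.sum_eq_single i]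
      · rw [Polynomial.coeff_monomial, if_pos rfl]
      · intro i' _ hi'
        rw [Polynomial.coeff_monomial, if_neg]
        intro h
        exact hi' (Fin.ext h)
      · intro h
        exact absurd (Finset.mem_univ i) h
    rw [h, Polynomial.coeff_zero] at h1
    exact hi (sub_eq_zero.1 h1.symm)
  have hfin : {x : ℝ | p.IsRoot x}.Finite := Polynomial.finite_setOfPred_isRoot hp0
  refine Set.Finite.of_finite_image (f := fun t : ℕ => (t : ℝ)) (hfin.subset ?_) ?_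
  · rintro _ ⟨t, ht, rfl⟩
    have h1 : gnZ b t (g (b j)) = gnZ b t (b j) := by
      have := congrArg (fun f : V →ₗ[ℝ] ℝ => f (b j)) ht
      exact this
    rw [gnZ_apply, gnZ_apply, ← sub_eq_zero, ← Finset.sum_sub_distrib] at h1
    show p.IsRoot (t : ℝ)
    rw [Polynomial.IsRoot, hp, Polynomial.eval_finsetSum]
    rw [← h1]
    refine Finset.sum_congr rfl fun i _ => ?_
    rw [Polynomial.eval_monomial]
    ring
  · intro t _ t' _ h
    exact Nat.cast_injective h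

theorem exists_gen (D : Datum V) : ∃ ξ : V →ₗ[ℝ] ℝ, D.Pos ξ ∧ D.Int ξ ∧
    ∀ g : V ≃ₗ[ℝ] V, D.Pres g → ξ ∘ₗ (g : V →ₗ[ℝ] V) = ξ → g = 1 := by
  obtain ⟨ξ0, hξ0, hξ0i⟩ := D.exists_int
  obtain ⟨δ, hδ, hδ2⟩ := exists_delta hξ0
  obtain ⟨n, b, hb⟩ := D.lat_basis
  have hF := gn_finite hξ0 hδ2
  have hbad : (⋃ g ∈ D.gnF ξ0 δ \ {1}, {t : ℕ | gnZ b t ∘ₗ (g : V →ₗ[ℝ] V) = gnZ b t}).Finite :=
    (hF.sdiff).biUnion fun g hg => gnZ_finite b hg.2
  obtain ⟨t, ht⟩ := hbad.exists_notMem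
  have ht' : ∀ g ∈ D.gnF ξ0 δ, g ≠ 1 → gnZ b t ∘ₗ (g : V →ₗ[ℝ] V) ≠ gnZ b t := by
    intro g hg hg1 h
    apply ht
    rw [Set.mem_iUnion₂]
    exact ⟨g, ⟨hg, hg1⟩, h⟩
  have hbad2 : (⋃ g ∈ D.gnF ξ0 δ \ {1}, {N : ℕ | ((N : ℝ) • ξ0 + gnZ b t) ∘ₗ
      (g : V →ₗ[ℝ] V) = (N : ℝ) • ξ0 + gnZ b t}).Finite := by
    refine (hF.sdiff).biUnion fun g hg => ?_
    apply Set.Subsingleton.finite
    intro N hN N' hN'
    by_contra hne
    have hsub : ((N : ℝ) - N') ≠ 0 := by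
      rw [sub_ne_zero]
      exact_mod_cast hne
    apply ht' g hg.1 hg.2
    ext y
    have h1 : (N : ℝ) * ξ0 (g y) + gnZ b t (g y) = N * ξ0 y + gnZ b t y :=
      congrArg (fun f : V →ₗ[ℝ] ℝ => f y) hN
    have h2 : (N' : ℝ) * ξ0 (g y) + gnZ b t (g y) = N' * ξ0 y + gnZ b t y :=
      congrArg (fun f : V →ₗ[ℝ] ℝ => f y) hN'
    have h3 : ((N : ℝ) - N') * (ξ0 (g y) - ξ0 y) = 0 := by linear_combination h1 - h2
    rcases mul_eq_zero.1 h3 with h4 | h4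
    · exact absurd h4 hsub
    · show gnZ b t (g y) = gnZ b t y
      linear_combination h1 - (N : ℝ) * h4
  obtain ⟨M, hM0, hM⟩ := gn_bound (gnZ b t)
  obtain ⟨N0, hN0⟩ := exists_nat_gt (M / (δ / 2))
  obtain ⟨N, hNge, hNbad⟩ : ∃ N : ℕ, N0 ≤ N ∧ N ∉ (⋃ g ∈ D.gnF ξ0 δ \ {1},
      {N : ℕ | ((N : ℝ) • ξ0 + gnZ b t) ∘ₗ (g : V →ₗ[ℝ] V) = (N : ℝ) • ξ0 + gnZ b t}) := by
    have h1 := (hbad2.union (Set.finite_lt_nat N0)).exists_notMem
    obtain ⟨N, hN⟩ := h1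
    rw [Set.mem_union, not_or] at hN
    exact ⟨N, not_lt.1 hN.2, hN.1⟩
  have hNM : M / (δ / 2) < N := hN0.trans_le (by exact_mod_cast hNge)
  have hNpos : (0 : ℝ) < N := lt_of_le_of_lt (by positivity) hNM
  rw [div_lt_iff₀ (by positivity)] at hNM
  have hnear : ∀ y, |((N : ℝ)⁻¹ • ((N : ℝ) • ξ0 + gnZ b t)) y - ξ0 y| ≤ (δ / 2) * ‖y‖ := by
    intro y
    have h1 : ((N : ℝ)⁻¹ • ((N : ℝ) • ξ0 + gnZ b t)) y - ξ0 y = (N : ℝ)⁻¹ * gnZ b t y := by
      rw [LinearMap.smul_apply, LinearMap.add_apply, LinearMap.smul_apply, smul_eq_mul,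
        smul_eq_mul]
      field_simp
      ring
    rw [h1, abs_mul, abs_of_pos (inv_pos.2 hNpos), inv_mul_le_iff₀ hNpos]
    have h2 : M * ‖y‖ ≤ N * (δ / 2) * ‖y‖ := mul_le_mul_of_nonneg_right hNM.le (norm_nonneg _)
    calc |gnZ b t y| ≤ M * ‖y‖ := hM y
      _ ≤ N * (δ / 2) * ‖y‖ := h2
      _ = N * (δ / 2 * ‖y‖) := by ring
  refine ⟨(N : ℝ) • ξ0 + gnZ b t, ?_, ?_, ?_⟩
  · have h1 := gn_near hδ2 hnear
    apply gn_pos (δ := N * (δ / 2)) (by positivity)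
    intro y hy
    have h2 := h1 y hy
    rw [LinearMap.smul_apply, smul_eq_mul, le_inv_mul_iff₀ hNpos] at h2
    linarith
  · intro l hl
    obtain ⟨k, hk⟩ := hξ0i l hl
    obtain ⟨k', hk'⟩ := gnZ_int hb t l hl
    refine ⟨N * k + k', ?_⟩
    rw [LinearMap.add_apply, LinearMap.smul_apply, hk, hk', smul_eq_mul]
    push_cast
    ring
  · intro g hg hgξ
    by_contra hg1
    have hgF : g ∈ D.gnF ξ0 δ := by
      refine ⟨hg, (N : ℝ)⁻¹ • ((N : ℝ) • ξ0 + gnZ b t), hnear, ?_⟩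
      rw [LinearMap.smul_comp, hgξ]
    apply hNbad
    rw [Set.mem_iUnion₂]
    exact ⟨g, ⟨hgF, hg1⟩, hgξ⟩

end Datum

end Pool.Agent.H32.Cone
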