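import Pool.Agent.H32.Cone.Sieg
import Pool.Agent.H32.Cone.Gen

/-!
# The cone conjecture: covering the rational closure
-/

set_option autoImplicit false
set_option linter.unusedSectionVars false

open Set Filter Topology

namespace Pool.Agent.H32.Cone

variable {V : Type} [NormedAddCommGroup V] [NormedSpace ℝ V] [FiniteDimensional ℝ V]

namespace Datum

theorem pcone_closed (D : Datum V) {S : Finset V} (hS : ∀ s ∈ S, s ∈ closure D.C) :
    IsClosed (pcone S) := by
  classical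
  obtain ⟨ξ, hξ⟩ := D.exists_pos
  -- coefficients bounded by R
  set K : ℝ → Set V := fun R => (fun a : S → ℝ => ∑ s : S, a s • (s : V)) ''
    (Set.pi univ fun _ => Icc (0 : ℝ) R) with hK
  have hKc : ∀ R, IsClosed (K R) := by
    intro R
    refine IsCompact.isClosed ?_
    refine (isCompact_univ_pi fun _ => isCompact_Icc).image ?_
    exact continuous_finsetSum _ fun s _ => (continuous_apply s).smul continuous_const
  have hKS : ∀ R, K R ⊆ pcone S := by
    rintro R _ ⟨a, ha, rfl⟩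
    refine pcone_sum _ _ fun s _ => ?_
    exact pcone_smul (ha s (mem_univ s)).1 (pcone_mem s.2)
  -- a uniform bound for the coefficients
  obtain ⟨m, hm, hmS⟩ : ∃ m : ℝ, 0 < m ∧ ∀ s ∈ S, s ≠ 0 → m ≤ ξ s := by
    rcases (S.filter (· ≠ 0)).eq_empty_or_nonempty with h | h
    · refine ⟨1, one_pos, fun s hs h0 => ?_⟩
      have : s ∈ S.filter (· ≠ 0) := Finset.mem_filter.2 ⟨hs, h0⟩
      rw [h] at this
      exact absurd this (Finset.notMem_empty s)
    · obtain ⟨z, hz, hmin⟩ := Finset.exists_min_image (S.filter (· ≠ 0)) (fun s => ξ s) h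
      rw [Finset.mem_filter] at hz
      exact ⟨ξ z, hξ z (hS z hz.1) hz.2,
        fun s hs h0 => hmin s (Finset.mem_filter.2 ⟨hs, h0⟩)⟩
  have hbd : ∀ r : ℝ, 0 ≤ r → ∀ x ∈ pcone S, ξ x ≤ r → x ∈ K (r / m) := by
    rintro r hr _ ⟨a, ha, rfl⟩ hle
    refine ⟨fun s => if (s : V) = 0 then 0 else a s, ?_, ?_⟩
    · intro s _
      simp only
      split_ifs with h0
      · exact ⟨le_rfl, by positivity⟩
      · refine ⟨ha s s.2, ?_⟩
        rw [le_div_iff₀ hm]
        have h1 : a s * ξ s ≤ ξ (∑ s ∈ S, a s • s) := by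
          rw [map_sum]
          simp only [map_smul, smul_eq_mul]
          refine Finset.single_le_sum (f := fun s => a s * ξ s) (fun t ht => ?_) s.2
          exact mul_nonneg (ha t ht) (hξ.nn.cl (hS t ht))
        calc a s * m ≤ a s * ξ s := mul_le_mul_of_nonneg_left (hmS s s.2 h0) (ha s s.2)
          _ ≤ r := h1.trans hle
    · simp only
      rw [← Finset.sum_coe_sort S (fun s => a s • s)]
      refine Finset.sum_congr rfl fun s _ => ?_
      split_ifs with h0
      · rw [h0, smul_zero, smul_zero]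
      · rfl
  refine isClosed_of_closure_subset fun x hx => ?_
  set r : ℝ := |ξ x| + 1 with hr
  have hr0 : 0 ≤ r := by positivity
  have hopen : IsOpen {y : V | ξ y < r} := isOpen_lt (lin_cont ξ) continuous_const
  have hxr : x ∈ {y : V | ξ y < r} := by
    show ξ x < |ξ x| + 1
    linarith [le_abs_self (ξ x)]
  have hx2 : x ∈ closure (pcone S ∩ {y : V | ξ y < r}) := by
    rw [Set.inter_comm]
    exact hopen.inter_closure ⟨hxr, hx⟩
  have hx3 : x ∈ K (r / m) := by
    have h1 : pcone S ∩ {y : V | ξ y < r} ⊆ K (r / m) := fun y hy => hbd r hr0 y hy.1 hy.2.le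
    exact closure_minimal h1 (hKc _) hx2
  exact hKS _ hx3

theorem cover_plus {D : Datum V} {G : Subgroup (V ≃ₗ[ℝ] V)} (hG : ∀ g ∈ G, D.Pres g)
    {S : Finset V} (hS : ∀ s ∈ S, s ∈ D.L ∧ s ∈ closure D.C)
    (hcov : ∀ x ∈ D.C, ∃ g ∈ G, ∃ y ∈ pcone S, g y = x) :
    ∀ x ∈ D.Plus, ∃ g ∈ G, ∃ y ∈ pcone S, g y = x := by
  classical
  rintro x ⟨T, hT, hx⟩
  obtain ⟨B, hB, ⟨c, hcB⟩, -⟩ := D.exists_span
  obtain ⟨hcL, hcC⟩ := hB c hcB
  obtain ⟨ξ, hξ, hξ2⟩ := D.exists_int
  have hT' : ∀ t ∈ insert c T, t ∈ D.L ∧ t ∈ closure D.C := by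
    intro t ht
    rcases Finset.mem_insert.1 ht with h | h
    · rw [h]
      exact ⟨hcL, subset_closure hcC⟩
    · exact hT t h
  have hF := siegel hG hξ hξ2 hS hT'
  set F := {g | g ∈ G ∧ ∃ y ∈ pcone S, g y ∈ pcone (insert c T) ∧ g y ∈ D.C} with hFdef
  have hcl : IsClosed (⋃ g ∈ F, pcone (S.image (g : V →ₗ[ℝ] V))) := by
    refine hF.isClosed_biUnion fun g hg => ?_
    refine D.pcone_closed fun s hs => ?_
    obtain ⟨t, ht, rfl⟩ := Finset.mem_image.1 hs
    exact ((hG g hg.1).cl t).2 (hS t ht).2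
  have hxT : x ∈ closure D.C := D.pcone_closure (fun t ht => (hT t ht).2) hx
  have hmem : ∀ n : ℕ, x + (1 / ((n : ℝ) + 1)) • c ∈
      ⋃ g ∈ F, pcone (S.image (g : V →ₗ[ℝ] V)) := by
    intro n
    have hpos : (0 : ℝ) < 1 / ((n : ℝ) + 1) := by positivity
    have h1 : x + (1 / ((n : ℝ) + 1)) • c ∈ D.C := by
      rw [add_comm]
      exact D.add_closure (D.smul_C _ hpos c hcC) hxT
    have h2 : x + (1 / ((n : ℝ) + 1)) • c ∈ pcone (insert c T) :=
      pcone_add (pcone_mono (Finset.subset_insert _ _) hx)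
        (pcone_smul hpos.le (pcone_mem (Finset.mem_insert_self _ _)))
    obtain ⟨g, hg, y, hy, hgy⟩ := hcov _ h1
    rw [Set.mem_iUnion₂]
    refine ⟨g, ⟨hg, y, hy, ?_, ?_⟩, ?_⟩
    · rw [hgy]
      exact h2
    · rw [hgy]
      exact h1
    · rw [← pcone_image]
      exact ⟨y, hy, hgy⟩
  have hlim : Tendsto (fun n : ℕ => x + (1 / ((n : ℝ) + 1)) • c) atTop (𝓝 x) := by
    have h1 := (tendsto_one_div_add_atTop_nhds_zero_nat (𝕜 := ℝ)).smul_const c
    rw [zero_smul] at h1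
    have h2 := h1.const_add x
    rwa [add_zero] at h2
  have hxm := hcl.mem_of_tendsto hlim (Eventually.of_forall hmem)
  rw [Set.mem_iUnion₂] at hxm
  obtain ⟨g, hg, hxg⟩ := hxm
  rw [← pcone_image] at hxg
  obtain ⟨y, hy, hgy⟩ := hxg
  exact ⟨g, hg.1, y, hy, hgy⟩

end Datum

end Pool.Agent.H32.Cone
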