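import Mathlib

/-!
# The cone conjecture: definitions

`V` is the real vector space `N^1(Y)`, `L` the lattice of integral classes, `C` the ample cone, `E` the
cone of effective classes.
-/

set_option autoImplicit false

open Set

namespace Pool.Agent.H32.Cone

/-- the convex cone spanned by a finite set of vectors -/
def pcone {V : Type} [AddCommGroup V] [Module ℝ V] (S : Finset V) : Set V :=
  {x | ∃ c : V → ℝ, (∀ s ∈ S, 0 ≤ c s) ∧ x = ∑ s ∈ S, c s • s}

/-- A lattice `L` in the finite dimensional real vector space `V` (a discrete subgroup spanning `V`), a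
nonempty open convex cone `C` whose closure contains no line, and a set `E` containing `C`. -/
structure Datum (V : Type) [NormedAddCommGroup V] [NormedSpace ℝ V] where
  L : Submodule ℤ V
  C : Set V
  E : Set V
  discrete : DiscreteTopology L
  span_top : Submodule.span ℝ (L : Set V) = ⊤
  open_C : IsOpen C
  nonempty_C : C.Nonempty
  add_C : ∀ x ∈ C, ∀ y ∈ C, x + y ∈ C
  smul_C : ∀ t : ℝ, 0 < t → ∀ x ∈ C, t • x ∈ C
  pointed : ∀ x, x ∈ closure C → -x ∈ closure C → x = 0
  C_sub_E : C ⊆ E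

section

variable {V : Type} [NormedAddCommGroup V] [NormedSpace ℝ V]

/-- a linear automorphism of `V` preserving the lattice and the cone `C` -/
def Datum.Pres (D : Datum V) (g : V ≃ₗ[ℝ] V) : Prop :=
  (∀ x, g x ∈ D.L ↔ x ∈ D.L) ∧ ∀ x, g x ∈ D.C ↔ x ∈ D.C

/-- all elements of the group preserve the lattice and the cone `C` -/
def Datum.PresG (D : Datum V) (G : Subgroup (V ≃ₗ[ℝ] V)) : Prop := ∀ g ∈ G, D.Pres g

/-- The cone conjecture for `(V, L, C, E)` and the group `G`: there is a rational polyhedral cone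
`Π = pcone S` (`S` a finite set of lattice vectors) with `closure C ∩ E = ⋃ g Π` and
`Int Π ∩ g Int Π = ∅` unless `g = 1`. -/
def Datum.Conj (D : Datum V) (G : Subgroup (V ≃ₗ[ℝ] V)) : Prop :=
  ∃ S : Finset V, (∀ s ∈ S, s ∈ D.L) ∧
    closure D.C ∩ D.E = ⋃ g ∈ G, (fun x => g x) '' pcone S ∧
    ∀ g ∈ G, (interior (pcone S) ∩ (fun x => g x) '' interior (pcone S)).Nonempty → g = 1

/-- the subspace of vectors fixed by the group `Γ` acting through `ρ` -/
def fixed {A : Type} [Group A] (ρ : A →* (V ≃ₗ[ℝ] V)) (Γ : Subgroup A) : Submodule ℝ V where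
  carrier := {x | ∀ a ∈ Γ, ρ a x = x}
  add_mem' := fun hx hy a ha => by rw [map_add, hx a ha, hy a ha]
  zero_mem' := fun a _ => map_zero _
  smul_mem' := fun c x hx a ha => by rw [map_smul, hx a ha]

/-- `D'` is the datum `(W, L ∩ W, C ∩ W, E ∩ W)` -/
def Datum.Restr (D : Datum V) {W : Submodule ℝ V} (D' : Datum W) : Prop :=
  ∀ x : W, (x ∈ D'.L ↔ (x : V) ∈ D.L) ∧ (x ∈ D'.C ↔ (x : V) ∈ D.C) ∧ (x ∈ D'.E ↔ (x : V) ∈ D.E)

/-- the data `D` and `D'` have the same cones and commensurable lattices -/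
def Datum.Comm (D D' : Datum V) : Prop :=
  D.C = D'.C ∧ D.E = D'.E ∧ ∃ m : ℕ, 0 < m ∧ ∀ x, (x ∈ D.L → m • x ∈ D'.L) ∧ (x ∈ D'.L → m • x ∈ D.L)

/-- the convex hull of the rational points of the closure of `C` -/
def Datum.Plus (D : Datum V) : Set V :=
  {x | ∃ T : Finset V, (∀ t ∈ T, t ∈ D.L ∧ t ∈ closure D.C) ∧ x ∈ pcone T}

/-- functionals which are integral on the lattice -/
def Datum.Int (D : Datum V) (η : V →ₗ[ℝ] ℝ) : Prop := ∀ l ∈ D.L, ∃ n : ℤ, η l = n

/-- functionals which are not negative on `C` -/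
def Datum.NN (D : Datum V) (η : V →ₗ[ℝ] ℝ) : Prop := ∀ x ∈ D.C, 0 ≤ η x

/-- functionals which are positive on the closure of `C` (without the origin) -/
def Datum.Pos (D : Datum V) (η : V →ₗ[ℝ] ℝ) : Prop := ∀ x ∈ closure D.C, x ≠ 0 → 0 < η x

end

/-- `D'` is the product of the data `D i` -/
def IsProd {ι : Type} [Fintype ι] {V : ι → Type} [∀ i, NormedAddCommGroup (V i)]
    [∀ i, NormedSpace ℝ (V i)] (D : ∀ i, Datum (V i)) (D' : Datum (∀ i, V i)) : Prop :=
  ∀ x : ∀ i, V i, (x ∈ D'.L ↔ ∀ i, x i ∈ (D i).L) ∧ (x ∈ D'.C ↔ ∀ i, x i ∈ (D i).C) ∧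
    (x ∈ D'.E ↔ ∀ i, x i ∈ (D i).E)

/-- the subgroup `G` is contained in finitely many cosets `H r`: a subgroup of finite index of `G` is
contained in `H` -/
def FinCov {B : Type} [Group B] (G H : Subgroup B) : Prop :=
  ∃ R : Set B, R.Finite ∧ ∀ g ∈ G, ∃ h ∈ H, ∃ r ∈ R, g = h * r

/-- the product group -/
def prodGrp {ι : Type} {V : ι → Type} [∀ i, NormedAddCommGroup (V i)]
    [∀ i, NormedSpace ℝ (V i)] (G : ∀ i, Subgroup (V i ≃ₗ[ℝ] V i)) : Subgroup ((∀ i, V i) ≃ₗ[ℝ] (∀ i, V i)) where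
  carrier := {h | ∃ g : ∀ i, V i ≃ₗ[ℝ] V i, (∀ i, g i ∈ G i) ∧ ∀ x i, h x i = g i (x i)}
  mul_mem' := by
    rintro a b ⟨g, hg, hg2⟩ ⟨k, hk, hk2⟩
    refine ⟨fun i => g i * k i, fun i => (G i).mul_mem (hg i) (hk i), fun x i => ?_⟩
    show a (b x) i = g i (k i (x i))
    rw [hg2, hk2]
  one_mem' := ⟨fun _ => 1, fun i => (G i).one_mem, fun _ _ => rfl⟩
  inv_mem' := by
    rintro a ⟨g, hg, hg2⟩
    refine ⟨fun i => (g i)⁻¹, fun i => (G i).inv_mem (hg i), fun x i => ?_⟩
    have h1 := hg2 (a.symm x) i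
    rw [LinearEquiv.apply_symm_apply] at h1
    show a.symm x i = (g i).symm (x i)
    rw [h1, LinearEquiv.symm_apply_apply]

/-- the group of restrictions of the centraliser -/
def centGrp {W : Type} [NormedAddCommGroup W] [NormedSpace ℝ W] {A : Type} [Group A] (ρ : A →* (W ≃ₗ[ℝ] W)) (Γ : Subgroup A) :
    Subgroup (fixed ρ Γ ≃ₗ[ℝ] fixed ρ Γ) where
  carrier := {h | ∃ z ∈ Subgroup.centralizer (Γ : Set A), ∀ x, (h x : W) = ρ z x}
  mul_mem' := by
    rintro a b ⟨z, hz, hz2⟩ ⟨w, hw, hw2⟩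
    refine ⟨z * w, (Subgroup.centralizer _).mul_mem hz hw, fun x => ?_⟩
    show ((a (b x) : fixed ρ Γ) : W) = _
    rw [hz2, hw2, map_mul]
    rfl
  one_mem' := ⟨1, (Subgroup.centralizer _).one_mem, fun x => by
    rw [map_one]
    rfl⟩
  inv_mem' := by
    rintro a ⟨z, hz, hz2⟩
    refine ⟨z⁻¹, (Subgroup.centralizer _).inv_mem hz, fun x => ?_⟩
    have h1 := hz2 (a.symm x)
    rw [LinearEquiv.apply_symm_apply] at h1
    show ((a.symm x : fixed ρ Γ) : W) = _
    rw [map_inv, h1]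
    exact ((ρ z).symm_apply_apply _).symm

/-- for every homomorphism `ψ` on `Γ` the lifts of `ψ` through `ρ` form finitely many classes under
conjugation by the kernel of `ρ` -/
def LiftFin {A B : Type} [Group A] [Group B] (ρ : A →* B) (Γ : Subgroup A) : Prop :=
  ∀ ψ : Γ →* B, ∃ T : Set (Γ →* A), T.Finite ∧ ∀ φ : Γ →* A, ρ.comp φ = ψ →
    ∃ τ ∈ T, ∃ k ∈ ρ.ker, ∀ γ, φ γ = k⁻¹ * τ γ * k

/-- the subgroup `K` contains a commutative normal subgroup `T` of finite index which is divisible and has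
finitely many elements of order dividing `n` for every `n` (`K` the kernel of `Aut(Y) → GL(N^1(Y))`, `T` the
abelian variety `Aut⁰(Y)`) -/
def AbFin {A : Type} [Group A] (K : Subgroup A) : Prop :=
  ∃ T : Subgroup A, T.Normal ∧ T ≤ K ∧ T.relIndex K ≠ 0 ∧ (∀ s ∈ T, ∀ t ∈ T, s * t = t * s) ∧
    ∀ n : ℕ, 0 < n → (∀ t ∈ T, ∃ s ∈ T, s ^ n = t) ∧ {t : A | t ∈ T ∧ t ^ n = 1}.Finite

/-- The vector space `V = N^1(Y)` with the datum `D` (lattice, ample cone, effective cone) and the group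
`A = Aut(Y)` acting on `V` by linear maps which preserve the lattice and the ample cone. -/
structure Sit where
  V : Type
  [grp : NormedAddCommGroup V]
  [spc : NormedSpace ℝ V]
  [fin : FiniteDimensional ℝ V]
  D : Datum V
  A : Type
  [grpA : Group A]
  act : A → V → V
  linear : ∀ a, IsLinearMap ℝ (act a)
  act_one : ∀ x, act 1 x = x
  act_mul : ∀ a b x, act (a * b) x = act a (act b x)
  act_L : ∀ a, ∀ x ∈ D.L, act a x ∈ D.L
  act_C : ∀ a, ∀ x ∈ D.C, act a x ∈ D.C

attribute [instance] Sit.grp Sit.spc Sit.fin Sit.grpA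

namespace Sit

/-- the lattice -/
def Lat (X : Sit) : Set X.V := X.D.L

/-- the vectors whose `m`-fold is in the lattice -/
def Div (X : Sit) (m : ℕ) : Set X.V := {x | m • x ∈ X.D.L}

/-- the ample cone -/
def Amp (X : Sit) : Set X.V := X.D.C

/-- the nef cone -/
def Nef (X : Sit) : Set X.V := closure X.D.C

/-- the effective cone -/
def Eff (X : Sit) : Set X.V := X.D.E

/-- the convex cone spanned by the finite set `S` -/
def Poly (X : Sit) (S : Finset X.V) : Set X.V := pcone S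

/-- the interior of the convex cone spanned by the finite set `S` -/
def IntPoly (X : Sit) (S : Finset X.V) : Set X.V := interior (pcone S)

/-- The cone conjecture Q1: there is a rational polyhedral cone `Π = X.Poly S` with
`Nef ∩ Eff = ⋃ a Π`, and `Int Π ∩ a Int Π` is empty unless `a` acts as the identity. -/
def Q1 (X : Sit) : Prop :=
  ∃ S : Finset X.V, (∀ s ∈ S, s ∈ X.Lat) ∧ X.Nef ∩ X.Eff = ⋃ a : X.A, X.act a '' X.Poly S ∧
    ∀ a : X.A, (X.IntPoly S ∩ X.act a '' X.IntPoly S).Nonempty → ∀ x, X.act a x = x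

/-- the subgroup of the elements which act trivially -/
def ker (X : Sit) : Subgroup X.A where
  carrier := {a | ∀ x, X.act a x = x}
  mul_mem' := fun {a b} ha hb x => by rw [X.act_mul, hb x, ha x]
  one_mem' := X.act_one
  inv_mem' := fun {a} ha x => by
    have h1 := X.act_mul a⁻¹ a x
    rw [inv_mul_cancel, X.act_one, ha x] at h1
    exact h1.symm

/-- the maps `p i` are linear and identify `P.V` with the product of the `(X i).V` -/
def ProdSpace {ι : Type} (X : ι → Sit) (P : Sit) (p : ∀ i, P.V → (X i).V) : Prop :=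
  (∀ i, IsLinearMap ℝ (p i)) ∧ ∀ y : ∀ i, (X i).V, ∃! x, ∀ i, p i x = y i

/-- the ample and the effective cone of `P` are the products of those of the `X i` -/
def ProdCones {ι : Type} (X : ι → Sit) (P : Sit) (p : ∀ i, P.V → (X i).V) : Prop :=
  ∀ x, (x ∈ P.Amp ↔ ∀ i, p i x ∈ (X i).Amp) ∧ (x ∈ P.Eff ↔ ∀ i, p i x ∈ (X i).Eff)

/-- the lattice of `P` is commensurable to the product of the lattices of the `X i` -/
def ProdLattice {ι : Type} (X : ι → Sit) (P : Sit) (p : ∀ i, P.V → (X i).V) : Prop :=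
  ∃ m : ℕ, 0 < m ∧ ∀ x, (x ∈ P.Lat → ∀ i, p i x ∈ (X i).Div m) ∧
    ((∀ i, p i x ∈ (X i).Lat) → x ∈ P.Div m)

/-- every family `a` of elements of the groups of the `X i` acts on `P.V` as `b` composed with `r`, for an
element `b` of the group of `P` and one of finitely many maps `r` (so, up to finite index, the product of
the groups acts through the group of `P`) -/
def ProdGroup {ι : Type} (X : ι → Sit) (P : Sit) (p : ∀ i, P.V → (X i).V) : Prop :=
  ∃ R : Set (P.V → P.V), R.Finite ∧ ∀ a : ∀ i, (X i).A, ∃ b : P.A, ∃ r ∈ R,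
    ∀ x i, p i (P.act b (r x)) = (X i).act (a i) (p i x)

/-- `P` is the product of the `X i` -/
def IsProduct {ι : Type} (X : ι → Sit) (P : Sit) : Prop :=
  ∃ p : ∀ i, P.V → (X i).V,
    ProdSpace X P p ∧ ProdCones X P p ∧ ProdLattice X P p ∧ ProdGroup X P p

/-- the map `j` is linear and identifies `Y.V` with the vectors of `X.V` fixed by `Γ` -/
def QuotSpace (X Y : Sit) (Γ : Subgroup X.A) (j : Y.V → X.V) : Prop :=
  IsLinearMap ℝ j ∧ Function.Injective j ∧ ∀ x, (∀ a ∈ Γ, X.act a x = x) ↔ ∃ y, j y = x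

/-- the ample and the effective cone of `Y` are the intersections with those of `X` -/
def QuotCones (X Y : Sit) (j : Y.V → X.V) : Prop :=
  ∀ y, (y ∈ Y.Amp ↔ j y ∈ X.Amp) ∧ (y ∈ Y.Eff ↔ j y ∈ X.Eff)

/-- the lattice of `Y` is commensurable to the intersection with the lattice of `X` -/
def QuotLattice (X Y : Sit) (j : Y.V → X.V) : Prop :=
  ∃ m : ℕ, 0 < m ∧ ∀ y, (y ∈ Y.Lat → j y ∈ X.Div m) ∧ (j y ∈ X.Lat → y ∈ Y.Div m)

/-- every element `z` of the centraliser of `Γ` acts on `Y.V` as `b` composed with `r`, for an element `b` of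
the group of `Y` and one of finitely many maps `r` -/
def QuotGroup (X Y : Sit) (Γ : Subgroup X.A) (j : Y.V → X.V) : Prop :=
  ∃ R : Set (Y.V → Y.V), R.Finite ∧ ∀ z : X.A, (∀ a ∈ Γ, z * a = a * z) →
    ∃ b : Y.A, ∃ r ∈ R, ∀ y, j (Y.act b (r y)) = X.act z (j y)

/-- `Y` is the quotient of `X` by a finite group `Γ` of automorphisms of `X`, where the automorphisms of `X`
acting trivially on `X.V` form, up to finite index, a group like an abelian variety -/
def IsQuot (X Y : Sit) : Prop :=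
  AbFin X.ker ∧ ∃ (Γ : Subgroup X.A) (j : Y.V → X.V), Finite Γ ∧ QuotSpace X Y Γ j ∧
    QuotCones X Y j ∧ QuotLattice X Y j ∧ QuotGroup X Y Γ j

end Sit

end Pool.Agent.H32.Cone
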