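import Pool.Agent.H32.Cone.Basic

/-!
# The cone conjecture: the fixed part of a finite group

PROOFS. `avg x = ∑ γ : Γ, ρ γ x` is fixed by `Γ` (reindex the sum: `Fintype.sum_equiv (Equiv.mulLeft γ0)`), linear, maps `L`,
`C`, `closure C` to itself (a nonempty finite sum; for `C`: `add_closure` and induction, or: the term of `1` is in `C`, the
others are in `closure C`), and `avg x = card Γ • x` for `x` fixed.
fixed_datum: `L' = D.L.comap (W.subtype.restrictScalars ℤ)` (`ZLattice.comap_discreteTopology`), `C'`, `E'` preimages.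
span_top: `avg` is onto `W` (`x = avg ((card Γ)⁻¹ • x)`), so `W` is the real span of `avg '' L ⊆ L ∩ W`.
nonempty: `avg c`. pointed: the inclusion is continuous, so `x ∈ closure C'` gives `(x : V) ∈ closure C`.
closure_iff: `→` as before. `←`: `x + (1/(n+1)) • c' ∈ C'` with `c' ∈ C'` (`add_closure`), and it tends to `x`.
plus_iff: `→`: image under the inclusion of the finite set. `←`: `x ∈ pcone T` gives `card Γ • x = avg x ∈ pcone (T.image avg)`
(pcone_image for the linear map `avg : V →ₗ W`), then divide by `card Γ`.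
-/

set_option autoImplicit false
set_option linter.unusedSectionVars false

open Set Filter Topology

namespace Pool.Agent.H32.Cone

variable {V : Type} [NormedAddCommGroup V] [NormedSpace ℝ V]

variable [FiniteDimensional ℝ V]

/-- the averaging map onto the fixed part -/
theorem exists_avg {D : Datum V} {A : Type} [Group A] {ρ : A →* (V ≃ₗ[ℝ] V)}
    (hρ : ∀ a, D.Pres (ρ a)) (Γ : Subgroup A) [Finite Γ] :
    ∃ (f : V →ₗ[ℝ] fixed ρ Γ) (n : ℕ), 0 < n ∧ (∀ x : fixed ρ Γ, f x = (n : ℝ) • x) ∧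
      (∀ x ∈ D.L, (f x : V) ∈ D.L) ∧ (∀ x ∈ D.C, (f x : V) ∈ D.C) ∧
      ∀ x ∈ closure D.C, (f x : V) ∈ closure D.C := by
  classical
  have := Fintype.ofFinite Γ
  let g : V →ₗ[ℝ] V := ∑ γ : Γ, (ρ (γ : A) : V →ₗ[ℝ] V)
  have hg : ∀ x, g x = ∑ γ : Γ, ρ (γ : A) x := by
    intro x
    show (∑ γ : Γ, (ρ (γ : A) : V →ₗ[ℝ] V)) x = _
    rw [LinearMap.sum_apply]
    rfl
  have hfix : ∀ x, g x ∈ fixed ρ Γ := by
    intro x a ha
    rw [hg, map_sum]
    have h1 : ∀ γ : Γ, ρ a (ρ (γ : A) x) = ρ (((⟨a, ha⟩ * γ : Γ)) : A) x := by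
      intro γ
      rw [Subgroup.coe_mul, map_mul]
      rfl
    rw [Finset.sum_congr rfl fun γ _ => h1 γ]
    exact Fintype.sum_equiv (Equiv.mulLeft (⟨a, ha⟩ : Γ)) _ _ (fun γ => rfl)
  refine ⟨g.codRestrict _ hfix, Fintype.card Γ, Fintype.card_pos, ?_, ?_, ?_, ?_⟩
  · intro x
    apply Subtype.ext
    show g x = ((Fintype.card Γ : ℝ) • x : fixed ρ Γ)
    rw [hg, Finset.sum_congr rfl fun γ _ => x.2 γ.1 γ.2]
    rw [Finset.sum_const, Finset.card_univ, Submodule.coe_smul, Nat.cast_smul_eq_nsmul]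
  · intro x hx
    show g x ∈ D.L
    rw [hg]
    exact D.L.sum_mem fun γ _ => ((hρ _).1 x).2 hx
  · intro x hx
    show g x ∈ D.C
    rw [hg, ← Finset.add_sum_erase _ _ (Finset.mem_univ (1 : Γ))]
    refine D.add_closure (((hρ _).2 x).2 hx) (D.closure_sum _ _ fun γ _ => ?_)
    exact subset_closure (((hρ _).2 x).2 hx)
  · intro x hx
    show g x ∈ closure D.C
    rw [hg]
    exact D.closure_sum _ _ fun γ _ => ((hρ _).cl x).2 hx

theorem fixed_datum {D : Datum V} {A : Type} [Group A] {ρ : A →* (V ≃ₗ[ℝ] V)}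
    (hρ : ∀ a, D.Pres (ρ a)) (Γ : Subgroup A) [Finite Γ] :
    ∃ D' : Datum (fixed ρ Γ), D.Restr D' := by
  classical
  obtain ⟨f, n, hn, hfn, hfL, hfC, hfcl⟩ := exists_avg hρ Γ
  have hcont : Continuous (fun w : fixed ρ Γ => (w : V)) := continuous_subtype_val
  let L' : Submodule ℤ (fixed ρ Γ) :=
    { carrier := {w | (w : V) ∈ D.L}
      add_mem' := fun {a b} ha hb => D.L.add_mem ha hb
      zero_mem' := D.L.zero_mem
      smul_mem' := fun c w hw => by
        have h1 := D.L.smul_mem c hw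
        show ((c • w : fixed ρ Γ) : V) ∈ D.L
        have h2 : ((c • w : fixed ρ Γ) : V) = c • (w : V) := rfl
        rw [h2]
        exact h1 }
  refine ⟨{ L := L'
            C := {w | (w : V) ∈ D.C}
            E := {w | (w : V) ∈ D.E}
            discrete := ?_
            span_top := ?_
            open_C := D.open_C.preimage hcont
            nonempty_C := ?_
            add_C := fun x hx y hy => D.add_C _ hx _ hy
            smul_C := fun t ht x hx => D.smul_C t ht _ hx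
            pointed := ?_
            C_sub_E := fun x hx => D.C_sub_E hx }, fun x => ⟨Iff.rfl, Iff.rfl, Iff.rfl⟩⟩
  · have := D.discrete
    have hc : Continuous (fun w : L' => (⟨((w : fixed ρ Γ) : V), w.2⟩ : D.L)) :=
      Continuous.subtype_mk (hcont.comp continuous_subtype_val) _
    refine DiscreteTopology.of_continuous_injective hc ?_
    intro a b hab
    have h1 : ((a : fixed ρ Γ) : V) = ((b : fixed ρ Γ) : V) := congrArg (fun z : D.L => (z : V)) hab
    exact Subtype.ext (Subtype.ext h1)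
  · rw [eq_top_iff]
    rintro w -
    have hn0 : (n : ℝ) ≠ 0 := by exact_mod_cast hn.ne'
    have h1 : f ((n : ℝ)⁻¹ • (w : V)) = w := by
      have h2 := hfn w
      rw [map_smul, h2, smul_smul, inv_mul_cancel₀ hn0, one_smul]
    have h2 : (n : ℝ)⁻¹ • (w : V) ∈ Submodule.span ℝ (D.L : Set V) := by
      rw [D.span_top]
      exact Submodule.mem_top
    have h3 : w ∈ (Submodule.span ℝ (D.L : Set V)).map f := ⟨_, h2, h1⟩
    rw [Submodule.map_span] at h3
    refine Submodule.span_mono ?_ h3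
    rintro _ ⟨l, hl, rfl⟩
    exact hfL l hl
  · obtain ⟨c, hc⟩ := D.nonempty_C
    exact ⟨f c, hfC c hc⟩
  · intro x hx hnx
    have key : ∀ y : fixed ρ Γ, y ∈ closure {w : fixed ρ Γ | (w : V) ∈ D.C} → (y : V) ∈ closure D.C :=
      fun y hy => map_mem_closure hcont hy fun a ha => ha
    exact Subtype.ext (D.pointed x (key x hx) (key (-x) hnx))

theorem fixed_closure {D : Datum V} {A : Type} [Group A] {ρ : A →* (V ≃ₗ[ℝ] V)}
    (hρ : ∀ a, D.Pres (ρ a)) (Γ : Subgroup A) [Finite Γ] {D' : Datum (fixed ρ Γ)}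
    (h : D.Restr D') (x : fixed ρ Γ) : x ∈ closure D'.C ↔ (x : V) ∈ closure D.C := by
  have hcont : Continuous (fun w : fixed ρ Γ => (w : V)) := continuous_subtype_val
  constructor
  · intro hx
    exact map_mem_closure hcont hx fun a ha => (h a).2.1.1 ha
  · intro hx
    obtain ⟨c, hc⟩ := D'.nonempty_C
    have hcC : (c : V) ∈ D.C := (h c).2.1.1 hc
    have h1 : Tendsto (fun n : ℕ => x + (1 / ((n : ℝ) + 1)) • c) atTop (𝓝 (x + (0 : ℝ) • c)) :=
      (tendsto_one_div_add_atTop_nhds_zero_nat.smul_const c).const_add x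
    rw [zero_smul, add_zero] at h1
    refine mem_closure_of_tendsto h1 (Eventually.of_forall fun n => ?_)
    rw [(h _).2.1]
    show (x : V) + (1 / ((n : ℝ) + 1)) • (c : V) ∈ D.C
    rw [add_comm]
    exact D.add_closure (D.smul_C _ (by positivity) _ hcC) hx

theorem fixed_plus {D : Datum V} {A : Type} [Group A] {ρ : A →* (V ≃ₗ[ℝ] V)}
    (hρ : ∀ a, D.Pres (ρ a)) (Γ : Subgroup A) [Finite Γ] {D' : Datum (fixed ρ Γ)}
    (h : D.Restr D') (x : fixed ρ Γ) : x ∈ D'.Plus ↔ (x : V) ∈ D.Plus := by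
  classical
  constructor
  · rintro ⟨T, hT, hx⟩
    refine ⟨T.image (fixed ρ Γ).subtype, ?_, ?_⟩
    · intro t ht
      obtain ⟨s, hs, rfl⟩ := Finset.mem_image.1 ht
      exact ⟨(h s).1.1 (hT s hs).1, (fixed_closure hρ Γ h s).1 (hT s hs).2⟩
    · rw [← pcone_image]
      exact ⟨x, hx, rfl⟩
  · rintro ⟨T, hT, hx⟩
    obtain ⟨f, n, hn, hfn, hfL, hfC, hfcl⟩ := exists_avg hρ Γ
    have hn0 : (n : ℝ) ≠ 0 := by exact_mod_cast hn.ne'
    have h1 : x = (n : ℝ)⁻¹ • f x := by
      rw [hfn, smul_smul, inv_mul_cancel₀ hn0, one_smul]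
    refine ⟨T.image f, ?_, ?_⟩
    · intro t ht
      obtain ⟨s, hs, rfl⟩ := Finset.mem_image.1 ht
      exact ⟨(h _).1.2 (hfL s (hT s hs).1), (fixed_closure hρ Γ h _).2 (hfcl s (hT s hs).2)⟩
    · rw [h1]
      refine pcone_smul (by positivity) ?_
      rw [← pcone_image]
      exact ⟨x, hx, rfl⟩

end Pool.Agent.H32.Cone
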