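import Pool.Agent.H32.Cone.Fund
import Pool.Agent.H32.Cone.Fix
import Pool.Agent.H32.Cone.Cosets

/-!
# The cone conjecture: descent

PROOFS. `W = fixed ρ Γ`, `G = ρ.range`.
fixed_ineq: a finite set of `Int` functionals cutting out `W`: with `b` from lat_basis the functionals
`b.coord i ∘ (ρ γ - 1)` and their negatives, `γ ∈ Γ`, `i`. They are `Int` since `ρ γ` preserves `L` and `b.coord i` is an
integer on `L`.
restr_equiv: `ρ z` maps `W` to itself if `z` centralises `Γ` (`ρ γ (ρ z x) = ρ z (ρ γ x) = ρ z x`), and so does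
`ρ z⁻¹`: `LinearEquiv.ofLinear` of the two restrictions (`LinearMap.restrict`).
desc_cover: conj_cover gives `S` and the covering of `C`. Let `F` be the siegel set for `(S, S)` (`ξ` from exists_int).
`X = {a | ∃ y ∈ pcone S, ρ a y ∈ D.C ∧ ρ a y ∈ W}`. For `a ∈ X`, `γ ∈ Γ`: `ρ (a⁻¹ γ a) y = y`, `y ∈ pcone S ∩ C`, so
`ρ (a⁻¹ γ a) ∈ F`. coset_fin gives `R`. For `r ∈ R` let `T_r` be given by fm_many for `S.image (ρ r)` and the
functionals of fixed_ineq: `pcone T_r = pcone (S.image (ρ r)) ∩ W`. The vectors of `T_r` are in `W`, `L`, `closure C`. Let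
`S'` be the finset of `W` of all vectors of the `T_r`, `r ∈ R` (`Finset.subtype` or `Finset.preimage`; prove
`(x : V) ∈ pcone T_r → x ∈ pcone S'`, by writing `x = ∑ c t • t` in `W`, `Subtype.ext`). Covering: `x ∈ C'`: `(x : V) = ρ a y`,
`a ∈ X`, `ρ a = ρ z * ρ r`; `x' = ρ z⁻¹ x = ρ r y` is in `W` and in `pcone (S.image (ρ r))`, so `x' ∈ pcone S'`, and
`x = h x'` with `h` the restriction of `ρ z`.
descent: conj_of_cover for `D'`; `closure C' ∩ E' = Plus'` from fixed_closure, fixed_plus, Restr.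
-/

set_option autoImplicit false
set_option linter.unusedSectionVars false

open Set

namespace Pool.Agent.H32.Cone

variable {V : Type} [NormedAddCommGroup V] [NormedSpace ℝ V] [FiniteDimensional ℝ V]

theorem fixed_ineq {D : Datum V} {A : Type} [Group A] {ρ : A →* (V ≃ₗ[ℝ] V)}
    (hρ : ∀ a, D.Pres (ρ a)) (Γ : Subgroup A) [Finite Γ] :
    ∃ F : Set (V →ₗ[ℝ] ℝ), F.Finite ∧ (∀ f ∈ F, D.Int f) ∧
      ∀ x, (∀ f ∈ F, 0 ≤ f x) ↔ x ∈ fixed ρ Γ := by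
  obtain ⟨n, b, hb⟩ := D.lat_basis
  let f : Γ × Fin n → (V →ₗ[ℝ] ℝ) := fun p =>
    b.coord p.2 ∘ₗ ((ρ (p.1 : A) : V →ₗ[ℝ] V) - LinearMap.id)
  have hfapp : ∀ p x, f p x = b.repr (ρ (p.1 : A) x - x) p.2 := fun p x => rfl
  have hfint : ∀ p, D.Int (f p) := by
    intro p l hl
    have h1 : ρ (p.1 : A) l - l ∈ D.L := D.L.sub_mem (((hρ _).1 l).2 hl) hl
    rw [hb, b.mem_span_iff_repr_mem ℤ] at h1
    obtain ⟨m, hm⟩ := h1 p.2
    refine ⟨m, ?_⟩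
    rw [hfapp, ← hm]
    simp
  refine ⟨range f ∪ range (fun p => -f p), (finite_range _).union (finite_range _), ?_, ?_⟩
  · rintro g (⟨p, rfl⟩ | ⟨p, rfl⟩)
    · exact hfint p
    · intro l hl
      obtain ⟨m, hm⟩ := hfint p l hl
      refine ⟨-m, ?_⟩
      show -(f p l) = _
      rw [hm]
      push_cast
      ring
  · intro x
    constructor
    · intro h a ha
      have h1 : ∀ i, b.repr (ρ a x - x) i = 0 := by
        intro i
        have h2 : 0 ≤ f (⟨a, ha⟩, i) x := h _ (Or.inl ⟨_, rfl⟩)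
        have h3 : 0 ≤ (-f (⟨a, ha⟩, i)) x := h _ (Or.inr ⟨_, rfl⟩)
        have h4 : (-f (⟨a, ha⟩, i)) x = -(f (⟨a, ha⟩, i) x) := rfl
        rw [h4] at h3
        have h5 : f (⟨a, ha⟩, i) x = 0 := by linarith
        rw [← h5, hfapp]
      have h6 : b.repr (ρ a x - x) = 0 := by
        ext i
        exact h1 i
      exact sub_eq_zero.1 (b.repr.map_eq_zero_iff.1 h6)
    · intro h
      have h1 : ∀ p, f p x = 0 := by
        intro p
        rw [hfapp, h _ p.1.2, sub_self, map_zero]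
        rfl
      rintro g (⟨p, rfl⟩ | ⟨p, rfl⟩)
      · rw [h1]
      · show 0 ≤ -(f p x)
        rw [h1, neg_zero]

theorem restr_equiv {A : Type} [Group A] {ρ : A →* (V ≃ₗ[ℝ] V)} {Γ : Subgroup A} {z : A}
    (hz : z ∈ Subgroup.centralizer (Γ : Set A)) :
    ∃ h : fixed ρ Γ ≃ₗ[ℝ] fixed ρ Γ, ∀ x, (h x : V) = ρ z x := by
  have key : ∀ z ∈ Subgroup.centralizer (Γ : Set A), ∀ x ∈ fixed ρ Γ, ρ z x ∈ fixed ρ Γ := by
    intro z hz x hx a ha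
    have h1 : a * z = z * a := Subgroup.mem_centralizer_iff.1 hz a ha
    have h2 : ρ a (ρ z x) = ρ (a * z) x := by
      rw [map_mul]
      rfl
    have h3 : ρ (z * a) x = ρ z (ρ a x) := by
      rw [map_mul]
      rfl
    rw [h2, h1, h3, hx a ha]
  have h1 : ∀ x, ρ z (ρ z⁻¹ x) = x := by
    intro x
    have h2 : ρ z (ρ z⁻¹ x) = ρ (z * z⁻¹) x := by
      rw [map_mul]
      rfl
    rw [h2, mul_inv_cancel, map_one]
    rfl
  have h2 : ∀ x, ρ z⁻¹ (ρ z x) = x := by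
    intro x
    have h2 : ρ z⁻¹ (ρ z x) = ρ (z⁻¹ * z) x := by
      rw [map_mul]
      rfl
    rw [h2, inv_mul_cancel, map_one]
    rfl
  refine ⟨LinearEquiv.ofLinearMap ((ρ z : V →ₗ[ℝ] V).restrict (key z hz))
    ((ρ z⁻¹ : V →ₗ[ℝ] V).restrict (key z⁻¹ (inv_mem hz))) ?_ ?_, fun x => rfl⟩
  · ext x
    exact h1 x
  · ext x
    exact h2 x

theorem pcone_subtype [DecidableEq V] {W : Submodule ℝ V} [DecidablePred (fun x => x ∈ W)]
    {T : Finset V} (hT : ∀ t ∈ T, t ∈ W) {x : W} (hx : (x : V) ∈ pcone T) :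
    x ∈ pcone (T.subtype (fun x => x ∈ W)) := by
  classical
  have h1 : (T.subtype (fun x => x ∈ W)).image W.subtype = T := by
    ext t
    constructor
    · intro h
      obtain ⟨s, hs, rfl⟩ := Finset.mem_image.1 h
      exact Finset.mem_subtype.1 hs
    · intro h
      exact Finset.mem_image.2 ⟨⟨t, hT t h⟩, Finset.mem_subtype.2 h, rfl⟩
  rw [← h1, ← pcone_image] at hx
  obtain ⟨y, hy, hyx⟩ := hx
  have h2 : y = x := Subtype.ext hyx
  rwa [h2] at hy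

theorem desc_cover {D : Datum V} {A : Type} [Group A] {ρ : A →* (V ≃ₗ[ℝ] V)}
    (hρ : ∀ a, D.Pres (ρ a)) {Γ : Subgroup A} [Finite Γ] (hl : LiftFin ρ Γ)
    (hD : D.Conj ρ.range) {D' : Datum (fixed ρ Γ)} (h' : D.Restr D')
    {H : Subgroup (fixed ρ Γ ≃ₗ[ℝ] fixed ρ Γ)}
    (hz : ∀ z ∈ Subgroup.centralizer (Γ : Set A), ∀ h : fixed ρ Γ ≃ₗ[ℝ] fixed ρ Γ,
      (∀ x, (h x : V) = ρ z x) → h ∈ H) :
    ∃ S : Finset (fixed ρ Γ), (∀ s ∈ S, s ∈ D'.L ∧ s ∈ closure D'.C) ∧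
      ∀ x ∈ D'.C, ∃ g ∈ H, ∃ y ∈ pcone S, g y = x := by
  classical
  have hG : ∀ g ∈ ρ.range, D.Pres g := by
    rintro _ ⟨a, rfl⟩
    exact hρ a
  obtain ⟨⟨S, hS, hcov⟩, -⟩ := Datum.conj_cover hG hD
  obtain ⟨ξ, hξ, hξi⟩ := D.exists_int
  have hF := Datum.siegel hG hξ hξi hS hS
  set F : Set (V ≃ₗ[ℝ] V) := {g | g ∈ ρ.range ∧ ∃ y ∈ pcone S, g y ∈ pcone S ∧ g y ∈ D.C} with hFdef
  set X : Set A := {a | ∃ y ∈ pcone S, ρ a y ∈ D.C ∧ ρ a y ∈ fixed ρ Γ} with hXdef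
  have hX : ∀ a ∈ X, ∀ γ ∈ Γ, ρ (a⁻¹ * γ * a) ∈ F := by
    rintro a ⟨y, hy, hyC, hyW⟩ γ hγ
    have h1 : ρ (a⁻¹ * γ * a) y = y := by
      have h2 : ρ (a⁻¹ * γ * a) y = ρ a⁻¹ (ρ γ (ρ a y)) := by
        rw [map_mul, map_mul]
        rfl
      have h3 : ρ a⁻¹ (ρ a y) = ρ (a⁻¹ * a) y := by
        rw [map_mul]
        rfl
      rw [h2, hyW γ hγ, h3, inv_mul_cancel, map_one]
      rfl
    have hyC' : y ∈ D.C := ((hρ a).2 y).1 hyC
    refine ⟨⟨_, rfl⟩, y, hy, ?_, ?_⟩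
    · rw [h1]
      exact hy
    · rw [h1]
      exact hyC'
  obtain ⟨R, hR, hRX, hcos⟩ := coset_fin hl hF hX
  obtain ⟨Fi, hFi, hFiI, hFiW⟩ := fixed_ineq hρ Γ
  have hSr : ∀ r : A, ∀ s ∈ S.image (ρ r : V →ₗ[ℝ] V), s ∈ D.L ∧ s ∈ closure D.C := by
    intro r s hs
    obtain ⟨t, ht, rfl⟩ := Finset.mem_image.1 hs
    exact ⟨((hρ r).1 t).2 (hS t ht).1, ((hρ r).cl t).2 (hS t ht).2⟩
  have piece : ∀ r : A, ∃ T : Finset V, (∀ s ∈ T, s ∈ D.L) ∧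
      pcone T = pcone (S.image (ρ r : V →ₗ[ℝ] V)) ∩ {x | ∀ f ∈ Fi, 0 ≤ f x} := fun r =>
    D.fm_many (fun s hs => (hSr r s hs).1) hFi hFiI
  choose T hTL hT using piece
  have hTW : ∀ r, ∀ x ∈ pcone (T r), x ∈ fixed ρ Γ := by
    intro r x hx
    rw [hT] at hx
    exact (hFiW x).1 hx.2
  have hTcl : ∀ r, ∀ x ∈ pcone (T r), x ∈ closure D.C := by
    intro r x hx
    rw [hT] at hx
    exact D.pcone_closure (fun s hs => (hSr r s hs).2) hx.1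
  refine ⟨hR.toFinset.biUnion (fun r => (T r).subtype (fun x => x ∈ fixed ρ Γ)), ?_, ?_⟩
  · intro s hs
    obtain ⟨r, hr, hsr⟩ := Finset.mem_biUnion.1 hs
    have h1 : (s : V) ∈ T r := Finset.mem_subtype.1 hsr
    exact ⟨(h' s).1.2 (hTL r _ h1), (fixed_closure hρ Γ h' s).2 (hTcl r _ (pcone_mem h1))⟩
  · intro x hx
    have hxC : (x : V) ∈ D.C := (h' x).2.1.1 hx
    obtain ⟨_, ⟨a, rfl⟩, y, hy, hyx⟩ := hcov _ hxC
    have haX : a ∈ X := by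
      refine ⟨y, hy, ?_, ?_⟩
      · rw [hyx]
        exact hxC
      · rw [hyx]
        exact x.2
    obtain ⟨z, hzc, r, hr, har⟩ := hcos a haX
    obtain ⟨h, hh⟩ := restr_equiv (ρ := ρ) hzc
    obtain ⟨k, hk⟩ := restr_equiv (ρ := ρ) (inv_mem hzc)
    have hhH : h ∈ H := hz z hzc h hh
    have h1 : ((k x : fixed ρ Γ) : V) = ρ r y := by
      have h2 : ρ z⁻¹ (ρ z (ρ r y)) = ρ (z⁻¹ * z) (ρ r y) := by
        rw [map_mul]
        rfl
      have h3 : (x : V) = ρ z (ρ r y) := by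
        rw [← hyx, har]
        rfl
      rw [hk, h3, h2, inv_mul_cancel, map_one]
      rfl
    have h4 : h (k x) = x := by
      apply Subtype.ext
      have h3 : (x : V) = ρ z (ρ r y) := by
        rw [← hyx, har]
        rfl
      rw [hh, h1, h3]
    refine ⟨h, hhH, k x, ?_, h4⟩
    refine pcone_mono (S := (T r).subtype (fun x => x ∈ fixed ρ Γ)) ?_ ?_
    · intro t ht
      exact Finset.mem_biUnion.2 ⟨r, hR.mem_toFinset.2 hr, ht⟩
    · refine pcone_subtype (fun t ht => hTW r t (pcone_mem ht)) ?_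
      rw [hT, h1]
      refine ⟨?_, ?_⟩
      · rw [← pcone_image]
        exact ⟨y, hy, rfl⟩
      · show ∀ f ∈ Fi, 0 ≤ f (ρ r y)
        rw [← h1, hFiW]
        exact (k x).2

theorem descent {D : Datum V} {A : Type} [Group A] {ρ : A →* (V ≃ₗ[ℝ] V)}
    (hρ : ∀ a, D.Pres (ρ a)) {Γ : Subgroup A} [Finite Γ] (hl : LiftFin ρ Γ)
    (hD : D.Conj ρ.range) {D' : Datum (fixed ρ Γ)} (h' : D.Restr D')
    {H : Subgroup (fixed ρ Γ ≃ₗ[ℝ] fixed ρ Γ)} (hH : ∀ h ∈ H, D'.Pres h)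
    (hz : ∀ z ∈ Subgroup.centralizer (Γ : Set A), ∀ h : fixed ρ Γ ≃ₗ[ℝ] fixed ρ Γ,
      (∀ x, (h x : V) = ρ z x) → h ∈ H) : D'.Conj H := by
  obtain ⟨S, hS, hcov⟩ := desc_cover hρ hl hD h' hz
  have hG : ∀ g ∈ ρ.range, D.Pres g := by
    rintro _ ⟨a, rfl⟩
    exact hρ a
  obtain ⟨-, hE⟩ := Datum.conj_cover hG hD
  refine Datum.conj_of_cover hH hS hcov ?_
  ext x
  constructor
  · rintro ⟨hx1, hx2⟩
    rw [fixed_plus hρ Γ h', ← hE]
    exact ⟨(fixed_closure hρ Γ h' x).1 hx1, (h' x).2.2.1 hx2⟩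
  · intro hx
    rw [fixed_plus hρ Γ h', ← hE] at hx
    exact ⟨(fixed_closure hρ Γ h' x).2 hx.1, (h' x).2.2.2 hx.2⟩

end Pool.Agent.H32.Cone
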