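import Pool.Agent.H32.Cone.Basic

/-!
# The cone conjecture: Dickson's lemma
-/

set_option autoImplicit false
set_option linter.unusedSectionVars false

open Set

namespace Pool.Agent.H32.Cone

/-- every set of functions from a finite type to the natural numbers has a finite dominating subset -/
theorem dickson_nat {ι α : Type*} [Finite ι] (A : Set α) (φ : α → ι → ℕ) :
    ∃ A0 : Set α, A0 ⊆ A ∧ A0.Finite ∧ ∀ a ∈ A, ∃ b ∈ A0, ∀ i, φ b i ≤ φ a i := by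
  classical
  set M : Set (ι → ℕ) := {m | Minimal (· ∈ φ '' A) m} with hM
  have hMf : M.Finite :=
    WellQuasiOrderedLE.finite_of_isAntichain (setOfPred_minimal_antichain (fun m => m ∈ φ '' A))
  have hch : ∀ m : M, ∃ a ∈ A, φ a = m := by
    intro m
    obtain ⟨a, ha, hma⟩ := m.2.prop
    exact ⟨a, ha, hma⟩
  choose f hf1 hf2 using hch
  have : Finite M := hMf
  refine ⟨range f, ?_, Set.finite_range f, ?_⟩
  · rintro _ ⟨m, rfl⟩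
    exact hf1 m
  · intro a ha
    obtain ⟨m, hm1, hm2⟩ := exists_minimal_le_of_wellFoundedLT (· ∈ φ '' A) (φ a) ⟨a, ha, rfl⟩
    refine ⟨f ⟨m, hm2⟩, ⟨⟨m, hm2⟩, rfl⟩, fun i => ?_⟩
    rw [hf2 ⟨m, hm2⟩]
    exact hm1 i

variable {V : Type} [NormedAddCommGroup V] [NormedSpace ℝ V] [FiniteDimensional ℝ V]

theorem Datum.dickson (D : Datum V) {S : Finset V} (hS : ∀ s ∈ S, s ∈ D.L ∧ s ∈ closure D.C)
    (A : Set (V →ₗ[ℝ] ℝ)) (hA : ∀ η ∈ A, D.Int η ∧ D.NN η) :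
    ∃ A0 : Set (V →ₗ[ℝ] ℝ), A0 ⊆ A ∧ A0.Finite ∧
      ∀ η ∈ A, ∃ η' ∈ A0, ∀ s ∈ S, η' s ≤ η s := by
  obtain ⟨A0, h1, h2, h3⟩ := dickson_nat A
    (fun (η : V →ₗ[ℝ] ℝ) (s : S) => ⌊η s⌋₊)
  refine ⟨A0, h1, h2, fun η hη => ?_⟩
  obtain ⟨η', hη', hle⟩ := h3 η hη
  refine ⟨η', hη', fun s hs => ?_⟩
  have key : ∀ ζ ∈ A, ζ s = (⌊ζ s⌋₊ : ℝ) := by
    intro ζ hζ
    obtain ⟨m, hm⟩ := (hA ζ hζ).1 s (hS s hs).1
    have hnn : 0 ≤ ζ s := (hA ζ hζ).2.cl (hS s hs).2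
    rw [hm] at hnn ⊢
    have hm0 : 0 ≤ m := by exact_mod_cast hnn
    obtain ⟨k, rfl⟩ := Int.eq_ofNat_of_zero_le hm0
    simp
  rw [key η hη, key η' (h1 hη')]
  exact_mod_cast hle ⟨s, hs⟩

end Pool.Agent.H32.Cone
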