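import Pool.Agent.H32.Cone.Fund

/-!
# The cone conjecture: products and commensurability
-/

set_option autoImplicit false
set_option linter.unusedSectionVars false

open Set

namespace Pool.Agent.H32.Cone

section Product

variable {ι : Type} [Fintype ι] [DecidableEq ι] {V : ι → Type} [∀ i, NormedAddCommGroup (V i)]
  [∀ i, NormedSpace ℝ (V i)] [∀ i, FiniteDimensional ℝ (V i)]

theorem prod_discrete (D : ∀ i, Datum (V i)) :
    DiscreteTopology (Submodule.pi univ (fun i => (D i).L) : Submodule ℤ (∀ i, V i)) := by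
  have h1 : ∀ i, DiscreteTopology (D i).L := fun i => (D i).discrete
  let f : (Submodule.pi univ (fun i => (D i).L) : Submodule ℤ (∀ i, V i)) → ∀ i, (D i).L :=
    fun x i => ⟨(x : ∀ i, V i) i, x.2 i (mem_univ i)⟩
  have hf : Continuous f := by
    refine continuous_pi fun i => ?_
    exact Continuous.subtype_mk ((continuous_apply i).comp continuous_subtype_val) _
  have hinj : Function.Injective f := by
    intro x y hxy
    apply Subtype.ext
    funext i
    exact congrArg Subtype.val (congrFun hxy i)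
  exact DiscreteTopology.of_continuous_injective hf hinj

theorem prod_span (D : ∀ i, Datum (V i)) :
    Submodule.span ℝ ((Submodule.pi univ (fun i => (D i).L) : Submodule ℤ (∀ i, V i)) :
      Set (∀ i, V i)) = ⊤ := by
  rw [eq_top_iff]
  intro x _
  have key : ∀ i, ∀ v : V i, LinearMap.single ℝ V i v ∈ Submodule.span ℝ
      ((Submodule.pi univ (fun i => (D i).L) : Submodule ℤ (∀ i, V i)) : Set (∀ i, V i)) := by
    intro i v
    have hv : v ∈ Submodule.span ℝ ((D i).L : Set (V i)) := by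
      rw [(D i).span_top]
      exact Submodule.mem_top
    refine Submodule.span_induction (p := fun v _ => LinearMap.single ℝ V i v ∈ Submodule.span ℝ
      ((Submodule.pi univ (fun i => (D i).L) : Submodule ℤ (∀ i, V i)) : Set (∀ i, V i)))
      ?_ ?_ ?_ ?_ hv
    · intro l hl
      apply Submodule.subset_span
      intro j _
      show (Pi.single i l : ∀ i, V i) j ∈ (D j).L
      by_cases hj : j = i
      · subst hj
        rw [Pi.single_eq_same]
        exact hl
      · rw [Pi.single_eq_of_ne hj]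
        exact (D j).L.zero_mem
    · rw [map_zero]
      exact Submodule.zero_mem _
    · intro a b _ _ ha hb
      rw [map_add]
      exact Submodule.add_mem _ ha hb
    · intro t a _ ha
      rw [map_smul]
      exact Submodule.smul_mem _ _ ha
  have hx : x = ∑ i, LinearMap.single ℝ V i (x i) := by
    funext j
    rw [Finset.sum_apply, Finset.sum_eq_single j]
    · simp
    · intro i _ hij
      simp [hij.symm]
    · intro h
      exact absurd (Finset.mem_univ j) h
  rw [hx]
  exact Submodule.sum_mem _ fun i _ => key i (x i)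

theorem prod_datum (D : ∀ i, Datum (V i)) : ∃ D' : Datum (∀ i, V i), IsProd D D' := by
  have hcl : closure (Set.pi univ fun i => (D i).C) = Set.pi univ fun i => closure (D i).C :=
    closure_pi_set univ _
  refine ⟨{ L := Submodule.pi univ (fun i => (D i).L)
            C := Set.pi univ fun i => (D i).C
            E := {x | ∀ i, x i ∈ (D i).E}
            discrete := prod_discrete D
            span_top := prod_span D
            open_C := isOpen_set_pi finite_univ fun i _ => (D i).open_C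
            nonempty_C := ⟨fun i => (D i).nonempty_C.some, fun i _ => (D i).nonempty_C.some_mem⟩
            add_C := fun x hx y hy i hi => (D i).add_C _ (hx i hi) _ (hy i hi)
            smul_C := fun t ht x hx i hi => (D i).smul_C t ht _ (hx i hi)
            pointed := ?_
            C_sub_E := fun x hx i => (D i).C_sub_E (hx i (mem_univ i)) }, ?_⟩
  · intro x hx hx2
    rw [hcl] at hx hx2
    funext i
    exact (D i).pointed _ (hx i (mem_univ i)) (hx2 i (mem_univ i))
  · intro x
    refine ⟨?_, ?_, Iff.rfl⟩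
    · exact ⟨fun h i => h i (mem_univ i), fun h i _ => h i⟩
    · exact ⟨fun h i => h i (mem_univ i), fun h i _ => h i⟩

theorem prod_closure {D : ∀ i, Datum (V i)} {D' : Datum (∀ i, V i)} (h : IsProd D D')
    (x : ∀ i, V i) : x ∈ closure D'.C ↔ ∀ i, x i ∈ closure (D i).C := by
  have h1 : D'.C = Set.pi univ fun i => (D i).C := by
    ext y
    rw [(h y).2.1]
    exact ⟨fun hy i _ => hy i, fun hy i => hy i (mem_univ i)⟩
  rw [h1, closure_pi_set]
  exact ⟨fun hy i => hy i (mem_univ i), fun hy i _ => hy i⟩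

/-- the embedding of a factor -/
theorem single_mem {D : ∀ i, Datum (V i)} {D' : Datum (∀ i, V i)} (h : IsProd D D') {i : ι}
    {t : V i} (ht : t ∈ (D i).L ∧ t ∈ closure (D i).C) :
    LinearMap.single ℝ V i t ∈ D'.L ∧ LinearMap.single ℝ V i t ∈ closure D'.C := by
  constructor
  · rw [(h _).1]
    intro j
    show (Pi.single i t : ∀ i, V i) j ∈ (D j).L
    by_cases hj : j = i
    · subst hj
      rw [Pi.single_eq_same]
      exact ht.1
    · rw [Pi.single_eq_of_ne hj]
      exact (D j).L.zero_mem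
  · rw [prod_closure h]
    intro j
    show (Pi.single i t : ∀ i, V i) j ∈ closure (D j).C
    by_cases hj : j = i
    · subst hj
      rw [Pi.single_eq_same]
      exact ht.2
    · rw [Pi.single_eq_of_ne hj]
      exact (D j).zero_mem_closure

theorem sum_single (x : ∀ i, V i) : x = ∑ i, LinearMap.single ℝ V i (x i) := by
  funext j
  rw [Finset.sum_apply, Finset.sum_eq_single j]
  · simp
  · intro i _ hij
    simp [hij.symm]
  · intro h
    exact absurd (Finset.mem_univ j) h

theorem plus_sum {W : Type} [NormedAddCommGroup W] [NormedSpace ℝ W] [FiniteDimensional ℝ W]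
    (D : Datum W) {κ : Type*} (T : Finset κ) (f : κ → W) (h : ∀ i ∈ T, f i ∈ D.Plus) :
    ∑ i ∈ T, f i ∈ D.Plus := by
  classical
  induction T using Finset.induction_on with
  | empty => exact ⟨∅, fun t ht => absurd ht (Finset.notMem_empty t), by simpa using pcone_zero ∅⟩
  | insert a T ha ih =>
    rw [Finset.sum_insert ha]
    exact Datum.plus_add (h a (Finset.mem_insert_self _ _))
      (ih fun i hi => h i (Finset.mem_insert_of_mem hi))

theorem prod_plus {D : ∀ i, Datum (V i)} {D' : Datum (∀ i, V i)} (h : IsProd D D')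
    (x : ∀ i, V i) : x ∈ D'.Plus ↔ ∀ i, x i ∈ (D i).Plus := by
  classical
  constructor
  · rintro ⟨T, hT, hx⟩ i
    refine ⟨T.image (LinearMap.proj (R := ℝ) (φ := V) i), ?_, ?_⟩
    · intro t ht
      obtain ⟨s, hs, rfl⟩ := Finset.mem_image.1 ht
      exact ⟨((h s).1).1 (hT s hs).1 i, (prod_closure h s).1 (hT s hs).2 i⟩
    · rw [← pcone_image]
      exact ⟨x, hx, rfl⟩
  · intro hx
    rw [sum_single x]
    refine plus_sum D' _ _ fun i _ => ?_
    obtain ⟨T, hT, hxi⟩ := hx i
    refine ⟨T.image (LinearMap.single ℝ V i), ?_, ?_⟩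
    · intro t ht
      obtain ⟨s, hs, rfl⟩ := Finset.mem_image.1 ht
      exact single_mem h (hT s hs)
    · rw [← pcone_image]
      exact ⟨x i, hxi, rfl⟩

theorem product {D : ∀ i, Datum (V i)} {D' : Datum (∀ i, V i)} (h : IsProd D D')
    {G : ∀ i, Subgroup (V i ≃ₗ[ℝ] V i)} (hG : ∀ i, ∀ g ∈ G i, (D i).Pres g)
    (hD : ∀ i, (D i).Conj (G i)) {G' : Subgroup ((∀ i, V i) ≃ₗ[ℝ] (∀ i, V i))}
    (hG' : ∀ g ∈ G', D'.Pres g)
    (hsub : ∀ g : ∀ i, V i ≃ₗ[ℝ] V i, (∀ i, g i ∈ G i) →
      ∀ h : (∀ i, V i) ≃ₗ[ℝ] (∀ i, V i), (∀ x i, h x i = g i (x i)) → h ∈ G') :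
    D'.Conj G' := by
  classical
  have hc := fun i => Datum.conj_cover (hG i) (hD i)
  choose hS hE using hc
  choose S hS hcov using hS
  refine Datum.conj_of_cover (S := Finset.univ.biUnion fun i => (S i).image (LinearMap.single ℝ V i))
    hG' ?_ ?_ ?_
  · intro s hs
    obtain ⟨i, -, hi⟩ := Finset.mem_biUnion.1 hs
    obtain ⟨t, ht, rfl⟩ := Finset.mem_image.1 hi
    exact single_mem h (hS i t ht)
  · intro x hx
    rw [(h x).2.1] at hx
    choose g hg y hy hgy using fun i => hcov i (x i) (hx i)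
    refine ⟨LinearEquiv.piCongrRight g, hsub g hg _ (fun x i => rfl), y, ?_, ?_⟩
    · rw [sum_single y]
      refine pcone_sum _ _ fun i _ => ?_
      have h1 : LinearMap.single ℝ V i (y i) ∈ pcone ((S i).image (LinearMap.single ℝ V i)) := by
        rw [← pcone_image]
        exact ⟨y i, hy i, rfl⟩
      refine pcone_mono ?_ h1
      intro t ht
      exact Finset.mem_biUnion.2 ⟨i, Finset.mem_univ i, ht⟩
    · funext i
      exact hgy i
  · ext x
    rw [Set.mem_inter_iff, prod_closure h, (h x).2.2, prod_plus h]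
    constructor
    · rintro ⟨h1, h2⟩ i
      rw [← hE i]
      exact ⟨h1 i, h2 i⟩
    · intro h1
      constructor
      · intro i
        have := h1 i
        rw [← hE i] at this
        exact this.1
      · intro i
        have := h1 i
        rw [← hE i] at this
        exact this.2

end Product

section Comm

variable {V : Type} [NormedAddCommGroup V] [NormedSpace ℝ V] [FiniteDimensional ℝ V]

theorem comm {D : Datum V} {G H : Subgroup (V ≃ₗ[ℝ] V)} (hG : ∀ g ∈ G, D.Pres g)
    (hH : ∀ g ∈ H, D.Pres g) (hD : D.Conj G)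
    (hR : ∃ R : Set (V ≃ₗ[ℝ] V), R.Finite ∧ ∀ g ∈ G, ∃ h ∈ H, ∃ r ∈ R, g = h * r) :
    D.Conj H := by
  classical
  obtain ⟨⟨S, hS, hcov⟩, hE⟩ := Datum.conj_cover hG hD
  obtain ⟨R, hRf, hR⟩ := hR
  have hR2f : (R ∩ {r | D.Pres r}).Finite := hRf.inter_of_left _
  refine Datum.conj_of_cover
    (S := hR2f.toFinset.biUnion fun r => S.image (r : V →ₗ[ℝ] V)) hH ?_ ?_ hE
  · intro s hs
    obtain ⟨r, hr, hs⟩ := Finset.mem_biUnion.1 hs
    obtain ⟨t, ht, rfl⟩ := Finset.mem_image.1 hs
    rw [Set.Finite.mem_toFinset] at hr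
    have hrp : D.Pres r := hr.2
    exact ⟨(hrp.1 t).2 (hS t ht).1, (hrp.cl t).2 (hS t ht).2⟩
  · intro x hx
    obtain ⟨g, hg, y, hy, rfl⟩ := hcov x hx
    obtain ⟨h, hh, r, hr, rfl⟩ := hR g hg
    have hrp : D.Pres r := by
      have h1 : r = h⁻¹ * (h * r) := (inv_mul_cancel_left h r).symm
      rw [h1]
      exact (hH h hh).inv.mul (hG _ hg)
    refine ⟨h, hh, r y, ?_, rfl⟩
    have h1 : r y ∈ pcone (S.image (r : V →ₗ[ℝ] V)) := by
      rw [← pcone_image]
      exact ⟨y, hy, rfl⟩
    refine pcone_mono ?_ h1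
    intro t ht
    exact Finset.mem_biUnion.2 ⟨r, (Set.Finite.mem_toFinset _).2 ⟨hr, hrp⟩, ht⟩

/-- replacing the lattice by a commensurable one does not change the rational closure -/
theorem comm_plus_sub {D D' : Datum V} (h : D.Comm D') : D.Plus ⊆ D'.Plus := by
  classical
  obtain ⟨hC, -, m, hm, hL⟩ := h
  rintro x ⟨T, hT, hx⟩
  refine ⟨T.image (fun t => m • t), ?_, ?_⟩
  · intro t ht
    obtain ⟨s, hs, rfl⟩ := Finset.mem_image.1 ht
    refine ⟨(hL s).1 (hT s hs).1, ?_⟩
    rw [← hC, ← Nat.cast_smul_eq_nsmul ℝ]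
    exact D.closure_smul (Nat.cast_nonneg m) (hT s hs).2
  · refine pcone_sub ?_ hx
    intro s hs
    have h1 : m • s ∈ pcone (T.image (fun t => m • t)) :=
      pcone_mem (Finset.mem_image_of_mem _ hs)
    have h2 := pcone_smul (t := (m : ℝ)⁻¹) (by positivity) h1
    rwa [← Nat.cast_smul_eq_nsmul ℝ, smul_smul, inv_mul_cancel₀ (by positivity), one_smul] at h2

theorem Datum.Comm.symm {D D' : Datum V} (h : D.Comm D') : D'.Comm D := by
  obtain ⟨hC, hE, m, hm, hL⟩ := h
  exact ⟨hC.symm, hE.symm, m, hm, fun x => ⟨(hL x).2, (hL x).1⟩⟩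

/-- commensurable groups and commensurable lattices -/
theorem comm_lat {D D' : Datum V} (hDD : D.Comm D') {G H : Subgroup (V ≃ₗ[ℝ] V)}
    (hG : ∀ g ∈ G, D.Pres g) (hH : ∀ g ∈ H, D'.Pres g) (hD : D.Conj G)
    (hR : ∃ R : Set (V ≃ₗ[ℝ] V), R.Finite ∧ ∀ g ∈ G, ∃ h ∈ H, ∃ r ∈ R, g = h * r) :
    D'.Conj H := by
  classical
  obtain ⟨⟨S, hS, hcov⟩, hE⟩ := Datum.conj_cover hG hD
  obtain ⟨R, hRf, hR⟩ := hR
  obtain ⟨hC, hE', m, hm, hL⟩ := id hDD
  have hm0 : (0 : ℝ) < m := by exact_mod_cast hm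
  have hR2f : (R ∩ {r | ∃ g ∈ G, ∃ h ∈ H, g = h * r}).Finite := hRf.inter_of_left _
  refine Datum.conj_of_cover
    (S := hR2f.toFinset.biUnion fun r => S.image (fun s => m • r s)) hH ?_ ?_ ?_
  · intro s hs
    obtain ⟨r, hr, hs⟩ := Finset.mem_biUnion.1 hs
    obtain ⟨t, ht, rfl⟩ := Finset.mem_image.1 hs
    rw [Set.Finite.mem_toFinset] at hr
    obtain ⟨-, g, hg, h, hh, hgr⟩ := hr
    have h1 : g t = h (r t) := by rw [hgr]; rfl
    constructor
    · have h2 : m • g t ∈ D'.L := (hL _).1 (((hG g hg).1 t).2 (hS t ht).1)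
      have h3 : h (m • r t) = m • g t := by rw [map_nsmul, h1]
      rw [← h3] at h2
      exact ((hH h hh).1 _).1 h2
    · have h2 : g t ∈ closure D'.C := by
        rw [← hC]
        exact ((hG g hg).cl t).2 (hS t ht).2
      rw [h1] at h2
      have h3 := ((hH h hh).cl _).1 h2
      rw [← Nat.cast_smul_eq_nsmul ℝ]
      exact D'.closure_smul hm0.le h3
  · intro x hx
    rw [← hC] at hx
    obtain ⟨g, hg, y, hy, rfl⟩ := hcov x hx
    obtain ⟨h, hh, r, hr, rfl⟩ := hR g hg
    refine ⟨h, hh, r y, ?_, rfl⟩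
    have h1 : r y ∈ pcone (S.image (r : V →ₗ[ℝ] V)) := by
      rw [← pcone_image]
      exact ⟨y, hy, rfl⟩
    refine pcone_sub ?_ h1
    intro t ht
    obtain ⟨s, hs, rfl⟩ := Finset.mem_image.1 ht
    have h2 : m • r s ∈ pcone (hR2f.toFinset.biUnion fun r => S.image (fun s => m • r s)) :=
      pcone_mem (Finset.mem_biUnion.2 ⟨r, (Set.Finite.mem_toFinset _).2 ⟨hr, _, hg, h, hh, rfl⟩,
        Finset.mem_image_of_mem _ hs⟩)
    have h3 := pcone_smul (t := (m : ℝ)⁻¹) (by positivity) h2
    rwa [← Nat.cast_smul_eq_nsmul ℝ, smul_smul, inv_mul_cancel₀ hm0.ne', one_smul] at h3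
  · rw [← hC, ← hE', hE]
    exact Subset.antisymm (comm_plus_sub hDD) (comm_plus_sub hDD.symm)

end Comm

end Pool.Agent.H32.Cone
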