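import Pool.Agent.H32.Cone.Desc
import Pool.Agent.H32.Cone.Prod

/-!
# The cone conjecture: products, commensurability and descent in one statement
-/

set_option autoImplicit false
set_option linter.unusedSectionVars false

open Set

namespace Pool.Agent.H32.Cone

variable {ι : Type} [Fintype ι] {V : ι → Type} [∀ i, NormedAddCommGroup (V i)]
  [∀ i, NormedSpace ℝ (V i)] [∀ i, FiniteDimensional ℝ (V i)]

theorem prodGrp_pres {D : ∀ i, Datum (V i)} {P : Datum (∀ i, V i)} (hP : IsProd D P)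
    {G : ∀ i, Subgroup (V i ≃ₗ[ℝ] V i)} (hG : ∀ i, ∀ g ∈ G i, (D i).Pres g) :
    ∀ h ∈ prodGrp G, P.Pres h := by
  rintro h ⟨g, hg, hg2⟩
  constructor
  · intro x
    rw [(hP _).1, (hP _).1]
    refine forall_congr' fun i => ?_
    rw [hg2]
    exact (hG i _ (hg i)).1 _
  · intro x
    rw [(hP _).2.1, (hP _).2.1]
    refine forall_congr' fun i => ?_
    rw [hg2]
    exact (hG i _ (hg i)).2 _

section

variable {W : Type} [NormedAddCommGroup W] [NormedSpace ℝ W] [FiniteDimensional ℝ W]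

theorem centGrp_pres {D : Datum W} {A : Type} [Group A] {ρ : A →* (W ≃ₗ[ℝ] W)}
    (hρ : ∀ a, D.Pres (ρ a)) {Γ : Subgroup A} {D' : Datum (fixed ρ Γ)} (h' : D.Restr D') :
    ∀ h ∈ centGrp ρ Γ, D'.Pres h := by
  rintro h ⟨z, -, hz⟩
  constructor
  · intro x
    rw [(h' _).1, (h' _).1, hz]
    exact (hρ z).1 _
  · intro x
    rw [(h' _).2.1, (h' _).2.1, hz]
    exact (hρ z).2 _

end

/-- products, commensurability and descent -/
theorem main {D : ∀ i, Datum (V i)} {G : ∀ i, Subgroup (V i ≃ₗ[ℝ] V i)}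
    (hG : ∀ i, (D i).PresG (G i)) (hD : ∀ i, (D i).Conj (G i))
    {P0 P : Datum (∀ i, V i)} (hP : IsProd D P0) (hPP : P0.Comm P) {A : Type} [Group A]
    {ρ : A →* ((∀ i, V i) ≃ₗ[ℝ] (∀ i, V i))} (hρ : P.PresG ρ.range)
    (hidx : FinCov (prodGrp G) ρ.range)
    {Γ : Subgroup A} [Finite Γ] (hl : LiftFin ρ Γ) {D0 D' : Datum (fixed ρ Γ)}
    (h0 : P.Restr D0) (h' : D0.Comm D')
    {H : Subgroup (fixed ρ Γ ≃ₗ[ℝ] fixed ρ Γ)} (hH : D'.PresG H)
    (hidx' : FinCov (centGrp ρ Γ) H) :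
    D'.Conj H := by
  classical
  have hρ' : ∀ a, P.Pres (ρ a) := fun a => hρ _ ⟨a, rfl⟩
  have h1 : P0.Conj (prodGrp G) :=
    product hP hG hD (prodGrp_pres hP hG) (fun g hg h hh => ⟨g, hg, hh⟩)
  have h2 : P.Conj ρ.range := comm_lat hPP (prodGrp_pres hP hG) hρ h1 hidx
  have h3 : D0.Conj (centGrp ρ Γ) :=
    descent hρ' hl h2 h0 (centGrp_pres hρ' h0) (fun z hz h hh => ⟨z, hz, hh⟩)
  exact comm_lat h' (centGrp_pres hρ' h0) hH h3 hidx'

end Pool.Agent.H32.Cone
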