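import Pool.Agent.H32.Cone.Cover
import Pool.Agent.H32.Cone.FM

/-!
# The cone conjecture: existence of an exact fundamental domain

PROOF of fund. `ξ` from exists_gen (trivial stabiliser). `M = {h | h ∈ G ∧ ∃ x ∈ pcone S, x ∈ C ∧ ∀ g ∈ G, ξ (h x) ≤ ξ (g x)}`
is finite (minim_fin). For `h ∈ M` let `S_h = S.image h` (in `L` and `closure C`). dickson for `S_h` and
`A = {ξ ∘ g | g ∈ G}` gives a finite `A0`; `F_h = {η' - ξ | η' ∈ A0}` (functionals with `Int`). fm_many: `T_h` with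
`pcone T_h = pcone S_h ∩ {x | ∀ η' ∈ A0, ξ x ≤ η' x}`. For `x ∈ pcone S_h` the condition `∀ η' ∈ A0, ξ x ≤ η' x` is
equivalent to `∀ g ∈ G, ξ x ≤ ξ (g x)` (dickson: `η' s ≤ η s` on `S_h` gives `η' x ≤ η x`). Let `T = ⋃ h ∈ M, T_h`
(a finset). Put `Σ = {x | ∀ g ∈ G, ξ x ≤ ξ (g x)}`, closed under addition and nonnegative multiples.
(1) `pcone T ⊆ Σ`: each `t ∈ T_h` is in `pcone T_h ⊆ Σ`.
(2) `T ⊆ L`, `T ⊆ closure C` (`pcone T_h ⊆ pcone S_h ⊆ closure C`).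
(3) for `x ∈ C` there are `g ∈ G`, `y ∈ pcone T`, `g y = x`: let `f` be a minimiser for `x` (exists_min), `y = f x ∈ C ∩ Σ`;
`y = h z` with `z ∈ pcone S`, `h ∈ G` (hcov), `z ∈ C`; `h ∈ M` as `ξ (h z) = ξ y ≤ ξ (g h⁻¹ y) = ξ (g z)` for all `g ∈ G`
(`y ∈ Σ` applied to `g * h⁻¹`); `y = h z ∈ pcone S_h ∩ Σ = pcone T_h ⊆ pcone T`. `x = f⁻¹ y`.
(4) `D.Plus = ⋃ g ∈ G, g (pcone T)`: `⊆` is cover_plus, `⊇` as `pcone T ⊆ D.Plus` and `Pres.plus`.
(5) interiors: let `y ∈ interior (pcone T)`, `g ∈ G`, `g y ∈ interior (pcone T)`, suppose `g ≠ 1`. The functional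
`η = ξ ∘ g - ξ` is not zero (trivial stabiliser) and `≥ 0` on `pcone T`, so it is `> 0` on the interior (a nonzero
linear functional is an open map, `LinearMap.isOpenMap_of_finiteDimensional` or: if `η y = 0`, choose `v` with
`η v < 0`, then `y + ε v ∈ pcone T` for small `ε > 0`). So `ξ y < ξ (g y)`; the same for `g⁻¹` at `g y`:
`ξ (g y) < ξ y`. Contradiction.
conj_of_cover: combine with the hypothesis `closure C ∩ E = Plus`.
conj_cover: from `D.Conj G`: `S ⊆ closure C ∩ E` (`g = 1`, pcone_mem), every `x ∈ C` is in `closure C ∩ E`, so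
covered; `Plus ⊆ ⋃ g (pcone S) = closure C ∩ E` by cover_plus, and `g (pcone S) ⊆ Plus`.
-/

set_option autoImplicit false
set_option linter.unusedSectionVars false

open Set Filter Topology

namespace Pool.Agent.H32.Cone

variable {V : Type} [NormedAddCommGroup V] [NormedSpace ℝ V] [FiniteDimensional ℝ V]

namespace Datum

theorem fund {D : Datum V} {G : Subgroup (V ≃ₗ[ℝ] V)} (hG : ∀ g ∈ G, D.Pres g)
    {S : Finset V} (hS : ∀ s ∈ S, s ∈ D.L ∧ s ∈ closure D.C)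
    (hcov : ∀ x ∈ D.C, ∃ g ∈ G, ∃ y ∈ pcone S, g y = x) :
    ∃ T : Finset V, (∀ s ∈ T, s ∈ D.L) ∧ D.Plus = ⋃ g ∈ G, (fun x => g x) '' pcone T ∧
      ∀ g ∈ G, (interior (pcone T) ∩ (fun x => g x) '' interior (pcone T)).Nonempty → g = 1 := by
  classical
  obtain ⟨ξ, hξ, hξi, hgen⟩ := exists_gen D
  have hMfin := minim_fin hG hξ hξi hS
  set M : Set (V ≃ₗ[ℝ] V) :=
    {h | h ∈ G ∧ ∃ x ∈ pcone S, x ∈ D.C ∧ ∀ g ∈ G, ξ (h x) ≤ ξ (g x)} with hM
  -- the pieces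
  have piece : ∀ h : V ≃ₗ[ℝ] V, ∃ T : Finset V, h ∈ M → (∀ s ∈ T, s ∈ D.L) ∧
      pcone T = pcone (S.image (h : V →ₗ[ℝ] V)) ∩ {x | ∀ g ∈ G, ξ x ≤ ξ (g x)} := by
    intro h
    by_cases hh : h ∈ M
    swap
    · exact ⟨∅, fun hc => absurd hc hh⟩
    have hSh : ∀ s ∈ S.image (h : V →ₗ[ℝ] V), s ∈ D.L ∧ s ∈ closure D.C := by
      intro s hs
      obtain ⟨t, ht, rfl⟩ := Finset.mem_image.1 hs
      exact ⟨((hG h hh.1).1 t).2 (hS t ht).1, ((hG h hh.1).cl t).2 (hS t ht).2⟩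
    obtain ⟨A0, hA0, hA0f, hdom⟩ := D.dickson hSh
      {η | ∃ g ∈ G, η = ξ ∘ₗ (g : V →ₗ[ℝ] V)} (by
        rintro η ⟨g, hg, rfl⟩
        exact ⟨hξi.comp (hG g hg), hξ.nn.comp (hG g hg)⟩)
    obtain ⟨T, hT, hT2⟩ := D.fm_many (S := S.image (h : V →ₗ[ℝ] V)) (fun s hs => (hSh s hs).1)
      (F := (fun η => η - ξ) '' A0) (hA0f.image _) (by
        rintro _ ⟨η, hη, rfl⟩ l hl
        obtain ⟨g, hg, rfl⟩ := hA0 hη
        obtain ⟨n, hn⟩ := hξi.comp (hG g hg) l hl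
        obtain ⟨m, hm⟩ := hξi l hl
        refine ⟨n - m, ?_⟩
        show (ξ ∘ₗ (g : V →ₗ[ℝ] V)) l - ξ l = _
        rw [hn, hm]
        push_cast
        ring)
    refine ⟨T, fun _ => ⟨hT, ?_⟩⟩
    rw [hT2]
    ext x
    constructor
    · rintro ⟨hx, hx2⟩
      refine ⟨hx, fun g hg => ?_⟩
      obtain ⟨η', hη', hle⟩ := hdom _ ⟨g, hg, rfl⟩
      have h1 : 0 ≤ (η' - ξ) x := hx2 _ ⟨η', hη', rfl⟩
      have h2 : η' x ≤ (ξ ∘ₗ (g : V →ₗ[ℝ] V)) x := by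
        obtain ⟨c, hc, rfl⟩ := hx
        rw [map_sum, map_sum]
        refine Finset.sum_le_sum fun s hs => ?_
        rw [map_smul, map_smul, smul_eq_mul, smul_eq_mul]
        exact mul_le_mul_of_nonneg_left (hle s hs) (hc s hs)
      have h3 : (η' - ξ) x = η' x - ξ x := rfl
      have h4 : (ξ ∘ₗ (g : V →ₗ[ℝ] V)) x = ξ (g x) := rfl
      linarith
    · rintro ⟨hx, hx2⟩
      refine ⟨hx, ?_⟩
      rintro _ ⟨η', hη', rfl⟩
      obtain ⟨g, hg, rfl⟩ := hA0 hη'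
      have h3 : ((fun η => η - ξ) (ξ ∘ₗ (g : V →ₗ[ℝ] V))) x = ξ (g x) - ξ x := rfl
      rw [h3]
      linarith [hx2 g hg]
  choose T hT using piece
  set Sg : Set V := {x | ∀ g ∈ G, ξ x ≤ ξ (g x)} with hSg
  set U : Finset V := hMfin.toFinset.biUnion T with hU
  have hUmem : ∀ t ∈ U, ∃ h ∈ M, t ∈ T h := by
    intro t ht
    obtain ⟨h, hh, hth⟩ := Finset.mem_biUnion.1 ht
    exact ⟨h, hMfin.mem_toFinset.1 hh, hth⟩
  have hTU : ∀ h ∈ M, T h ⊆ U := fun h hh t ht =>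
    Finset.mem_biUnion.2 ⟨h, hMfin.mem_toFinset.2 hh, ht⟩
  have hUL : ∀ t ∈ U, t ∈ D.L := by
    intro t ht
    obtain ⟨h, hh, hth⟩ := hUmem t ht
    exact (hT h hh).1 t hth
  have hUcl : ∀ t ∈ U, t ∈ closure D.C := by
    intro t ht
    obtain ⟨h, hh, hth⟩ := hUmem t ht
    have h1 : t ∈ pcone (T h) := pcone_mem hth
    rw [(hT h hh).2] at h1
    refine D.pcone_closure (S := S.image (h : V →ₗ[ℝ] V)) ?_ h1.1
    intro s hs
    obtain ⟨t, ht, rfl⟩ := Finset.mem_image.1 hs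
    exact ((hG h hh.1).cl t).2 (hS t ht).2
  have hUSg : pcone U ⊆ Sg := by
    rintro x ⟨c, hc, rfl⟩ g hg
    rw [map_sum, map_sum, map_sum]
    refine Finset.sum_le_sum fun s hs => ?_
    rw [map_smul, map_smul, map_smul, smul_eq_mul, smul_eq_mul]
    refine mul_le_mul_of_nonneg_left ?_ (hc s hs)
    obtain ⟨h, hh, hth⟩ := hUmem s hs
    have h1 : s ∈ pcone (T h) := pcone_mem hth
    rw [(hT h hh).2] at h1
    exact h1.2 g hg
  have hcov2 : ∀ x ∈ D.C, ∃ g ∈ G, ∃ y ∈ pcone U, g y = x := by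
    intro x hx
    obtain ⟨f, hf, hfmin⟩ := exists_min hG hξ hξi hx
    have hfx : f x ∈ D.C := ((hG f hf).2 x).2 hx
    have hfS : f x ∈ Sg := by
      intro g hg
      exact hfmin (g * f) (G.mul_mem hg hf)
    obtain ⟨h, hh, z, hz, hzx⟩ := hcov _ hfx
    have hzC : z ∈ D.C := by
      rw [← hzx] at hfx
      exact ((hG h hh).2 z).1 hfx
    have hhM : h ∈ M := by
      refine ⟨hh, z, hz, hzC, fun g hg => ?_⟩
      have h1 := hfS (g * h⁻¹) (G.mul_mem hg (G.inv_mem hh))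
      have h2 : (g * h⁻¹) (f x) = g z := by
        rw [← hzx]
        show g (h.symm (h z)) = g z
        rw [LinearEquiv.symm_apply_apply]
      rw [h2, ← hzx] at h1
      exact h1
    refine ⟨f⁻¹, G.inv_mem hf, f x, ?_, f.symm_apply_apply x⟩
    apply pcone_mono (hTU h hhM)
    rw [(hT h hhM).2, ← pcone_image]
    exact ⟨⟨z, hz, hzx⟩, hfS⟩
  refine ⟨U, hUL, ?_, ?_⟩
  · ext x
    simp only [mem_iUnion, mem_image, exists_prop]
    constructor
    · intro hx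
      exact cover_plus hG (fun s hs => ⟨hUL s hs, hUcl s hs⟩) hcov2 x hx
    · rintro ⟨g, hg, y, hy, rfl⟩
      exact (hG g hg).plus ⟨U, fun t ht => ⟨hUL t ht, hUcl t ht⟩, hy⟩
  · rintro g hg ⟨y, hy, z, hz, hzy⟩
    by_contra hne
    -- a point of the interior is moved to a strictly larger value
    have key : ∀ k ∈ G, k ≠ 1 → ∀ w ∈ interior (pcone U), ξ w < ξ (k w) := by
      intro k hk hk1 w hw
      have hle : ξ w ≤ ξ (k w) := hUSg (interior_subset hw) k hk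
      refine lt_of_le_of_ne hle fun heq => ?_
      apply hk1
      apply hgen k (hG k hk)
      ext v
      show ξ (k v) = ξ v
      by_contra hv
      set η : V →ₗ[ℝ] ℝ := ξ ∘ₗ (k : V →ₗ[ℝ] V) - ξ with hη
      have hηw : η w = 0 := by
        show ξ (k w) - ξ w = 0
        rw [heq, sub_self]
      have hηv : η v ≠ 0 := by
        show ξ (k v) - ξ v ≠ 0
        exact sub_ne_zero.2 hv
      -- choose the sign
      obtain ⟨u, hu⟩ : ∃ u : V, η u < 0 := by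
        rcases lt_or_gt_of_ne hηv with h | h
        · exact ⟨v, h⟩
        · exact ⟨-v, by rw [map_neg]; linarith⟩
      have hcont : Continuous (fun t : ℝ => w + t • u) := by fun_prop
      have hopen : IsOpen ((fun t : ℝ => w + t • u) ⁻¹' interior (pcone U)) :=
        isOpen_interior.preimage hcont
      have h0 : (0 : ℝ) ∈ (fun t : ℝ => w + t • u) ⁻¹' interior (pcone U) := by
        show w + (0 : ℝ) • u ∈ interior (pcone U)
        rw [zero_smul, add_zero]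
        exact hw
      obtain ⟨ε, hε, hb⟩ := Metric.isOpen_iff.1 hopen 0 h0
      have h1 : w + (ε / 2) • u ∈ interior (pcone U) := by
        apply hb
        rw [Metric.mem_ball, dist_zero_right, Real.norm_of_nonneg (by positivity)]
        linarith
      have h2 : ξ (w + (ε / 2) • u) ≤ ξ (k (w + (ε / 2) • u)) := hUSg (interior_subset h1) k hk
      have h3 : η (w + (ε / 2) • u) = ξ (k (w + (ε / 2) • u)) - ξ (w + (ε / 2) • u) := rfl
      rw [map_add, map_smul, hηw, smul_eq_mul] at h3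
      have h4 : ε / 2 * η u < 0 := mul_neg_of_pos_of_neg (by positivity) hu
      linarith
    have hz1 := key g hg hne z hz
    have hy1 := key g⁻¹ (G.inv_mem hg) (inv_ne_one.2 hne) y hy
    have h5 : (g⁻¹ : V ≃ₗ[ℝ] V) y = z := by
      rw [← hzy]
      exact g.symm_apply_apply z
    rw [h5] at hy1
    have h6 : g z = y := hzy
    rw [h6] at hz1
    linarith

theorem conj_of_cover {D : Datum V} {G : Subgroup (V ≃ₗ[ℝ] V)} (hG : ∀ g ∈ G, D.Pres g)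
    {S : Finset V} (hS : ∀ s ∈ S, s ∈ D.L ∧ s ∈ closure D.C)
    (hcov : ∀ x ∈ D.C, ∃ g ∈ G, ∃ y ∈ pcone S, g y = x) (hE : closure D.C ∩ D.E = D.Plus) :
    D.Conj G := by
  obtain ⟨T, h1, h2, h3⟩ := fund hG hS hcov
  exact ⟨T, h1, hE.trans h2, h3⟩

theorem conj_cover {D : Datum V} {G : Subgroup (V ≃ₗ[ℝ] V)} (hG : ∀ g ∈ G, D.Pres g)
    (h : D.Conj G) : (∃ S : Finset V, (∀ s ∈ S, s ∈ D.L ∧ s ∈ closure D.C) ∧
      ∀ x ∈ D.C, ∃ g ∈ G, ∃ y ∈ pcone S, g y = x) ∧ closure D.C ∩ D.E = D.Plus := by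
  obtain ⟨S, hSL, hU, -⟩ := h
  have hmem : ∀ g ∈ G, ∀ y ∈ pcone S, g y ∈ closure D.C ∩ D.E := by
    intro g hg y hy
    rw [hU]
    simp only [mem_iUnion, mem_image, exists_prop]
    exact ⟨g, hg, y, hy, rfl⟩
  have hex : ∀ x ∈ closure D.C ∩ D.E, ∃ g ∈ G, ∃ y ∈ pcone S, g y = x := by
    intro x hx
    rw [hU] at hx
    simpa only [mem_iUnion, mem_image, exists_prop] using hx
  have hScl : ∀ s ∈ S, s ∈ D.L ∧ s ∈ closure D.C := fun s hs =>
    ⟨hSL s hs, (hmem 1 G.one_mem s (pcone_mem hs)).1⟩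
  have hcov : ∀ x ∈ D.C, ∃ g ∈ G, ∃ y ∈ pcone S, g y = x := fun x hx =>
    hex x ⟨subset_closure hx, D.C_sub_E hx⟩
  refine ⟨⟨S, hScl, hcov⟩, ?_⟩
  apply Subset.antisymm
  · intro x hx
    obtain ⟨g, hg, y, hy, rfl⟩ := hex x hx
    exact (hG g hg).plus ⟨S, hScl, hy⟩
  · intro x hx
    obtain ⟨g, hg, y, hy, rfl⟩ := cover_plus hG hScl hcov x hx
    exact hmem g hg y hy

end Datum

end Pool.Agent.H32.Cone
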