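import Pool.Agent.H32.Cone.Basic

/-!
# The cone conjecture: lattice finiteness
-/

set_option autoImplicit false
set_option linter.unusedSectionVars false

open Set Filter Topology Module

namespace Pool.Agent.H32.Cone

variable {V : Type} [NormedAddCommGroup V] [NormedSpace ℝ V] [FiniteDimensional ℝ V]

namespace Datum

theorem lat_basis (D : Datum V) : ∃ (n : ℕ) (b : Basis (Fin n) ℝ V),
    D.L = Submodule.span ℤ (range b) := by
  have := D.discrete
  have : IsZLattice ℝ D.L := ⟨D.span_top⟩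
  have : Module.Finite ℤ D.L := ZLattice.module_finite ℝ D.L
  have : Module.Free ℤ D.L := ZLattice.module_free ℝ D.L
  let b := Module.finBasis ℤ D.L
  exact ⟨_, b.ofZLatticeBasis ℝ D.L, (b.ofZLatticeBasis_span ℝ D.L).symm⟩

/-- integral functionals are those which are integral on the basis -/
theorem int_of_basis {D : Datum V} {n : ℕ} {b : Basis (Fin n) ℝ V}
    (hb : D.L = Submodule.span ℤ (range b)) {η : V →ₗ[ℝ] ℝ}
    (h : ∀ i, ∃ m : ℤ, η (b i) = m) : D.Int η := by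
  intro l hl
  rw [hb] at hl
  refine Submodule.span_induction (p := fun x _ => ∃ m : ℤ, η x = m) ?_ ?_ ?_ ?_ hl
  · rintro x ⟨i, rfl⟩
    exact h i
  · exact ⟨0, by simp⟩
  · rintro x y _ _ ⟨m, hm⟩ ⟨k, hk⟩
    exact ⟨m + k, by rw [map_add, hm, hk]; push_cast; ring⟩
  · rintro a x _ ⟨m, hm⟩
    refine ⟨a * m, ?_⟩
    rw [map_zsmul, hm, zsmul_eq_mul]
    push_cast
    ring

theorem basis_mem {D : Datum V} {n : ℕ} {b : Basis (Fin n) ℝ V}
    (hb : D.L = Submodule.span ℤ (range b)) (i : Fin n) : b i ∈ D.L := by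
  rw [hb]
  exact Submodule.subset_span ⟨i, rfl⟩

theorem fin_bounded (D : Datum V) {x : V} (hx : x ∈ D.C) (c : ℝ) :
    {η : V →ₗ[ℝ] ℝ | D.Int η ∧ D.NN η ∧ η x ≤ c}.Finite := by
  obtain ⟨n, b, hb⟩ := D.lat_basis
  obtain ⟨r, hr, hball⟩ := Metric.isOpen_iff.1 D.open_C x hx
  -- uniform epsilon
  obtain ⟨ε, hε, hεb⟩ : ∃ ε : ℝ, 0 < ε ∧ ∀ i, ‖ε • b i‖ < r := by
    obtain ⟨M, hM⟩ : ∃ M : ℝ, ∀ i, ‖b i‖ ≤ M := by
      refine ⟨∑ i, ‖b i‖, fun i => ?_⟩
      exact Finset.single_le_sum (f := fun i => ‖b i‖) (fun j _ => norm_nonneg _)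
        (Finset.mem_univ i)
    refine ⟨r / (2 * (|M| + 1)), by positivity, fun i => ?_⟩
    rw [norm_smul, Real.norm_eq_abs, abs_of_pos (by positivity)]
    have h1 : ‖b i‖ ≤ |M| + 1 := (hM i).trans ((le_abs_self M).trans (by linarith))
    calc r / (2 * (|M| + 1)) * ‖b i‖ ≤ r / (2 * (|M| + 1)) * (|M| + 1) := by gcongr
      _ = r / 2 := by field_simp
      _ < r := by linarith
  set N : ℤ := ⌈|c| / ε⌉ with hN
  have key : ∀ η : V →ₗ[ℝ] ℝ, D.Int η → D.NN η → η x ≤ c → ∀ i, ∃ m : ℤ, m ∈ Icc (-N) N ∧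
      η (b i) = m := by
    intro η h1 h2 h3 i
    obtain ⟨m, hm⟩ := h1 (b i) (basis_mem hb i)
    have hp : x + ε • b i ∈ D.C := by
      apply hball
      rw [Metric.mem_ball, dist_eq_norm, add_sub_cancel_left]
      exact hεb i
    have hq : x - ε • b i ∈ D.C := by
      apply hball
      rw [Metric.mem_ball, dist_eq_norm, sub_sub_cancel_left, norm_neg]
      exact hεb i
    have hp2 := h2 _ hp
    have hq2 := h2 _ hq
    rw [map_add, map_smul, smul_eq_mul] at hp2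
    rw [map_sub, map_smul, smul_eq_mul] at hq2
    rw [hm] at hp2 hq2
    have hc : c ≤ |c| := le_abs_self c
    have h4 : (m : ℝ) ≤ |c| / ε := by
      rw [le_div_iff₀ hε]
      linarith
    have h5 : -(|c| / ε) ≤ (m : ℝ) := by
      rw [neg_le, le_div_iff₀ hε]
      linarith
    have h6 : |c| / ε ≤ (N : ℝ) := Int.le_ceil _
    refine ⟨m, ⟨?_, ?_⟩, hm⟩
    · have : (-(N : ℝ)) ≤ (m : ℝ) := by linarith
      exact_mod_cast this
    · have : (m : ℝ) ≤ (N : ℝ) := by linarith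
      exact_mod_cast this
  -- injection to a finite set of functions
  let Φ : (V →ₗ[ℝ] ℝ) → (Fin n → ℝ) := fun η i => η (b i)
  have hfin : (Set.pi univ (fun _ : Fin n => ((fun m : ℤ => (m : ℝ)) '' Icc (-N) N))).Finite :=
    Set.Finite.pi' (fun _ => (Set.finite_Icc (-N) N).image _) |>.subset (by
      intro f hf i
      exact hf i (mem_univ i))
  refine Set.Finite.of_injOn (f := Φ) (t := Set.pi univ (fun _ : Fin n => ((fun m : ℤ => (m : ℝ)) '' Icc (-N) N))) ?_ ?_ hfin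
  · rintro η ⟨h1, h2, h3⟩ i _
    obtain ⟨m, hm1, hm2⟩ := key η h1 h2 h3 i
    exact ⟨m, hm1, hm2.symm⟩
  · intro η _ η' _ h
    exact b.ext (fun i => congrFun h i)

theorem exists_delta {D : Datum V} {ξ : V →ₗ[ℝ] ℝ} (hξ : D.Pos ξ) :
    ∃ δ : ℝ, 0 < δ ∧ ∀ y ∈ closure D.C, δ * ‖y‖ ≤ ξ y := by
  have hK : IsCompact (closure D.C ∩ Metric.sphere (0 : V) 1) :=
    (isCompact_sphere (0 : V) 1).inter_left isClosed_closure
  have main : ∃ δ : ℝ, 0 < δ ∧ ∀ y ∈ closure D.C ∩ Metric.sphere (0 : V) 1, δ ≤ ξ y := by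
    rcases (closure D.C ∩ Metric.sphere (0 : V) 1).eq_empty_or_nonempty with h | h
    · exact ⟨1, one_pos, fun y hy => by rw [h] at hy; exact absurd hy (Set.notMem_empty y)⟩
    · obtain ⟨z, hz, hmin⟩ := hK.exists_isMinOn h (lin_cont ξ).continuousOn
      refine ⟨ξ z, hξ z hz.1 ?_, fun y hy => hmin hy⟩
      intro h0
      have := hz.2
      rw [h0, mem_sphere_zero_iff_norm, norm_zero] at this
      exact zero_ne_one this
  obtain ⟨δ, hδ, h⟩ := main
  refine ⟨δ, hδ, fun y hy => ?_⟩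
  by_cases h0 : y = 0
  · rw [h0, norm_zero, mul_zero, map_zero]
  · have hn : 0 < ‖y‖ := norm_pos_iff.2 h0
    have h1 : ‖y‖⁻¹ • y ∈ closure D.C ∩ Metric.sphere (0 : V) 1 := by
      refine ⟨D.closure_smul (inv_nonneg.2 hn.le) hy, ?_⟩
      rw [mem_sphere_zero_iff_norm, norm_smul, norm_inv, norm_norm, inv_mul_cancel₀ hn.ne']
    have h2 := h _ h1
    rw [map_smul, smul_eq_mul, ← div_eq_inv_mul, le_div_iff₀ hn] at h2
    exact h2

theorem fin_lat {D : Datum V} {ξ : V →ₗ[ℝ] ℝ} (hξ : D.Pos ξ) (c : ℝ) :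
    {y | y ∈ closure D.C ∧ y ∈ D.L ∧ ξ y ≤ c}.Finite := by
  obtain ⟨δ, hδ, h⟩ := exists_delta hξ
  have := D.discrete
  have : IsZLattice ℝ D.L := ⟨D.span_top⟩
  have h1 : ((Metric.closedBall (0 : V) (|c| / δ)) ∩ (D.L : Set V)).Finite := by
    have hcl : IsClosed (D.L : Set V) :=
      AddSubgroup.isClosed_of_discrete (H := D.L.toAddSubgroup)
    exact Metric.finite_isBounded_inter_isClosed ⟨D.discrete⟩ Metric.isBounded_closedBall hcl
  refine h1.subset ?_
  rintro y ⟨hy1, hy2, hy3⟩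
  refine ⟨?_, hy2⟩
  rw [mem_closedBall_zero_iff, le_div_iff₀ hδ]
  have h2 := h y hy1
  linarith [le_abs_self c]

theorem exists_span (D : Datum V) : ∃ B : Finset V, (∀ s ∈ B, s ∈ D.L ∧ s ∈ D.C) ∧
    B.Nonempty ∧ Submodule.span ℝ (B : Set V) = ⊤ := by
  classical
  obtain ⟨n, b, hb⟩ := D.lat_basis
  obtain ⟨x, hx⟩ := D.nonempty_C
  obtain ⟨ε, hε, hball⟩ := Metric.isOpen_iff.1 D.open_C x hx
  set M : ℝ := ∑ i, ‖b i‖ with hM
  have hM0 : 0 ≤ M := Finset.sum_nonneg (fun i _ => norm_nonneg _)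
  have hMi : ∀ i, ‖b i‖ ≤ M := fun i =>
    Finset.single_le_sum (f := fun i => ‖b i‖) (fun j _ => norm_nonneg _) (Finset.mem_univ i)
  obtain ⟨N, hN⟩ := exists_nat_gt (2 * M / ε)
  have hN0 : (0 : ℝ) < (N : ℝ) + 1 := by positivity
  set t : ℝ := (N : ℝ) + 1 with ht
  have hNε : 2 * M / t < ε := by
    rw [div_lt_iff₀ hN0]
    rw [div_lt_iff₀ hε] at hN
    nlinarith
  set l : V := ∑ i, (round (t * b.repr x i) : ℤ) • b i with hl
  have hlL : l ∈ D.L := D.L.sum_mem (fun i _ => D.L.smul_mem _ (basis_mem hb i))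
  have hlx : ‖l - t • x‖ ≤ M := by
    have h1 : t • x = ∑ i, (t * b.repr x i) • b i := by
      conv_lhs => rw [← b.sum_repr x, Finset.smul_sum]
      refine Finset.sum_congr rfl fun i _ => ?_
      rw [smul_smul]
    rw [h1, hl, ← Finset.sum_sub_distrib, hM]
    refine (norm_sum_le _ _).trans (Finset.sum_le_sum fun i _ => ?_)
    have h2 : (round (t * b.repr x i) : ℤ) • b i = ((round (t * b.repr x i) : ℤ) : ℝ) • b i :=
      (Int.cast_smul_eq_zsmul ℝ _ _).symm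
    rw [h2, ← sub_smul, norm_smul]
    have h3 : ‖((round (t * b.repr x i) : ℤ) : ℝ) - t * b.repr x i‖ ≤ 1 := by
      rw [Real.norm_eq_abs, abs_sub_comm]
      exact (abs_sub_round _).trans (by norm_num)
    calc _ ≤ 1 * ‖b i‖ := by gcongr
      _ = ‖b i‖ := one_mul _
  have key : ∀ v : V, ‖v‖ ≤ M → l + v ∈ D.C := by
    intro v hv
    have h1 : t⁻¹ • (l + v) ∈ D.C := by
      apply hball
      rw [Metric.mem_ball, dist_eq_norm]
      have h2 : t⁻¹ • (l + v) - x = t⁻¹ • ((l - t • x) + v) := by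
        rw [smul_add, smul_add, smul_sub, smul_smul, inv_mul_cancel₀ hN0.ne', one_smul]
        abel
      rw [h2, norm_smul, norm_inv, Real.norm_eq_abs, abs_of_pos hN0, ← div_eq_inv_mul]
      calc ‖l - t • x + v‖ / t ≤ (M + M) / t := by
            gcongr
            exact (norm_add_le _ _).trans (add_le_add hlx hv)
        _ = 2 * M / t := by ring
        _ < ε := hNε
    have h3 := D.smul_C t hN0 _ h1
    rwa [smul_smul, mul_inv_cancel₀ hN0.ne', one_smul] at h3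
  refine ⟨insert l (Finset.univ.image fun i => l + b i), ?_, ⟨l, Finset.mem_insert_self _ _⟩, ?_⟩
  · intro s hs
    rcases Finset.mem_insert.1 hs with h | h
    · rw [h]
      have := key 0 (by rw [norm_zero]; exact hM0)
      rw [add_zero] at this
      exact ⟨hlL, this⟩
    · obtain ⟨i, _, rfl⟩ := Finset.mem_image.1 h
      exact ⟨D.L.add_mem hlL (basis_mem hb i), key _ (hMi i)⟩
  · rw [eq_top_iff, ← b.span_eq, Submodule.span_le]
    rintro _ ⟨i, rfl⟩
    have h1 : l ∈ Submodule.span ℝ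
        ((insert l (Finset.univ.image fun i => l + b i) : Finset V) : Set V) :=
      Submodule.subset_span (by simp)
    have h2 : l + b i ∈ Submodule.span ℝ
        ((insert l (Finset.univ.image fun i => l + b i) : Finset V) : Set V) :=
      Submodule.subset_span (by simp)
    have h3 := Submodule.sub_mem _ h2 h1
    rwa [add_sub_cancel_left] at h3

theorem fin_fiber {D : Datum V} {ξ : V →ₗ[ℝ] ℝ} (hξ : D.Pos ξ) (η : V →ₗ[ℝ] ℝ) :
    {g : V ≃ₗ[ℝ] V | D.Pres g ∧ ξ ∘ₗ (g : V →ₗ[ℝ] V) = η}.Finite := by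
  obtain ⟨B, hB, -, hspan⟩ := D.exists_span
  have hfin : {f : B → V | ∀ s : B, f s ∈ {y | y ∈ closure D.C ∧ y ∈ D.L ∧ ξ y ≤ η s}}.Finite :=
    Set.Finite.pi' fun s => fin_lat hξ (η s)
  refine Set.Finite.of_injOn (f := fun (g : V ≃ₗ[ℝ] V) (s : B) => g s)
    (t := {f : B → V | ∀ s : B, f s ∈ {y | y ∈ closure D.C ∧ y ∈ D.L ∧ ξ y ≤ η s}}) ?_ ?_ hfin
  · rintro g ⟨hg, hg2⟩ s
    obtain ⟨h1, h2⟩ := hB s s.2
    refine ⟨(hg.cl _).2 (subset_closure h2), (hg.1 _).2 h1, ?_⟩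
    rw [← hg2]
    exact le_rfl
  · intro g _ g' _ h
    apply LinearEquiv.toLinearMap_injective
    apply LinearMap.ext_on hspan
    intro s hs
    exact congrFun h ⟨s, hs⟩

end Datum

end Pool.Agent.H32.Cone
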