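import Pool.Agent.H32.Cone.Lat
import Pool.Agent.H32.Cone.Dick

/-!
# The cone conjecture: minimisers and the Siegel property

PROOFS. `G` is a group of automorphisms with `D.Pres`, `ξ` is `Pos` and `Int`.
exists_min: the set `{η | Int, NN, η x ≤ ξ x}` is finite (fin_bounded) and contains `ξ = ξ ∘ 1`. Among the elements of
`{ξ ∘ g | g ∈ G}` in this finite set choose one with the smallest value at `x` (`Set.Finite.exists_minimal..`,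
`Set.exists_min_image`); a `g` not in the set has `ξ (g x) > ξ x`.
minim_fin: let `A = {ξ ∘ g | g ∈ G}` and `A0` as in `dickson` for `S`; let `c` be a real number with
`η' (∑ s ∈ S, s) ≤ c` for all `η' ∈ A0` (finite set). Let `h` be in the set, `x = ∑ a s • s ∈ C`, `η = ξ ∘ h`,
`η' ∈ A0` with `η' ≤ η` on `S`, `η' = ξ ∘ g'`. Then `η x ≤ η' x` (minimality of `h`) and
`0 = η x - η' x = ∑ a s (η s - η' s)` has nonnegative terms (`≥ 0` from dickson, `≤ 0` from minimality), so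
`η s = η' s` if `a s > 0`. With `S1 = {s ∈ S | 0 < a s}`, `u = ∑ s ∈ S1, s ∈ C` (support_mem),
`η u = η' u ≤ η' (∑ s ∈ S, s) ≤ c` (terms `η' s ≥ 0`). So `η` lies in
`⋃ S1 ∈ S.powerset, {η | Int, NN, η (∑ s ∈ S1, s) ≤ c}` over those `S1` with `∑ s ∈ S1, s ∈ C`: a finite union of
finite sets (fin_bounded); and `h ∈ fin_fiber` of `η`. `Set.Finite.biUnion`, `Set.Finite.subset`.
siegel: let `M S = minim_fin set`. Let `x = g y`, `y ∈ pcone S`, `x ∈ pcone T ∩ C`; `y ∈ C` as `g` preserves `C`.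
exists_min at `x` gives `f ∈ G` minimal, so `f ∈ M T`; and `f * g` is minimal at `y` (`ξ (f g y) = ξ (f x) ≤ ξ (h' g⁻¹ x)`
for every `h' ∈ G`, since `h' * g⁻¹ ∈ G`), so `f * g ∈ M S`. Hence `g = f⁻¹ * (f * g)` lies in the image of the finite set
`M T ×ˢ M S`.
-/

set_option autoImplicit false
set_option linter.unusedSectionVars false

open Set Filter Topology

namespace Pool.Agent.H32.Cone

variable {V : Type} [NormedAddCommGroup V] [NormedSpace ℝ V] [FiniteDimensional ℝ V]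

namespace Datum

/-- the orbit of a functional -/
def Orb (G : Subgroup (V ≃ₗ[ℝ] V)) (ξ : V →ₗ[ℝ] ℝ) : Set (V →ₗ[ℝ] ℝ) :=
  {η | ∃ g ∈ G, η = ξ ∘ₗ (g : V →ₗ[ℝ] V)}

theorem orb_int {D : Datum V} {G : Subgroup (V ≃ₗ[ℝ] V)} (hG : ∀ g ∈ G, D.Pres g)
    {ξ : V →ₗ[ℝ] ℝ} (hξ : D.Pos ξ) (hξ2 : D.Int ξ) :
    ∀ η ∈ Orb G ξ, D.Int η ∧ D.NN η := by
  rintro η ⟨g, hg, rfl⟩
  exact ⟨hξ2.comp (hG g hg), hξ.nn.comp (hG g hg)⟩

theorem exists_min {D : Datum V} {G : Subgroup (V ≃ₗ[ℝ] V)} (hG : ∀ g ∈ G, D.Pres g)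
    {ξ : V →ₗ[ℝ] ℝ} (hξ : D.Pos ξ) (hξ2 : D.Int ξ) {x : V} (hx : x ∈ D.C) :
    ∃ f ∈ G, ∀ g ∈ G, ξ (f x) ≤ ξ (g x) := by
  have h1 : (Orb G ξ ∩ {η | D.Int η ∧ D.NN η ∧ η x ≤ ξ x}).Finite :=
    (D.fin_bounded hx (ξ x)).inter_of_right _
  have h2 : (Orb G ξ ∩ {η | D.Int η ∧ D.NN η ∧ η x ≤ ξ x}).Nonempty :=
    ⟨ξ, ⟨1, G.one_mem, rfl⟩, hξ2, hξ.nn, le_rfl⟩
  obtain ⟨η, ⟨⟨f, hf, hη⟩, -, -, hle⟩, hmin⟩ :=
    Set.exists_min_image _ (fun η : V →ₗ[ℝ] ℝ => η x) h1 h2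
  refine ⟨f, hf, fun g hg => ?_⟩
  have hfx : ξ (f x) = η x := by rw [hη]; rfl
  rw [hfx]
  by_cases h : ξ (g x) ≤ ξ x
  · exact hmin (ξ ∘ₗ (g : V →ₗ[ℝ] V)) ⟨⟨g, hg, rfl⟩, hξ2.comp (hG g hg), hξ.nn.comp (hG g hg), h⟩
  · exact hle.trans (not_le.1 h).le

theorem minim_fin {D : Datum V} {G : Subgroup (V ≃ₗ[ℝ] V)} (hG : ∀ g ∈ G, D.Pres g)
    {ξ : V →ₗ[ℝ] ℝ} (hξ : D.Pos ξ) (hξ2 : D.Int ξ) {S : Finset V}
    (hS : ∀ s ∈ S, s ∈ D.L ∧ s ∈ closure D.C) :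
    {h | h ∈ G ∧ ∃ x ∈ pcone S, x ∈ D.C ∧ ∀ g ∈ G, ξ (h x) ≤ ξ (g x)}.Finite := by
  classical
  obtain ⟨A0, hA0, hA0f, hdom⟩ := D.dickson hS (Orb G ξ) (orb_int hG hξ hξ2)
  -- a bound for the values of the elements of A0
  obtain ⟨c, hc⟩ : ∃ c : ℝ, ∀ η ∈ A0, η (∑ s ∈ S, s) ≤ c := by
    have h1 : ((fun η : V →ₗ[ℝ] ℝ => η (∑ s ∈ S, s)) '' A0).Finite := hA0f.image _
    obtain ⟨c, hc⟩ := h1.bddAbove
    exact ⟨c, fun η hη => hc ⟨η, hη, rfl⟩⟩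
  -- the finite set of functionals
  set U : Set (V →ₗ[ℝ] ℝ) := ⋃ S1 ∈ {T : Finset V | T ∈ S.powerset ∧ ∑ s ∈ T, s ∈ D.C},
    {η | D.Int η ∧ D.NN η ∧ η (∑ s ∈ S1, s) ≤ c} with hU
  have hUf : U.Finite := by
    refine Set.Finite.biUnion ?_ ?_
    · exact (Finset.finite_toSet S.powerset).subset (fun T hT => hT.1)
    · intro T hT
      exact D.fin_bounded hT.2 c
  have hVf : (⋃ η ∈ U, {g : V ≃ₗ[ℝ] V | D.Pres g ∧ ξ ∘ₗ (g : V →ₗ[ℝ] V) = η}).Finite :=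
    Set.Finite.biUnion hUf (fun η _ => fin_fiber hξ η)
  refine hVf.subset ?_
  rintro h ⟨hh, x, ⟨a, ha, hxa⟩, hxC, hmin⟩
  rw [Set.mem_iUnion₂]
  refine ⟨ξ ∘ₗ (h : V →ₗ[ℝ] V), ?_, hG h hh, rfl⟩
  set η : V →ₗ[ℝ] ℝ := ξ ∘ₗ (h : V →ₗ[ℝ] V) with hη
  obtain ⟨η', hη', hle⟩ := hdom η ⟨h, hh, rfl⟩
  obtain ⟨hη'i, hη'n⟩ := orb_int hG hξ hξ2 η' (hA0 hη')
  have hge : η x ≤ η' x := by
    obtain ⟨g', hg', hgη⟩ := hA0 hη'
    rw [hgη]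
    exact hmin g' hg'
  have hterm : ∀ s ∈ S, 0 < a s → η s = η' s := by
    have h1 : ∑ s ∈ S, a s * (η s - η' s) ≤ 0 := by
      have e1 : ∑ s ∈ S, a s * (η s - η' s) = η x - η' x := by
        rw [hxa, map_sum, map_sum, ← Finset.sum_sub_distrib]
        refine Finset.sum_congr rfl fun s _ => ?_
        rw [map_smul, map_smul, smul_eq_mul, smul_eq_mul]
        ring
      rw [e1]
      linarith
    have h2 : ∀ s ∈ S, 0 ≤ a s * (η s - η' s) := fun s hs =>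
      mul_nonneg (ha s hs) (sub_nonneg.2 (hle s hs))
    have h3 : ∑ s ∈ S, a s * (η s - η' s) = 0 := le_antisymm h1 (Finset.sum_nonneg h2)
    intro s hs has
    have h4 := (Finset.sum_eq_zero_iff_of_nonneg h2).1 h3 s hs
    rcases mul_eq_zero.1 h4 with h5 | h5
    · exact absurd h5 has.ne'
    · linarith
  have hu : ∑ s ∈ S with 0 < a s, s ∈ D.C :=
    D.support_mem (fun s hs => (hS s hs).2) ha (hxa ▸ hxC)
  rw [hU, Set.mem_iUnion₂]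
  refine ⟨S.filter fun s => 0 < a s, ⟨Finset.mem_powerset.2 (Finset.filter_subset _ _), hu⟩,
    (orb_int hG hξ hξ2 η ⟨h, hh, rfl⟩).1, (orb_int hG hξ hξ2 η ⟨h, hh, rfl⟩).2, ?_⟩
  calc η (∑ s ∈ S with 0 < a s, s) = ∑ s ∈ S with 0 < a s, η s := map_sum _ _ _
    _ = ∑ s ∈ S with 0 < a s, η' s := by
      refine Finset.sum_congr rfl fun s hs => ?_
      rw [Finset.mem_filter] at hs
      exact hterm s hs.1 hs.2
    _ ≤ ∑ s ∈ S, η' s := by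
      refine Finset.sum_le_sum_of_subset_of_nonneg (Finset.filter_subset _ _) fun s hs _ => ?_
      exact hη'n.cl (hS s hs).2
    _ = η' (∑ s ∈ S, s) := (map_sum _ _ _).symm
    _ ≤ c := hc η' hη'

/-- the Siegel property -/
theorem siegel {D : Datum V} {G : Subgroup (V ≃ₗ[ℝ] V)} (hG : ∀ g ∈ G, D.Pres g)
    {ξ : V →ₗ[ℝ] ℝ} (hξ : D.Pos ξ) (hξ2 : D.Int ξ) {S T : Finset V}
    (hS : ∀ s ∈ S, s ∈ D.L ∧ s ∈ closure D.C) (hT : ∀ s ∈ T, s ∈ D.L ∧ s ∈ closure D.C) :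
    {g | g ∈ G ∧ ∃ y ∈ pcone S, g y ∈ pcone T ∧ g y ∈ D.C}.Finite := by
  have h1 := minim_fin hG hξ hξ2 hS
  have h2 := minim_fin hG hξ hξ2 hT
  refine ((h2.prod h1).image (fun p : (V ≃ₗ[ℝ] V) × (V ≃ₗ[ℝ] V) => p.1⁻¹ * p.2)).subset ?_
  rintro g ⟨hg, y, hy, hgT, hgC⟩
  obtain ⟨f, hf, hfmin⟩ := exists_min hG hξ hξ2 hgC
  have hyC : y ∈ D.C := ((hG g hg).2 y).1 hgC
  refine ⟨(f, f * g), ⟨⟨hf, g y, hgT, hgC, hfmin⟩, G.mul_mem hf hg, y, hy, hyC, ?_⟩, ?_⟩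
  · intro k hk
    have h3 := hfmin (k * g⁻¹) (G.mul_mem hk (G.inv_mem hg))
    have h4 : (k * g⁻¹ : V ≃ₗ[ℝ] V) (g y) = k y := by
      show k (g.symm (g y)) = k y
      rw [LinearEquiv.symm_apply_apply]
    rw [h4] at h3
    exact h3
  · exact inv_mul_cancel_left f g

end Datum

end Pool.Agent.H32.Cone
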