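import Pool.Agent.H32.Cone.Aut
import Pool.Agent.H32.Cone.Final

/-!
# The cone conjecture: transport along a linear equivalence, with commensurable lattices and groups
-/

set_option autoImplicit false
set_option linter.unusedSectionVars false

open Set

namespace Pool.Agent.H32.Cone

section

variable {V : Type} [NormedAddCommGroup V] [NormedSpace ℝ V] [FiniteDimensional ℝ V]
variable {W : Type} [NormedAddCommGroup W] [NormedSpace ℝ W] [FiniteDimensional ℝ W]

theorem equiv_closure {D : Datum V} {D' : Datum W} (e : W ≃ₗ[ℝ] V)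
    (hC : ∀ x, x ∈ D'.C ↔ e x ∈ D.C) (x : W) : x ∈ closure D'.C ↔ e x ∈ closure D.C := by
  have h1 : Continuous (fun x => e x) := lin_cont (e : W →ₗ[ℝ] V)
  have h2 : Continuous (fun x => e.symm x) := lin_cont (e.symm : V →ₗ[ℝ] W)
  constructor
  · intro hx
    exact map_mem_closure h1 hx fun a ha => (hC a).1 ha
  · intro hx
    have h3 : e.symm (e x) ∈ closure D'.C :=
      map_mem_closure h2 hx fun a ha => (hC _).2 (by rwa [LinearEquiv.apply_symm_apply])
    rwa [LinearEquiv.symm_apply_apply] at h3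

theorem equiv_plus {D : Datum V} {D' : Datum W} (f : W →ₗ[ℝ] V)
    (hcl : ∀ x ∈ closure D'.C, f x ∈ closure D.C) {m : ℕ} (hm : 0 < m)
    (hL : ∀ x ∈ D'.L, m • f x ∈ D.L) {x : W} (hx : x ∈ D'.Plus) : f x ∈ D.Plus := by
  classical
  obtain ⟨T, hT, hx⟩ := hx
  have hm0 : (0 : ℝ) < m := by exact_mod_cast hm
  refine ⟨T.image (fun t => m • f t), ?_, ?_⟩
  · intro t ht
    obtain ⟨s, hs, rfl⟩ := Finset.mem_image.1 ht
    refine ⟨hL s (hT s hs).1, ?_⟩
    rw [← Nat.cast_smul_eq_nsmul ℝ]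
    exact D.closure_smul hm0.le (hcl s (hT s hs).2)
  · have h1 : f x ∈ pcone (T.image f) := by
      rw [← pcone_image]
      exact ⟨x, hx, rfl⟩
    refine pcone_sub ?_ h1
    intro t ht
    obtain ⟨s, hs, rfl⟩ := Finset.mem_image.1 ht
    have h2 : m • f s ∈ pcone (T.image (fun t => m • f t)) :=
      pcone_mem (Finset.mem_image_of_mem _ hs)
    have h3 := pcone_smul (t := (m : ℝ)⁻¹) (by positivity) h2
    rwa [← Nat.cast_smul_eq_nsmul ℝ, smul_smul, inv_mul_cancel₀ hm0.ne', one_smul] at h3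

/-- transport along an equivalence -/
theorem transfer {D : Datum V} {D' : Datum W} (e : W ≃ₗ[ℝ] V)
    (hC : ∀ x, x ∈ D'.C ↔ e x ∈ D.C) (hE' : ∀ x, x ∈ D'.E ↔ e x ∈ D.E) {m : ℕ} (hm : 0 < m)
    (hL1 : ∀ x ∈ D'.L, m • e x ∈ D.L) (hL2 : ∀ x, e x ∈ D.L → m • x ∈ D'.L)
    {G : Subgroup (V ≃ₗ[ℝ] V)} {H : Subgroup (W ≃ₗ[ℝ] W)}
    (hG : ∀ g ∈ G, D.Pres g) (hH : ∀ g ∈ H, D'.Pres g) (hD : D.Conj G)
    {R : Set (W → W)} (hRf : R.Finite)
    (hR : ∀ g ∈ G, ∃ h ∈ H, ∃ r ∈ R, ∀ x, e (h (r x)) = g (e x)) :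
    D'.Conj H := by
  classical
  obtain ⟨⟨S, hS, hcov⟩, hE⟩ := Datum.conj_cover hG hD
  have hm0 : (0 : ℝ) < m := by exact_mod_cast hm
  have hcl := equiv_closure (D := D) (D' := D') e hC
  have hR2f : (R ∩ {r | ∃ g ∈ G, ∃ h ∈ H, ∀ x, e (h (r x)) = g (e x)}).Finite :=
    hRf.inter_of_left _
  refine Datum.conj_of_cover
    (S := hR2f.toFinset.biUnion fun r => S.image (fun s => m • r (e.symm s))) hH ?_ ?_ ?_
  · intro s hs
    obtain ⟨r, hr, hs⟩ := Finset.mem_biUnion.1 hs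
    obtain ⟨t, ht, rfl⟩ := Finset.mem_image.1 hs
    rw [Set.Finite.mem_toFinset] at hr
    obtain ⟨-, g, hg, h, hh, hgr⟩ := hr
    have h1 : e (h (r (e.symm t))) = g t := by rw [hgr, LinearEquiv.apply_symm_apply]
    constructor
    · have h2 : m • h (r (e.symm t)) ∈ D'.L := by
        apply hL2
        rw [h1]
        exact ((hG g hg).1 t).2 (hS t ht).1
      have h3 : h (m • r (e.symm t)) = m • h (r (e.symm t)) := map_nsmul _ _ _
      rw [← h3] at h2
      exact ((hH h hh).1 _).1 h2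
    · have h2 : h (r (e.symm t)) ∈ closure D'.C := by
        rw [hcl, h1]
        exact ((hG g hg).cl t).2 (hS t ht).2
      have h3 := ((hH h hh).cl _).1 h2
      rw [← Nat.cast_smul_eq_nsmul ℝ]
      exact D'.closure_smul hm0.le h3
  · intro x hx
    rw [hC] at hx
    obtain ⟨g, hg, y, hy, hyx⟩ := hcov _ hx
    obtain ⟨h, hh, r, hr, hgr⟩ := hR g hg
    -- r is linear
    let r' : W →ₗ[ℝ] W := (h.symm : W →ₗ[ℝ] W) ∘ₗ (e.symm : V →ₗ[ℝ] W) ∘ₗ (g : V →ₗ[ℝ] V) ∘ₗ
      (e : W →ₗ[ℝ] V)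
    have hr' : ∀ x, r' x = r x := by
      intro x
      show h.symm (e.symm (g (e x))) = r x
      rw [← hgr, LinearEquiv.symm_apply_apply, LinearEquiv.symm_apply_apply]
    refine ⟨h, hh, r (e.symm y), ?_, ?_⟩
    · have h1 : r (e.symm y) ∈ pcone (S.image (r' ∘ₗ (e.symm : V →ₗ[ℝ] W))) := by
        rw [← pcone_image]
        exact ⟨y, hy, hr' _⟩
      refine pcone_sub ?_ h1
      intro t ht
      obtain ⟨s, hs, rfl⟩ := Finset.mem_image.1 ht
      have h2 : m • r (e.symm s) ∈ pcone (hR2f.toFinset.biUnion fun r =>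
          S.image (fun s => m • r (e.symm s))) :=
        pcone_mem (Finset.mem_biUnion.2 ⟨r, (Set.Finite.mem_toFinset _).2 ⟨hr, g, hg, h, hh, hgr⟩,
          Finset.mem_image_of_mem _ hs⟩)
      have h3 := pcone_smul (t := (m : ℝ)⁻¹) (by positivity) h2
      rw [← Nat.cast_smul_eq_nsmul ℝ, smul_smul, inv_mul_cancel₀ hm0.ne', one_smul] at h3
      have h4 : (r' ∘ₗ (e.symm : V →ₗ[ℝ] W)) s = r (e.symm s) := hr' _
      rw [h4]
      exact h3
    · apply e.injective
      rw [hgr, LinearEquiv.apply_symm_apply, hyx]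
  · ext x
    rw [Set.mem_inter_iff, hcl, hE', ← Set.mem_inter_iff, hE]
    constructor
    · intro hx
      have h1 : e.symm (e x) ∈ D'.Plus := by
        refine equiv_plus (D := D') (D' := D) (e.symm : V →ₗ[ℝ] W) ?_ hm ?_ hx
        · intro y hy
          show e.symm y ∈ closure D'.C
          rw [hcl, LinearEquiv.apply_symm_apply]
          exact hy
        · intro y hy
          show m • e.symm y ∈ D'.L
          apply hL2
          rw [LinearEquiv.apply_symm_apply]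
          exact hy
      rwa [LinearEquiv.symm_apply_apply] at h1
    · intro hx
      exact equiv_plus (D := D) (D' := D') (e : W →ₗ[ℝ] V) (fun y hy => (hcl y).1 hy) hm hL1 hx

end

/-! ## situations -/

namespace Sit

/-- the action as a homomorphism -/
def rho (X : Sit) : X.A →* (X.V ≃ₗ[ℝ] X.V) where
  toFun a := LinearEquiv.ofLinearMap (IsLinearMap.mk' _ (X.linear a)) (IsLinearMap.mk' _ (X.linear a⁻¹))
    (by
      ext x
      show X.act a (X.act a⁻¹ x) = x
      rw [← X.act_mul, mul_inv_cancel, X.act_one])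
    (by
      ext x
      show X.act a⁻¹ (X.act a x) = x
      rw [← X.act_mul, inv_mul_cancel, X.act_one])
  map_one' := by
    ext x
    exact X.act_one x
  map_mul' a b := by
    ext x
    exact X.act_mul a b x

theorem rho_apply (X : Sit) (a : X.A) (x : X.V) : X.rho a x = X.act a x := rfl

theorem act_inv_act (X : Sit) (a : X.A) (x : X.V) : X.act a⁻¹ (X.act a x) = x := by
  rw [← X.act_mul, inv_mul_cancel, X.act_one]

theorem pres (X : Sit) (a : X.A) : X.D.Pres (X.rho a) := by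
  constructor
  · intro x
    refine ⟨fun h => ?_, fun h => X.act_L a x h⟩
    have h1 := X.act_L a⁻¹ _ h
    rw [rho_apply, act_inv_act] at h1
    exact h1
  · intro x
    refine ⟨fun h => ?_, fun h => X.act_C a x h⟩
    have h1 := X.act_C a⁻¹ _ h
    rw [rho_apply, act_inv_act] at h1
    exact h1

theorem ker_eq (X : Sit) : X.rho.ker = X.ker := by
  ext a
  rw [MonoidHom.mem_ker]
  constructor
  · intro h x
    show X.rho a x = x
    rw [h]
    rfl
  · intro h
    ext x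
    exact h x

theorem q1_iff (X : Sit) : X.Q1 ↔ X.D.Conj X.rho.range := by
  constructor
  · rintro ⟨S, hS, hU, hI⟩
    refine ⟨S, hS, ?_, ?_⟩
    · refine Eq.trans (show _ = X.Nef ∩ X.Eff from rfl) ?_
      rw [hU]
      ext x
      simp only [Set.mem_iUnion]
      constructor
      · rintro ⟨a, ha⟩
        exact ⟨X.rho a, ⟨a, rfl⟩, ha⟩
      · rintro ⟨_, ⟨a, rfl⟩, ha⟩
        exact ⟨a, ha⟩
    · rintro _ ⟨a, rfl⟩ h
      ext x
      exact hI a h x
  · rintro ⟨S, hS, hU, hI⟩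
    refine ⟨S, hS, ?_, ?_⟩
    · refine Eq.trans (show _ = closure X.D.C ∩ X.D.E from rfl) ?_
      rw [hU]
      ext x
      simp only [Set.mem_iUnion]
      constructor
      · rintro ⟨_, ⟨a, rfl⟩, ha⟩
        exact ⟨a, ha⟩
      · rintro ⟨a, ha⟩
        exact ⟨X.rho a, ⟨a, rfl⟩, ha⟩
    · intro a h x
      have h1 := hI _ ⟨a, rfl⟩ h
      show X.rho a x = x
      rw [h1]
      rfl

theorem pres_range (X : Sit) : ∀ g ∈ X.rho.range, X.D.Pres g := by
  rintro _ ⟨a, rfl⟩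
  exact X.pres a

theorem q1_product {ι : Type} [Fintype ι] {X : ι → Sit} {P : Sit} (hX : ∀ i, (X i).Q1)
    (hP : IsProduct X P) : P.Q1 := by
  classical
  obtain ⟨p, ⟨hlin, hbij⟩, hC, ⟨m, hm, hL⟩, R, hRf, hR⟩ := hP
  obtain ⟨P0, hP0⟩ := prod_datum (fun i => (X i).D)
  have hpres : ∀ h ∈ prodGrp fun i => (X i).rho.range, P0.Pres h :=
    prodGrp_pres hP0 fun i => (X i).pres_range
  have h1 : P0.Conj (prodGrp fun i => (X i).rho.range) :=
    product hP0 (fun i => (X i).pres_range) (fun i => (X i).q1_iff.1 (hX i)) hpres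
      (fun g hg h hh => ⟨g, hg, hh⟩)
  rw [q1_iff]
  -- the equivalence
  let f : P.V →ₗ[ℝ] (∀ i, (X i).V) := LinearMap.pi fun i => IsLinearMap.mk' _ (hlin i)
  have hf : Function.Bijective f := by
    constructor
    · intro x y hxy
      obtain ⟨z, -, hz⟩ := hbij (f y)
      rw [hz x (fun i => congrFun hxy i), hz y (fun i => rfl)]
    · intro y
      obtain ⟨z, hz, -⟩ := hbij y
      exact ⟨z, funext hz⟩
  let e : P.V ≃ₗ[ℝ] (∀ i, (X i).V) := LinearEquiv.ofBijective f hf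
  have he : ∀ x i, e x i = p i x := fun x i => rfl
  refine transfer e ?_ ?_ hm ?_ ?_ hpres P.pres_range h1 hRf ?_
  · intro x
    rw [(hP0 _).2.1]
    exact (hC x).1
  · intro x
    rw [(hP0 _).2.2]
    exact (hC x).2
  · intro x hx
    rw [(hP0 _).1]
    intro i
    exact (hL x).1 hx i
  · intro x hx
    rw [(hP0 _).1] at hx
    exact (hL x).2 hx
  · rintro h ⟨g, hg, hg2⟩
    choose a ha using hg
    obtain ⟨b, r, hr, hbr⟩ := hR a
    refine ⟨P.rho b, ⟨b, rfl⟩, r, hr, ?_⟩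
    intro x
    funext i
    rw [he, hg2, he]
    have h2 := hbr x i
    rw [← ha i]
    exact h2

theorem q1_quot {X Y : Sit} (hX : X.Q1) (hY : IsQuot X Y) : Y.Q1 := by
  classical
  obtain ⟨hker, Γ, j, hΓ, ⟨hlin, hinj, hfix⟩, hC, ⟨m, hm, hL⟩, R, hRf, hR⟩ := hY
  rw [← ker_eq] at hker
  have hl : LiftFin X.rho Γ := lift_fin_of_abfin X.rho Γ hker
  obtain ⟨D0, h0⟩ := fixed_datum X.pres Γ
  have hpres : ∀ h ∈ centGrp X.rho Γ, D0.Pres h := centGrp_pres X.pres h0
  have h1 : D0.Conj (centGrp X.rho Γ) :=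
    descent X.pres hl (X.q1_iff.1 hX) h0 hpres (fun z hz h hh => ⟨z, hz, hh⟩)
  rw [q1_iff]
  have hmem : ∀ y, IsLinearMap.mk' _ hlin y ∈ fixed X.rho Γ := fun y => (hfix (j y)).2 ⟨y, rfl⟩
  let f : Y.V →ₗ[ℝ] fixed X.rho Γ := LinearMap.codRestrict _ (IsLinearMap.mk' _ hlin) hmem
  have hf : Function.Bijective f := by
    constructor
    · intro x y hxy
      exact hinj (congrArg Subtype.val hxy)
    · rintro ⟨x, hx⟩
      obtain ⟨y, hy⟩ := (hfix x).1 hx
      exact ⟨y, Subtype.ext hy⟩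
  let e : Y.V ≃ₗ[ℝ] fixed X.rho Γ := LinearEquiv.ofBijective f hf
  have he : ∀ y, ((e y : fixed X.rho Γ) : X.V) = j y := fun y => rfl
  refine transfer e ?_ ?_ hm ?_ ?_ hpres Y.pres_range h1 hRf ?_
  · intro y
    rw [(h0 _).2.1]
    exact (hC y).1
  · intro y
    rw [(h0 _).2.2]
    exact (hC y).2
  · intro y hy
    rw [(h0 _).1]
    exact (hL y).1 hy
  · intro y hy
    rw [(h0 _).1] at hy
    exact (hL y).2 hy
  · rintro h ⟨z, hz, hz2⟩
    obtain ⟨b, r, hr, hbr⟩ := hR z (fun a ha => (Subgroup.mem_centralizer_iff.1 hz a ha).symm)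
    refine ⟨Y.rho b, ⟨b, rfl⟩, r, hr, ?_⟩
    intro x
    apply Subtype.ext
    rw [hz2]
    exact hbr x

/-- products and finite quotients -/
theorem q1_main {ι : Type} [Fintype ι] {X : ι → Sit} {P Y : Sit} (hX : ∀ i, (X i).Q1)
    (hP : IsProduct X P) (hY : IsQuot P Y) : Y.Q1 :=
  q1_quot (q1_product hX hP) hY

end Sit

end Pool.Agent.H32.Cone
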